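import Pool.Agent.Helper77.JH.K6
import Pool.Agent.Helper77.JH.F2Cd

/-! # HB: complex hyperbolic space, every value of the mean curvature -/

set_option autoImplicit false

open Filter Topology Set

namespace Pool.Agent.Helper65.HB

open Pool.Agent.Helper77.JE Pool.Agent.Helper77.JH
open Pool.Agent.Helper41.ALX (bergman)

/-- a horospherically convex hypersurface of constant mean curvature is a geodesic sphere -/
theorem final_all {n : ℕ} (hn : 2 ≤ n) {ρ : EuclideanSpace ℂ (Fin n) → ℝ} {H : ℝ}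
    (hc : Pool.Agent.Helper75.ROT.CMC (bergman n) ρ H)
    {p : EuclideanSpace ℂ (Fin n)} (hp : ‖p‖ < 1)
    (hb : ∀ z ∈ Metric.ball (0 : EuclideanSpace ℂ (Fin n)) 1, ρ z = 0 →
      HoroC (endC (bergman n) ρ z) z p) :
    ∃ (c : EuclideanSpace ℂ (Fin n)) (lam : ℝ), ‖c‖ < 1 ∧ 1 < lam ∧
      H = (2 * n - 1) * lam + lam⁻¹ ∧
      ∀ z ∈ Metric.ball (0 : EuclideanSpace ℂ (Fin n)) 1,
        (ρ z < 0 ↔ coshSq c z * (1 - lam⁻¹ ^ 2) < 1) ∧
        (ρ z = 0 ↔ coshSq c z * (1 - lam⁻¹ ^ 2) = 1) := by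
  obtain ⟨hj, hdet, hinv⟩ := bergman_data (n := n)
  have hdim : Module.finrank ℝ (EuclideanSpace ℂ (Fin n)) = 2 * n := by
    have h1 := finrank_real_of_complex (EuclideanSpace ℂ (Fin n))
    rw [finrank_euclideanSpace_fin] at h1
    exact h1
  have hnt : Nontrivial (EuclideanSpace ℂ (Fin n)) := by
    apply Module.nontrivial_of_finrank_pos (R := ℝ)
    omega
  have hreg : ∀ z : EuclideanSpace ℂ (Fin n), ‖z‖ < 1 → ρ z = 0 → fderiv ℝ ρ z ≠ 0 := by
    intro z hz h0 hf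
    apply hc.regular z (by simpa using hz) h0
    rw [gradient, hf, map_zero]
  obtain ⟨z, hz0, hz1, hz, hm⟩ := far_point hc.smooth hc.bounded hc.nonempty
  have h1 := CH.mc_far hj hc.smooth hz0 hz1 hz (hreg z hz1 hz) hm
  rw [← meanCurv_mc hj hdim hdet hinv hc.smooth hz1 (hreg z hz1 hz), hdim] at h1
  have h2 : (2 * n : ℝ) < H := by
    have h3 := hc.curvature z (by simpa using hz1) hz
    rw [h3] at h1
    push_cast at h1
    exact h1
  have hn1 : (2 : ℝ) ≤ n := by exact_mod_cast hn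
  obtain ⟨lam, hlam, hH⟩ := exists_lam (m := 2 * n - 2) (a := 1) (H := H) (by linarith)
    one_pos (by linarith)
  have hH2 : H = (2 * n - 1) * lam + lam⁻¹ := by
    rw [hH]
    ring
  rw [hH2] at hc
  obtain ⟨c, hc0, h3⟩ := CH.finalC hn hlam hc hp hb
  refine ⟨c, lam, hc0, hlam, hH2, fun z hz => ?_⟩
  have hz1 : ‖z‖ < 1 := by simpa using hz
  have hz2 : 0 < 1 - ‖z‖ ^ 2 := by nlinarith [norm_nonneg z]
  have hn2 : 0 < 1 - ‖c‖ ^ 2 := by nlinarith [norm_nonneg c]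
  have h4 : 0 < (1 - ‖c‖ ^ 2) * (1 - ‖z‖ ^ 2) := mul_pos hn2 hz2
  have h5 : coshSq c z * (1 - lam⁻¹ ^ 2) =
      (‖1 - inner ℂ c z‖ ^ 2 * (1 - lam⁻¹ ^ 2)) / ((1 - ‖c‖ ^ 2) * (1 - ‖z‖ ^ 2)) := by
    unfold coshSq
    ring
  rw [h5, div_lt_one h4, div_eq_one_iff_eq h4.ne']
  exact h3 z hz

end Pool.Agent.Helper65.HB
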