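import Pool.Agent.Helper77.JE.PtC

/-! # HB: the second vector field

Names as in `Helper77/JE/Defs.lean`. `ξ = J ν`, `phh w` is the tangential part of `J w`; `rho = |n̂|²`,
`bt = (rho - lam²) / 2`, `Pc = lam² + bt (lam² - 1)`, `N = m / 2 + 1`. The field is
`N lam² Pc T W + lam³ κ T ξ + bt ((lam² - 1) 𝒜 - rho) phh (T ξ) - Pc phh (T (phh W)) + lam² bt (B (T ξ) W ξ - B (T ξ) ξ W)`.
-/

set_option autoImplicit false
set_option linter.unusedSectionVars false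
set_option linter.unusedVariables false

namespace Pool.Agent.Helper77.JE


section defs

variable {L : Type*} [NormedAddCommGroup L] [NormedSpace ℝ L]

/-- the tangential part of `J w` -/
noncomputable def phh (B : L →L[ℝ] L →L[ℝ] ℝ) (J : L →L[ℝ] L) (ν w : L) : L := J w + B w (J ν) • ν

/-- its derivative -/
noncomputable def dph (B : L →L[ℝ] L →L[ℝ] ℝ) (J : L →L[ℝ] L) (ν w dν dw : L) : L :=
  J dw + (B dw (J ν) + B w (J dν)) • ν + B w (J ν) • dν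

/-- `|n̂|²` -/
noncomputable def rh (B : L →L[ℝ] L →L[ℝ] ℝ) (J : L →L[ℝ] L) (lam : ℝ) (p x ν : L) : ℝ :=
  n1 B lam p x ν ^ 2 + n2 B J lam p x ν ^ 2

/-- its derivative -/
noncomputable def drh (B : L →L[ℝ] L →L[ℝ] ℝ) (J : L →L[ℝ] L) (lam : ℝ) (p x ν dx dν : L) : ℝ :=
  2 * (n1 B lam p x ν * n1 B lam p dx dν + n2 B J lam p x ν * n2 B J lam p dx dν)

noncomputable def bt (B : L →L[ℝ] L →L[ℝ] ℝ) (J : L →L[ℝ] L) (lam : ℝ) (p x ν : L) : ℝ :=
  (rh B J lam p x ν - lam ^ 2) / 2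

noncomputable def dbt (B : L →L[ℝ] L →L[ℝ] ℝ) (J : L →L[ℝ] L) (lam : ℝ) (p x ν dx dν : L) : ℝ :=
  drh B J lam p x ν dx dν / 2

noncomputable def Pc (B : L →L[ℝ] L →L[ℝ] ℝ) (J : L →L[ℝ] L) (lam : ℝ) (p x ν : L) : ℝ :=
  lam ^ 2 + bt B J lam p x ν * (lam ^ 2 - 1)

/-- `lam²` times the coefficient of `phh (T ξ)` -/
noncomputable def lc (B : L →L[ℝ] L →L[ℝ] ℝ) (J : L →L[ℝ] L) (lam : ℝ) (p x ν : L) : ℝ :=
  bt B J lam p x ν * ((lam ^ 2 - 1) * Aa B J lam p x ν - rh B J lam p x ν)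

noncomputable def dlc (B : L →L[ℝ] L →L[ℝ] ℝ) (J : L →L[ℝ] L) (lam : ℝ) (p x ν dx dν : L) : ℝ :=
  dbt B J lam p x ν dx dν * ((lam ^ 2 - 1) * Aa B J lam p x ν - rh B J lam p x ν) +
    bt B J lam p x ν * ((lam ^ 2 - 1) * dAa B J lam p x ν dx dν - drh B J lam p x ν dx dν)

/-- the vector field (normalised) -/
noncomputable def V3 (B : L →L[ℝ] L →L[ℝ] ℝ) (J : L →L[ℝ] L) (lam m : ℝ) (p x ν : L)
    (S : L →L[ℝ] L) : L :=
  ((m / 2 + 1) * lam ^ 2 * Pc B J lam p x ν) • Tm B J lam x ν S (Wd B J lam p x ν) +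
    (lam ^ 2 * (lam * kp B J p x ν)) • Tm B J lam x ν S (J ν) +
    lc B J lam p x ν • phh B J ν (Tm B J lam x ν S (J ν)) -
    Pc B J lam p x ν • phh B J ν (Tm B J lam x ν S (phh B J ν (Wd B J lam p x ν))) +
    (lam ^ 2 * bt B J lam p x ν) • (B (Tm B J lam x ν S (J ν)) (Wd B J lam p x ν) • J ν -
      B (Tm B J lam x ν S (J ν)) (J ν) • Wd B J lam p x ν)

/-- its derivative -/
noncomputable def dV3 (B : L →L[ℝ] L →L[ℝ] ℝ) (J : L →L[ℝ] L) (lam m : ℝ) (p x ν : L)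
    (S : L →L[ℝ] L) (dx dν : L) (dS : L →L[ℝ] L) : L :=
  ((m / 2 + 1) * lam ^ 2 * (dbt B J lam p x ν dx dν * (lam ^ 2 - 1))) •
      Tm B J lam x ν S (Wd B J lam p x ν) +
    ((m / 2 + 1) * lam ^ 2 * Pc B J lam p x ν) •
      (dTm B J lam x ν dx dν dS (Wd B J lam p x ν) + Tm B J lam x ν S (dWd B J lam p x ν dx dν)) +
    (lam ^ 2 * (lam * dkp B J p x ν dx dν)) • Tm B J lam x ν S (J ν) +
    (lam ^ 2 * (lam * kp B J p x ν)) •
      (dTm B J lam x ν dx dν dS (J ν) + Tm B J lam x ν S (J dν)) +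
    dlc B J lam p x ν dx dν • phh B J ν (Tm B J lam x ν S (J ν)) +
    lc B J lam p x ν • dph B J ν (Tm B J lam x ν S (J ν)) dν
      (dTm B J lam x ν dx dν dS (J ν) + Tm B J lam x ν S (J dν)) -
    (dbt B J lam p x ν dx dν * (lam ^ 2 - 1)) •
      phh B J ν (Tm B J lam x ν S (phh B J ν (Wd B J lam p x ν))) -
    Pc B J lam p x ν • dph B J ν (Tm B J lam x ν S (phh B J ν (Wd B J lam p x ν))) dν
      (dTm B J lam x ν dx dν dS (phh B J ν (Wd B J lam p x ν)) +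
        Tm B J lam x ν S (dph B J ν (Wd B J lam p x ν) dν (dWd B J lam p x ν dx dν))) +
    (lam ^ 2 * dbt B J lam p x ν dx dν) •
      (B (Tm B J lam x ν S (J ν)) (Wd B J lam p x ν) • J ν -
        B (Tm B J lam x ν S (J ν)) (J ν) • Wd B J lam p x ν) +
    (lam ^ 2 * bt B J lam p x ν) •
      ((B (dTm B J lam x ν dx dν dS (J ν) + Tm B J lam x ν S (J dν)) (Wd B J lam p x ν) +
          B (Tm B J lam x ν S (J ν)) (dWd B J lam p x ν dx dν)) • J ν +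
        B (Tm B J lam x ν S (J ν)) (Wd B J lam p x ν) • J dν -
        (B (dTm B J lam x ν dx dν dS (J ν) + Tm B J lam x ν S (J dν)) (J ν) +
          B (Tm B J lam x ν S (J ν)) (J dν)) • Wd B J lam p x ν -
        B (Tm B J lam x ν S (J ν)) (J ν) • dWd B J lam p x ν dx dν)

end defs

end Pool.Agent.Helper77.JE
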