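import Pool.Agent.Helper77.JE.Cal
import Pool.Agent.Helper65.HB.Def3

/-! # HB: calculus on the cone for the second field (compare `Helper77/JE/Cal.lean`) -/

set_option autoImplicit false
set_option linter.unusedSectionVars false
set_option linter.unusedVariables false
set_option linter.deprecated false

namespace Pool.Agent.Helper77.JE

variable {L : Type*} [NormedAddCommGroup L] [NormedSpace ℝ L]

/-- the vector field on the cone -/
noncomputable def VV3 (B : L →L[ℝ] L →L[ℝ] ℝ) (J : L →L[ℝ] L) (lam m : ℝ) (p : L) (G : L → L)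
    (X : L) : L :=
  (tt B X * rr B G X) • V3 B J lam m p (xs B X) (nu B G X) (SS B G X)

variable {B : L →L[ℝ] L →L[ℝ] ℝ} {J : L →L[ℝ] L} {U : Set L} {G : L → L}

private theorem bil_zero_c1b {B : L →L[ℝ] L →L[ℝ] ℝ} {U : Set L} {f g : L → L} {f' g' : L →L[ℝ] L} {X : L} {c : ℝ}
    (hU : IsOpen U) (hX : X ∈ U) (hf : HasFDerivAt f f' X) (hg : HasFDerivAt g g' X)
    (h : ∀ Y ∈ U, B (f Y) (g Y) = c) (v : L) : B (f X) (g' v) + B (f' v) (g X) = 0 := by
  have h1 := B.hasFDerivAt_of_bilinear hf hg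
  have h2 : HasFDerivAt (fun Y => B (f Y) (g Y)) (0 : L →L[ℝ] ℝ) X := by
    refine (hasFDerivAt_const c X).congr_of_eventuallyEq ?_
    filter_upwards [hU.mem_nhds hX] with Y hY using h Y hY
  have h3 := congrArg (fun T : L →L[ℝ] ℝ => T v) (h1.unique h2)
  simpa using h3

private theorem nu_has_c1b (hG : Gd B J U G) {X : L} (hX : X ∈ U) :
    HasFDerivAt (nu B G) (NN B G X) X :=
  ((hG.nu_c2.contDiffAt (hG.isOpen.mem_nhds hX)).differentiableAt (by norm_num)).hasFDerivAt

private theorem G_eq_c1b (hG : Gd B J U G) {X : L} (hX : X ∈ U) : G X = rr B G X • nu B G X := by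
  unfold nu
  rw [smul_smul, mul_inv_cancel₀ (hG.rr_pos hX).ne', one_smul]

private theorem nn_c1b (hG : Gd B J U G) {X : L} (hX : X ∈ U) : B (nu B G X) (nu B G X) = 1 := by
  have h0 := hG.rr_pos hX
  have h1 : rr B G X ^ 2 = B (G X) (G X) := Real.sq_sqrt (hG.pos X hX).le
  unfold nu
  simp only [map_smul, ContinuousLinearMap.smul_apply, smul_eq_mul, ← h1]
  field_simp

private theorem Nn_c1b (hH : Hf B J) (hG : Gd B J U G) {X : L} (hX : X ∈ U) (v : L) :
    B (NN B G X v) (nu B G X) = 0 := by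
  have h1 := bil_zero_c1b hG.isOpen hX (nu_has_c1b hG hX) (nu_has_c1b hG hX) (fun Y hY => nn_c1b hG hY) v
  rw [hH.symm (nu B G X)] at h1
  linarith

private theorem D_eq_c1b (hG : Gd B J U G) {X : L} (hX : X ∈ U) (v : L) :
    fderiv ℝ G X v = fderiv ℝ (rr B G) X v • nu B G X + rr B G X • NN B G X v := by
  have h1 : HasFDerivAt (rr B G) (fderiv ℝ (rr B G) X) X :=
    ((hG.rr_c2.contDiffAt (hG.isOpen.mem_nhds hX)).differentiableAt (by norm_num)).hasFDerivAt
  have h2 := h1.smul (nu_has_c1b hG hX)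
  have h3 : HasFDerivAt G (rr B G X • NN B G X + (fderiv ℝ (rr B G) X).smulRight (nu B G X)) X := by
    refine h2.congr_of_eventuallyEq ?_
    filter_upwards [hG.isOpen.mem_nhds hX] with Y hY using G_eq_c1b hG hY
  rw [h3.fderiv]
  simp [add_comm]

private theorem drr_gen_c1b (hH : Hf B J) (hG : Gd B J U G) {X : L} (hX : X ∈ U) (v : L) :
    fderiv ℝ (rr B G) X v = fderiv ℝ (rr B G) X (nu B G X) * B (nu B G X) v +
      rr B G X * B (NN B G X (nu B G X)) v := by
  have h1 := hG.sym X hX v (nu B G X)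
  rw [D_eq_c1b hG hX v, D_eq_c1b hG hX (nu B G X)] at h1
  simp only [map_add, map_smul, ContinuousLinearMap.add_apply, ContinuousLinearMap.smul_apply, smul_eq_mul,
    nn_c1b hG hX, Nn_c1b hH hG hX v] at h1
  linarith

private theorem c4_bil {E F G : Type*} [NormedAddCommGroup E] [NormedSpace ℝ E]
    [NormedAddCommGroup F] [NormedSpace ℝ F] [NormedAddCommGroup G] [NormedSpace ℝ G]
    (b : E →L[ℝ] F →L[ℝ] G) {u : ℝ → E} {v : ℝ → F} {du : E} {dv : F} {s : ℝ}
    (hu : HasDerivAt u du s) (hv : HasDerivAt v dv s) :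
    HasDerivAt (fun t => b (u t) (v t)) (b du (v s) + b (u s) dv) s :=
  (b.hasFDerivAt.comp_hasDerivAt s hu).clm_apply hv

private theorem c4_lin {E F : Type*} [NormedAddCommGroup E] [NormedSpace ℝ E]
    [NormedAddCommGroup F] [NormedSpace ℝ F]
    (b : E →L[ℝ] F) {u : ℝ → E} {du : E} {s : ℝ}
    (hu : HasDerivAt u du s) :
    HasDerivAt (fun t => b (u t)) (b du) s :=
  b.hasFDerivAt.comp_hasDerivAt s hu

private theorem c4_n1 (B : L →L[ℝ] L →L[ℝ] ℝ) (lam : ℝ) (p : L)
    {x ν : ℝ → L} {dx dν : L} {s : ℝ}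
    (hx : HasDerivAt x dx s) (hν : HasDerivAt ν dν s) :
    HasDerivAt (fun s => n1 B lam p (x s) (ν s)) (n1 B lam p dx dν) s := by
  unfold n1
  exact (c4_lin (B p) hν).sub ((c4_lin (B p) hx).const_mul lam)

private theorem c4_n2 (B : L →L[ℝ] L →L[ℝ] ℝ) (J : L →L[ℝ] L) (lam : ℝ) (p : L)
    {x ν : ℝ → L} {dx dν : L} {s : ℝ}
    (hx : HasDerivAt x dx s) (hν : HasDerivAt ν dν s) :
    HasDerivAt (fun s => n2 B J lam p (x s) (ν s)) (n2 B J lam p dx dν) s := by
  unfold n2
  exact (c4_lin (B (J p)) hν).sub ((c4_lin (B (J p)) hx).const_mul lam)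

private theorem c4_kp (B : L →L[ℝ] L →L[ℝ] ℝ) (J : L →L[ℝ] L) (p : L)
    {x ν : ℝ → L} {dx dν : L} {s : ℝ}
    (hx : HasDerivAt x dx s) (hν : HasDerivAt ν dν s) :
    HasDerivAt (fun s => kp B J p (x s) (ν s)) (dkp B J p (x s) (ν s) dx dν) s := by
  unfold kp dkp
  exact ((c4_lin (B p) hx).mul (c4_lin (B (J p)) hν)).sub
    ((c4_lin (B (J p)) hx).mul (c4_lin (B p) hν))

private theorem c4_Aa (B : L →L[ℝ] L →L[ℝ] ℝ) (J : L →L[ℝ] L) (lam : ℝ) (p : L)
    {x ν : ℝ → L} {dx dν : L} {s : ℝ}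
    (hx : HasDerivAt x dx s) (hν : HasDerivAt ν dν s) :
    HasDerivAt (fun s => Aa B J lam p (x s) (ν s)) (dAa B J lam p (x s) (ν s) dx dν) s := by
  unfold Aa
  have h1 := (((c4_lin (B p) hx).mul (c4_lin (B p) hν)).add
    ((c4_lin (B (J p)) hx).mul (c4_lin (B (J p)) hν))).const_mul lam
  have h2 := ((c4_lin (B p) hν).pow 2).add ((c4_lin (B (J p)) hν).pow 2)
  refine (h1.sub h2).congr_deriv ?_
  unfold dAa
  simp
  ring

private theorem c4_Wd (B : L →L[ℝ] L →L[ℝ] ℝ) (J : L →L[ℝ] L) (lam : ℝ) (p : L)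
    {x ν : ℝ → L} {dx dν : L} {s : ℝ}
    (hx : HasDerivAt x dx s) (hν : HasDerivAt ν dν s) :
    HasDerivAt (fun s => Wd B J lam p (x s) (ν s)) (dWd B J lam p (x s) (ν s) dx dν) s := by
  have h1 := c4_n1 B lam p hx hν
  have h2 := c4_n2 B J lam p hx hν
  have hA := c4_Aa B J lam p hx hν
  have hx1 := c4_lin (B p) hx
  have hx2 := c4_lin (B (J p)) hx
  have hJx := c4_lin J hx
  unfold Wd
  refine ((((h1.smul_const p).add (h2.smul_const (J p))).add
    (((h1.mul hx1).add (h2.mul hx2)).smul hx)).add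
    (((h2.mul hx1).sub (h1.mul hx2)).smul hJx)).add (hA.smul hν) |>.congr_deriv ?_
  unfold dWd
  simp only [Pi.add_apply, Pi.mul_apply, Pi.sub_apply]
  module

private theorem c4_Tm (B : L →L[ℝ] L →L[ℝ] ℝ) (J : L →L[ℝ] L) (lam : ℝ)
    {x ν : ℝ → L} {S : ℝ → L →L[ℝ] L} {dx dν : L} {dS : L →L[ℝ] L} {s : ℝ}
    (hx : HasDerivAt x dx s) (hν : HasDerivAt ν dν s) (hS : HasDerivAt S dS s) :
    HasDerivAt (fun s => Tm B J lam (x s) (ν s) (S s))
      (dTm B J lam (x s) (ν s) dx dν dS) s := by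
  have hJx := c4_lin J hx
  have hJν := c4_lin J hν
  have hB := c4_lin B hJν
  have h1 := c4_bil (ContinuousLinearMap.smulRightL ℝ L L) hB hJx
  have h2 := c4_bil (ContinuousLinearMap.smulRightL ℝ L L) hB hJν
  have h3 := ((hS.add h1).sub (hasDerivAt_const s (lam • ContinuousLinearMap.id ℝ L))).sub
    (h2.const_smul lam⁻¹)
  have e1 : (fun s => Tm B J lam (x s) (ν s) (S s)) = (fun t => (S t +
      ContinuousLinearMap.smulRightL ℝ L L (B (J (ν t))) (J (x t))) -
      (lam • ContinuousLinearMap.id ℝ L) -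
      lam⁻¹ • ContinuousLinearMap.smulRightL ℝ L L (B (J (ν t))) (J (ν t))) := by
    funext t
    ext v
    simp [Tm]
  rw [e1]
  refine h3.congr_deriv ?_
  ext v
  simp [dTm]
  module

private theorem c4_rh (B : L →L[ℝ] L →L[ℝ] ℝ) (J : L →L[ℝ] L) (lam : ℝ) (p : L)
    {x ν : ℝ → L} {dx dν : L} {s : ℝ}
    (hx : HasDerivAt x dx s) (hν : HasDerivAt ν dν s) :
    HasDerivAt (fun s => rh B J lam p (x s) (ν s)) (drh B J lam p (x s) (ν s) dx dν) s := by
  have h1 := c4_n1 B lam p hx hν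
  have h2 := c4_n2 B J lam p hx hν
  unfold rh
  refine ((h1.pow 2).add (h2.pow 2)).congr_deriv ?_
  unfold drh
  simp
  ring

private theorem c4_bt (B : L →L[ℝ] L →L[ℝ] ℝ) (J : L →L[ℝ] L) (lam : ℝ) (p : L)
    {x ν : ℝ → L} {dx dν : L} {s : ℝ}
    (hx : HasDerivAt x dx s) (hν : HasDerivAt ν dν s) :
    HasDerivAt (fun s => bt B J lam p (x s) (ν s)) (dbt B J lam p (x s) (ν s) dx dν) s := by
  unfold bt dbt
  exact ((c4_rh B J lam p hx hν).sub_const (lam ^ 2)).div_const 2

private theorem c4_Pc (B : L →L[ℝ] L →L[ℝ] ℝ) (J : L →L[ℝ] L) (lam : ℝ) (p : L)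
    {x ν : ℝ → L} {dx dν : L} {s : ℝ}
    (hx : HasDerivAt x dx s) (hν : HasDerivAt ν dν s) :
    HasDerivAt (fun s => Pc B J lam p (x s) (ν s)) (dbt B J lam p (x s) (ν s) dx dν * (lam ^ 2 - 1)) s := by
  unfold Pc
  exact ((c4_bt B J lam p hx hν).mul_const (lam ^ 2 - 1)).const_add (lam ^ 2)

private theorem c4_lc (B : L →L[ℝ] L →L[ℝ] ℝ) (J : L →L[ℝ] L) (lam : ℝ) (p : L)
    {x ν : ℝ → L} {dx dν : L} {s : ℝ}
    (hx : HasDerivAt x dx s) (hν : HasDerivAt ν dν s) :
    HasDerivAt (fun s => lc B J lam p (x s) (ν s)) (dlc B J lam p (x s) (ν s) dx dν) s := by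
  unfold lc dlc
  exact (c4_bt B J lam p hx hν).mul (((c4_Aa B J lam p hx hν).const_mul (lam ^ 2 - 1)).sub
    (c4_rh B J lam p hx hν))

private theorem c4_ph (B : L →L[ℝ] L →L[ℝ] ℝ) (J : L →L[ℝ] L)
    {ν w : ℝ → L} {dν dw : L} {s : ℝ}
    (hν : HasDerivAt ν dν s) (hw : HasDerivAt w dw s) :
    HasDerivAt (fun s => phh B J (ν s) (w s)) (dph B J (ν s) (w s) dν dw) s := by
  unfold phh dph
  refine ((c4_lin J hw).add ((c4_bil B hw (c4_lin J hν)).smul hν)).congr_deriv ?_
  module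

/-- the derivative of `V3` along curves -/
theorem V3_deriv (B : L →L[ℝ] L →L[ℝ] ℝ) (J : L →L[ℝ] L) (lam m : ℝ) (p : L)
    {x ν : ℝ → L} {S : ℝ → L →L[ℝ] L} {dx dν : L} {dS : L →L[ℝ] L} {s : ℝ}
    (hx : HasDerivAt x dx s) (hν : HasDerivAt ν dν s) (hS : HasDerivAt S dS s) :
    HasDerivAt (fun s => V3 B J lam m p (x s) (ν s) (S s))
      (dV3 B J lam m p (x s) (ν s) (S s) dx dν dS) s := by
  have hT := c4_Tm B J lam hx hν hS
  have hW := c4_Wd B J lam p hx hν
  have hk := c4_kp B J p hx hν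
  have hb := c4_bt B J lam p hx hν
  have hP := c4_Pc B J lam p hx hν
  have hl := c4_lc B J lam p hx hν
  have hJν := c4_lin J hν
  have hTW := hT.clm_apply hW
  have hTJ := hT.clm_apply hJν
  have hpT := c4_ph B J hν hTJ
  have hpW := c4_ph B J hν hW
  have hTp := hT.clm_apply hpW
  have hpTp := c4_ph B J hν hTp
  have hBW := c4_bil B hTJ hW
  have hBJ := c4_bil B hTJ hJν
  unfold V3
  refine ((((((hP.const_mul ((m / 2 + 1) * lam ^ 2)).smul hTW).add
    (((hk.const_mul lam).const_mul (lam ^ 2)).smul hTJ)).add (hl.smul hpT)).sub (hP.smul hpTp)).add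
    ((hb.const_mul (lam ^ 2)).smul ((hBW.smul hJν).sub (hBJ.smul hW)))).congr_deriv ?_
  simp only [Pi.sub_apply, Pi.smul_apply']
  unfold dV3
  module

private theorem c5a_B (hH : Hf B J) (u v : L) : B u (J v) = -B (J u) v := by
  have h := hH.inv u (J v)
  rw [hH.jj, map_neg] at h
  rw [← h]

private theorem c5a_n1 (hH : Hf B J) (lam : ℝ) (p x ν : L) :
    n1 B lam p (J x) (J ν) = -n2 B J lam p x ν := by
  unfold n1 n2
  rw [c5a_B hH, c5a_B hH]
  ring

private theorem c5a_n2 (hH : Hf B J) (lam : ℝ) (p x ν : L) :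
    n2 B J lam p (J x) (J ν) = n1 B lam p x ν := by
  unfold n1 n2
  rw [hH.inv, hH.inv]

private theorem c5a_kp (hH : Hf B J) (p x ν : L) : dkp B J p x ν (J x) (J ν) = 0 := by
  unfold dkp
  rw [hH.inv, hH.inv, c5a_B hH, c5a_B hH]
  ring

private theorem c5a_Aa (hH : Hf B J) (lam : ℝ) (p x ν : L) :
    dAa B J lam p x ν (J x) (J ν) = 0 := by
  unfold dAa
  rw [hH.inv, hH.inv, c5a_B hH, c5a_B hH]
  ring

private theorem c5a_Wd (hH : Hf B J) (lam : ℝ) (p x ν : L) :
    dWd B J lam p x ν (J x) (J ν) = J (Wd B J lam p x ν) := by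
  unfold dWd Wd
  rw [c5a_n1 hH, c5a_n2 hH, c5a_Aa hH, hH.inv, c5a_B hH p x]
  simp only [map_add, map_smul, hH.jj]
  module

private theorem c5a_Tm (hH : Hf B J) (lam : ℝ) (x ν : L) (S : L →L[ℝ] L) (w : L) :
    dTm B J lam x ν (J x) (J ν) (J.comp S - S.comp J) w =
      J (Tm B J lam x ν S w) - Tm B J lam x ν S (J w) := by
  unfold dTm Tm
  simp only [ContinuousLinearMap.add_apply, ContinuousLinearMap.sub_apply,
    ContinuousLinearMap.smul_apply, ContinuousLinearMap.smulRight_apply,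
    ContinuousLinearMap.comp_apply, ContinuousLinearMap.id_apply, map_add, map_sub, map_smul, hH.jj,
    hH.inv, map_neg, ContinuousLinearMap.neg_apply]
  module


private theorem c5a_rh (hH : Hf B J) (lam : ℝ) (p x ν : L) :
    drh B J lam p x ν (J x) (J ν) = 0 := by
  unfold drh
  rw [c5a_n1 hH, c5a_n2 hH]
  ring

private theorem c5a_bt (hH : Hf B J) (lam : ℝ) (p x ν : L) :
    dbt B J lam p x ν (J x) (J ν) = 0 := by
  unfold dbt
  rw [c5a_rh hH]
  ring

private theorem c5a_lc (hH : Hf B J) (lam : ℝ) (p x ν : L) :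
    dlc B J lam p x ν (J x) (J ν) = 0 := by
  unfold dlc
  rw [c5a_rh hH, c5a_bt hH, c5a_Aa hH]
  ring

private theorem c5a_ph (hH : Hf B J) (ν w : L) :
    dph B J ν w (J ν) (J w) = J (phh B J ν w) := by
  unfold dph phh
  rw [hH.inv, hH.jj ν, map_neg, map_add, map_smul]
  module

private theorem c5a_ph2 (hH : Hf B J) (ν w y : L) :
    dph B J ν w (J ν) (J w + y) = J (phh B J ν w) + phh B J ν y := by
  unfold dph phh
  simp only [map_add, map_smul, ContinuousLinearMap.add_apply]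
  rw [hH.inv, hH.jj ν, map_neg]
  module

/-- equivariance under the circle -/
theorem dV3_J (hH : Hf B J) (lam m : ℝ) (p x ν : L) (S : L →L[ℝ] L) :
    dV3 B J lam m p x ν S (J x) (J ν) (J.comp S - S.comp J) = J (V3 B J lam m p x ν S) := by
  unfold dV3 V3
  rw [c5a_kp hH, c5a_Wd hH, c5a_Tm hH, c5a_Tm hH, c5a_Tm hH, c5a_bt hH, c5a_lc hH, c5a_ph hH ν (Wd B J lam p x ν)]
  simp only [sub_add_cancel, c5a_ph hH, c5a_B hH, mul_zero, zero_mul, zero_smul, add_neg_cancel, map_add,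
    map_sub, map_smul, hH.jj, map_neg, ContinuousLinearMap.neg_apply, zero_add, add_zero, sub_zero]
  module

private theorem c5b_bil {f g : L → L} (hf : ContDiffOn ℝ 1 f U) (hg : ContDiffOn ℝ 1 g U) :
    ContDiffOn ℝ 1 (fun X => B (f X) (g X)) U :=
  (B.contDiff.comp_contDiffOn hf).clm_apply hg

private theorem c5b_J {f : L → L} (hf : ContDiffOn ℝ 1 f U) : ContDiffOn ℝ 1 (fun X => J (f X)) U :=
  J.contDiff.comp_contDiffOn hf

private theorem c5b_lin (p : L) {f : L → L} (hf : ContDiffOn ℝ 1 f U) :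
    ContDiffOn ℝ 1 (fun X => B p (f X)) U :=
  (B p).contDiff.comp_contDiffOn hf

private theorem c5b_Tm (lam : ℝ) {x ν w : L → L} {S : L → L →L[ℝ] L} (hx : ContDiffOn ℝ 1 x U)
    (hν : ContDiffOn ℝ 1 ν U) (hS : ContDiffOn ℝ 1 S U) (hw : ContDiffOn ℝ 1 w U) :
    ContDiffOn ℝ 1 (fun X => Tm B J lam (x X) (ν X) (S X) (w X)) U := by
  have h1 : ContDiffOn ℝ 1 (fun X => B (J (ν X)) (w X)) U := c5b_bil (c5b_J hν) hw
  have h2 := ((((hS.clm_apply hw).add (h1.smul (c5b_J (J := J) hx))).sub (hw.const_smul lam)).sub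
    ((h1.const_smul lam⁻¹).smul (c5b_J (J := J) hν)))
  refine h2.congr fun X _ => ?_
  simp [Tm, smul_smul]

private theorem c5b_Wd (lam : ℝ) (p : L) {x ν : L → L} (hx : ContDiffOn ℝ 1 x U)
    (hν : ContDiffOn ℝ 1 ν U) : ContDiffOn ℝ 1 (fun X => Wd B J lam p (x X) (ν X)) U := by
  have a1 := c5b_lin (B := B) p hx
  have a2 := c5b_lin (B := B) (J p) hx
  have b1 := c5b_lin (B := B) p hν
  have b2 := c5b_lin (B := B) (J p) hν
  have jx := c5b_J (J := J) hx
  have hn1 : ContDiffOn ℝ 1 (fun X => n1 B lam p (x X) (ν X)) U := b1.sub (contDiffOn_const.mul a1)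
  have hn2 : ContDiffOn ℝ 1 (fun X => n2 B J lam p (x X) (ν X)) U := b2.sub (contDiffOn_const.mul a2)
  have hA : ContDiffOn ℝ 1 (fun X => Aa B J lam p (x X) (ν X)) U :=
    (contDiffOn_const.mul ((a1.mul b1).add (a2.mul b2))).sub ((b1.pow 2).add (b2.pow 2))
  exact ((((hn1.smul contDiffOn_const).add (hn2.smul contDiffOn_const)).add
    (((hn1.mul a1).add (hn2.mul a2)).smul hx)).add (((hn2.mul a1).sub (hn1.mul a2)).smul jx)).add
    (hA.smul hν)

private theorem c5b_ph {f g : L → L} (hf : ContDiffOn ℝ 1 f U) (hg : ContDiffOn ℝ 1 g U) :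
    ContDiffOn ℝ 1 (fun X => phh B J (f X) (g X)) U :=
  (c5b_J (J := J) hg).add ((c5b_bil hg (c5b_J (J := J) hf)).smul hf)

theorem Gd.VV3_c1 (hG : Gd B J U G) (lam m : ℝ) (p : L) : ContDiffOn ℝ 1 (VV3 B J lam m p G) U := by
  have ht : ContDiffOn ℝ 1 (tt B) U := (c5b_bil contDiffOn_id contDiffOn_id).neg
  have htp : ∀ X ∈ U, 0 < tt B X := fun X hX => neg_pos.2 (hG.neg X hX)
  have hst : ContDiffOn ℝ 1 (fun X => √(tt B X)) U := ht.sqrt fun X hX => (htp X hX).ne'
  have hx : ContDiffOn ℝ 1 (xs B) U :=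
    (hst.inv fun X hX => (Real.sqrt_pos.2 (htp X hX)).ne').smul contDiffOn_id
  have hν : ContDiffOn ℝ 1 (nu B G) U := hG.nu_c2.of_le (by norm_num)
  have hr : ContDiffOn ℝ 1 (rr B G) U := hG.rr_c2.of_le (by norm_num)
  have hS : ContDiffOn ℝ 1 (SS B G) U := hst.smul hG.NN_c1
  have hW : ContDiffOn ℝ 1 (fun X => Wd B J lam p (xs B X) (nu B G X)) U := c5b_Wd lam p hx hν
  have hJ := c5b_J (J := J) hν
  have hTJ : ContDiffOn ℝ 1 (fun X => Tm B J lam (xs B X) (nu B G X) (SS B G X) (J (nu B G X))) U :=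
    c5b_Tm lam hx hν hS hJ
  have hTW : ContDiffOn ℝ 1 (fun X => Tm B J lam (xs B X) (nu B G X) (SS B G X)
      (Wd B J lam p (xs B X) (nu B G X))) U := c5b_Tm lam hx hν hS hW
  have hpW : ContDiffOn ℝ 1 (fun X => phh B J (nu B G X) (Wd B J lam p (xs B X) (nu B G X))) U :=
    c5b_ph hν hW
  have hTp : ContDiffOn ℝ 1 (fun X => Tm B J lam (xs B X) (nu B G X) (SS B G X)
      (phh B J (nu B G X) (Wd B J lam p (xs B X) (nu B G X)))) U := c5b_Tm lam hx hν hS hpW
  have hk : ContDiffOn ℝ 1 (fun X => kp B J p (xs B X) (nu B G X)) U :=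
    ((c5b_lin (B := B) p hx).mul (c5b_lin (B := B) (J p) hν)).sub
      ((c5b_lin (B := B) (J p) hx).mul (c5b_lin (B := B) p hν))
  have a1 := c5b_lin (B := B) p hx
  have a2 := c5b_lin (B := B) (J p) hx
  have b1 := c5b_lin (B := B) p hν
  have b2 := c5b_lin (B := B) (J p) hν
  have hn1 : ContDiffOn ℝ 1 (fun X => n1 B lam p (xs B X) (nu B G X)) U :=
    b1.sub (contDiffOn_const.mul a1)
  have hn2 : ContDiffOn ℝ 1 (fun X => n2 B J lam p (xs B X) (nu B G X)) U :=
    b2.sub (contDiffOn_const.mul a2)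
  have hA : ContDiffOn ℝ 1 (fun X => Aa B J lam p (xs B X) (nu B G X)) U :=
    (contDiffOn_const.mul ((a1.mul b1).add (a2.mul b2))).sub ((b1.pow 2).add (b2.pow 2))
  have hrh : ContDiffOn ℝ 1 (fun X => rh B J lam p (xs B X) (nu B G X)) U :=
    (hn1.pow 2).add (hn2.pow 2)
  have hb : ContDiffOn ℝ 1 (fun X => bt B J lam p (xs B X) (nu B G X)) U :=
    (hrh.sub contDiffOn_const).div_const 2
  have hP : ContDiffOn ℝ 1 (fun X => Pc B J lam p (xs B X) (nu B G X)) U :=
    contDiffOn_const.add (hb.mul contDiffOn_const)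
  have hl : ContDiffOn ℝ 1 (fun X => lc B J lam p (xs B X) (nu B G X)) U :=
    hb.mul ((contDiffOn_const.mul hA).sub hrh)
  exact (ht.mul hr).smul ((((((contDiffOn_const.mul hP).smul hTW).add
    ((contDiffOn_const.mul (contDiffOn_const.mul hk)).smul hTJ)).add (hl.smul (c5b_ph hν hTJ))).sub
    (hP.smul (c5b_ph hν hTp))).add ((contDiffOn_const.mul hb).smul
      (((c5b_bil hTJ hW).smul hJ).sub ((c5b_bil hTJ hJ).smul hW))))

theorem ph_hz (hH : Hf B J) {X ν w : L} (hnn : B ν ν = 1) (hxn : B X ν = 0) (hjxn : B (J X) ν = 0)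
    (hw : Hz B J X ν w) : Hz B J X ν (phh B J ν w) := by
  obtain ⟨h1, h2, h3⟩ := hw
  have e1 : B ν X = 0 := by rw [hH.symm]; exact hxn
  have e2 : B ν (J X) = 0 := by rw [hH.symm]; exact hjxn
  refine ⟨?_, ?_, ?_⟩
  · unfold phh
    simp only [map_add, map_smul, ContinuousLinearMap.add_apply, ContinuousLinearMap.smul_apply,
      smul_eq_mul, e1]
    rw [hH.skew, h2]
    ring
  · unfold phh
    simp only [map_add, map_smul, ContinuousLinearMap.add_apply, ContinuousLinearMap.smul_apply,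
      smul_eq_mul, e2]
    rw [hH.inv, h1]
    ring
  · unfold phh
    simp only [map_add, map_smul, ContinuousLinearMap.add_apply, ContinuousLinearMap.smul_apply,
      smul_eq_mul, hnn]
    rw [hH.skew]
    ring

private theorem c5c_lin {X ν u v : L} (hu : Hz B J X ν u) (hv : Hz B J X ν v) (a b : ℝ) :
    Hz B J X ν (a • u + b • v) := by
  obtain ⟨h1, h2, h3⟩ := hu
  obtain ⟨h4, h5, h6⟩ := hv
  refine ⟨?_, ?_, ?_⟩ <;>
    simp only [map_add, map_smul, ContinuousLinearMap.add_apply, ContinuousLinearMap.smul_apply, smul_eq_mul,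
      h1, h2, h3, h4, h5, h6, mul_zero, add_zero]
/-- `V3` is tangential horizontal -/
theorem Gd.VV3_hz (hH : Hf B J) (hG : Gd B J U G) (lam m : ℝ) (p : L) {X : L} (hX : X ∈ U) :
    Hz B J X (G X) (VV3 B J lam m p G X) := by
  have htp : 0 < tt B X := neg_pos.2 (hG.neg X hX)
  have hs : 0 < √(tt B X) := Real.sqrt_pos.2 htp
  have hsq : √(tt B X) * √(tt B X) = tt B X := Real.mul_self_sqrt htp.le
  have hP := hG.pt hH hX
  have hxX : √(tt B X) • xs B X = X := by
    unfold xs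
    rw [smul_smul, mul_inv_cancel₀ hs.ne', one_smul]
  have hxx : B (xs B X) (xs B X) = -1 := by
    have h1 : B X X = - (√(tt B X) * √(tt B X)) := by rw [hsq]; unfold tt; ring
    unfold xs
    simp only [map_smul, ContinuousLinearMap.smul_apply, smul_eq_mul, h1]
    field_simp
  have hQ : Pt B J (xs B X) (nu B G X) (SS B G X) := by
    refine ⟨hP.nn, ?_, ?_, ?_, ?_, ?_, ?_, ?_, ?_⟩
    · unfold xs
      simp only [map_smul, ContinuousLinearMap.smul_apply, smul_eq_mul, hP.xn, mul_zero]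
    · unfold xs
      simp only [map_smul, ContinuousLinearMap.smul_apply, smul_eq_mul, hP.jxn, mul_zero]
    · unfold xs SS
      simp only [map_smul, ContinuousLinearMap.smul_apply, hP.Nx, smul_zero]
    · unfold xs SS
      simp only [map_smul, ContinuousLinearMap.smul_apply, hP.Njx, smul_smul]
      rw [inv_mul_cancel₀ hs.ne', one_smul]
    · intro v
      unfold SS
      simp only [map_smul, ContinuousLinearMap.smul_apply, smul_eq_mul, hP.Nn, mul_zero]
    · intro v
      unfold SS xs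
      simp only [map_smul, ContinuousLinearMap.smul_apply, smul_eq_mul, hP.NX]
      field_simp
    · intro v
      unfold SS xs
      simp only [map_smul, ContinuousLinearMap.smul_apply, smul_eq_mul, hP.NJX]
      field_simp
    · intro v w hv hw
      unfold SS
      simp only [map_smul, ContinuousLinearMap.smul_apply, smul_eq_mul, hP.sy v w hv hw]
  have hW := W_hz hH hQ hxx lam p
  have hJ := hQ.hz_xi hH
  have hTW := T_hz hH hQ hxx lam hW
  have hTJ := T_hz hH hQ hxx lam hJ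
  have hpT := ph_hz hH hQ.nn hQ.xn hQ.jxn hTJ
  have hpW := ph_hz hH hQ.nn hQ.xn hQ.jxn hW
  have hpTp := ph_hz hH hQ.nn hQ.xn hQ.jxn (T_hz hH hQ hxx lam hpW)
  have hV : Hz B J (xs B X) (nu B G X) (V3 B J lam m p (xs B X) (nu B G X) (SS B G X)) := by
    set x := xs B X
    set ν := nu B G X
    set S := SS B G X
    have h1 := c5c_lin (c5c_lin (c5c_lin hTW hTJ ((m / 2 + 1) * lam ^ 2 * Pc B J lam p x ν)
      (lam ^ 2 * (lam * kp B J p x ν))) (c5c_lin hpT hpTp (lc B J lam p x ν) (-Pc B J lam p x ν)) 1 1)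
      (c5c_lin hJ hW (lam ^ 2 * bt B J lam p x ν * B (Tm B J lam x ν S (J ν)) (Wd B J lam p x ν))
        (-(lam ^ 2 * bt B J lam p x ν * B (Tm B J lam x ν S (J ν)) (J ν)))) 1 1
    have h2 : V3 B J lam m p x ν S = (1 : ℝ) • ((1 : ℝ) • (((m / 2 + 1) * lam ^ 2 * Pc B J lam p x ν) •
        Tm B J lam x ν S (Wd B J lam p x ν) + (lam ^ 2 * (lam * kp B J p x ν)) • Tm B J lam x ν S (J ν)) +
        (1 : ℝ) • (lc B J lam p x ν • phh B J ν (Tm B J lam x ν S (J ν)) + (-Pc B J lam p x ν) •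
          phh B J ν (Tm B J lam x ν S (phh B J ν (Wd B J lam p x ν))))) +
        (1 : ℝ) • ((lam ^ 2 * bt B J lam p x ν * B (Tm B J lam x ν S (J ν)) (Wd B J lam p x ν)) • J ν +
          (-(lam ^ 2 * bt B J lam p x ν * B (Tm B J lam x ν S (J ν)) (J ν))) • Wd B J lam p x ν) := by
      unfold V3
      module
    rw [h2]
    exact h1
  obtain ⟨h1, h2, h3⟩ := hV
  have hGX : G X = rr B G X • nu B G X := by
    unfold nu
    rw [smul_smul, mul_inv_cancel₀ (hG.rr_pos hX).ne', one_smul]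
  have hJX : √(tt B X) • J (xs B X) = J X := by
    rw [← map_smul, hxX]
  refine ⟨?_, ?_, ?_⟩
  · have e1 : B (VV3 B J lam m p G X) X = (tt B X * rr B G X) * (√(tt B X) *
        B (V3 B J lam m p (xs B X) (nu B G X) (SS B G X)) (xs B X)) := by
      conv_lhs => rw [show B (VV3 B J lam m p G X) X = B (VV3 B J lam m p G X) (√(tt B X) • xs B X) by rw [hxX]]
      unfold VV3
      simp only [map_smul, ContinuousLinearMap.smul_apply, smul_eq_mul]
      ring
    rw [e1, h1, mul_zero, mul_zero]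
  · have e1 : B (VV3 B J lam m p G X) (J X) = (tt B X * rr B G X) * (√(tt B X) *
        B (V3 B J lam m p (xs B X) (nu B G X) (SS B G X)) (J (xs B X))) := by
      conv_lhs => rw [show B (VV3 B J lam m p G X) (J X) =
        B (VV3 B J lam m p G X) (√(tt B X) • J (xs B X)) by rw [hJX]]
      unfold VV3
      simp only [map_smul, ContinuousLinearMap.smul_apply, smul_eq_mul]
      ring
    rw [e1, h2, mul_zero, mul_zero]
  · have e1 : B (VV3 B J lam m p G X) (G X) = (tt B X * rr B G X) * (rr B G X *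
        B (V3 B J lam m p (xs B X) (nu B G X) (SS B G X)) (nu B G X)) := by
      conv_lhs => rw [show B (VV3 B J lam m p G X) (G X) =
        B (VV3 B J lam m p G X) (rr B G X • nu B G X) by rw [← hGX]]
      unfold VV3
      simp only [map_smul, ContinuousLinearMap.smul_apply, smul_eq_mul]
      ring
    rw [e1, h3, mul_zero, mul_zero]

private theorem c5d_curve {F : Type*} [NormedAddCommGroup F] [NormedSpace ℝ F] {f : L → F} {X : L}
    (hf : DifferentiableAt ℝ f X) (u : L) : HasDerivAt (fun s : ℝ => f (X + s • u)) (fderiv ℝ f X u) 0 := by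
  have h1 : HasDerivAt (fun s : ℝ => X + s • u) u 0 := by
    have h2 := ((hasDerivAt_id (0 : ℝ)).smul_const u).const_add X
    rw [one_smul] at h2
    exact h2
  have h3 : HasFDerivAt f (fderiv ℝ f X) (X + (0 : ℝ) • u) := by
    rw [zero_smul, add_zero]
    exact hf.hasFDerivAt
  exact h3.comp_hasDerivAt (0 : ℝ) h1

/-- the derivative of `VV3` in the direction `u` from the derivatives of the ingredients -/
private theorem c5d_gen (hG : Gd B J U G) (lam m : ℝ) (p : L) {X : L} (hX : X ∈ U) (u : L) {tt' : ℝ}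
    {dx dν : L} {dS : L →L[ℝ] L} (htt : HasDerivAt (fun s : ℝ => tt B (X + s • u)) tt' 0)
    (hxs : HasDerivAt (fun s : ℝ => xs B (X + s • u)) dx 0)
    (hnu : NN B G X u = dν)
    (hSS : HasDerivAt (fun s : ℝ => SS B G (X + s • u)) dS 0) :
    fderiv ℝ (VV3 B J lam m p G) X u =
      (tt' * rr B G X + tt B X * fderiv ℝ (rr B G) X u) • V3 B J lam m p (xs B X) (nu B G X) (SS B G X) +
      (tt B X * rr B G X) • dV3 B J lam m p (xs B X) (nu B G X) (SS B G X) dx dν dS := by
  have hU : U ∈ nhds X := hG.isOpen.mem_nhds hX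
  have h0 : X + (0 : ℝ) • u = X := by rw [zero_smul, add_zero]
  have hν : HasDerivAt (fun s : ℝ => nu B G (X + s • u)) dν 0 := by
    rw [← hnu]
    exact c5d_curve ((hG.nu_c2.contDiffAt hU).differentiableAt two_ne_zero) u
  have hrr : HasDerivAt (fun s : ℝ => rr B G (X + s • u)) (fderiv ℝ (rr B G) X u) 0 :=
    c5d_curve ((hG.rr_c2.contDiffAt hU).differentiableAt two_ne_zero) u
  have hV3 := V3_deriv B J lam m p hxs hν hSS
  have hc := htt.mul hrr
  have h2 := hc.smul hV3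
  have h3 : HasDerivAt (fun s : ℝ => VV3 B J lam m p G (X + s • u)) (fderiv ℝ (VV3 B J lam m p G) X u) 0 :=
    c5d_curve (((hG.VV3_c1 lam m p).contDiffAt hU).differentiableAt one_ne_zero) u
  have h4 := h3.unique h2
  rw [h4]
  simp only [h0, Pi.mul_apply]
  rw [add_comm]

private theorem c5d_tt (hG : Gd B J U G) {X : L} (hX : X ∈ U) : 0 < tt B X := neg_pos.2 (hG.neg X hX)

private theorem c5d_dV3 (lam m : ℝ) (p x ν : L) (S : L →L[ℝ] L) :
    dV3 B J lam m p x ν S 0 0 0 = 0 := by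
  have h1 := V3_deriv B J lam m p (hasDerivAt_const (0 : ℝ) x) (hasDerivAt_const (0 : ℝ) ν)
    (hasDerivAt_const (0 : ℝ) S)
  exact h1.unique (hasDerivAt_const (0 : ℝ) _)

/-- piece `JE-C5` (d): along `X` the functions `xs`, `nu`, `SS` are constant to first order (`N2 X v = N2 v X = - N v`),
`tt` has degree `2`, `rr` degree `-1`. -/
theorem Gd.DVV3_X (hH : Hf B J) (hG : Gd B J U G) (lam m : ℝ) (p : L) {X : L} (hX : X ∈ U) :
    fderiv ℝ (VV3 B J lam m p G) X X = VV3 B J lam m p G X := by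
  have hU : U ∈ nhds X := hG.isOpen.mem_nhds hX
  have hP := hG.pt hH hX
  have ht0 := c5d_tt hG hX
  have hs0 : √(tt B X) ≠ 0 := (Real.sqrt_pos.2 ht0).ne'
  have h0 : X + (0 : ℝ) • X = X := by rw [zero_smul, add_zero]
  have htt : HasDerivAt (fun s : ℝ => tt B (X + s • X)) (2 * tt B X) 0 := by
    have e : (fun s : ℝ => tt B (X + s • X)) = fun s : ℝ => (1 + s) ^ 2 * tt B X := by
      funext s
      unfold tt
      simp only [map_add, map_smul, ContinuousLinearMap.add_apply, ContinuousLinearMap.smul_apply, smul_eq_mul]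
      ring
    rw [e]
    have h1 := (((hasDerivAt_id (0 : ℝ)).const_add 1).pow 2).mul_const (tt B X)
    simpa using h1
  have hsq : HasDerivAt (fun s : ℝ => √(tt B (X + s • X))) (√(tt B X)) 0 := by
    have h1 := htt.sqrt (by rw [h0]; exact ht0.ne')
    refine h1.congr_deriv ?_
    rw [h0]
    have h2 := Real.mul_self_sqrt ht0.le
    field_simp
    rw [sq, h2]
  have hline : HasDerivAt (fun s : ℝ => X + s • X) X 0 := by
    have h2 := ((hasDerivAt_id (0 : ℝ)).smul_const X).const_add X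
    rw [one_smul] at h2
    exact h2
  have hxs : HasDerivAt (fun s : ℝ => xs B (X + s • X)) 0 0 := by
    have h1 := (hsq.inv (by rw [h0]; exact hs0)).smul hline
    refine h1.congr_deriv ?_
    simp only [Pi.inv_apply, h0]
    rw [← add_smul]
    have : (√(tt B X))⁻¹ + -√(tt B X) / √(tt B X) ^ 2 = 0 := by
      field_simp
      ring
    rw [this, zero_smul]
  have hSS : HasDerivAt (fun s : ℝ => SS B G (X + s • X)) 0 0 := by
    have hNN : HasDerivAt (fun s : ℝ => NN B G (X + s • X)) (fderiv ℝ (NN B G) X X) 0 :=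
      c5d_curve ((hG.NN_c1.contDiffAt hU).differentiableAt one_ne_zero) X
    have h1 := hsq.smul hNN
    have h2 : fderiv ℝ (NN B G) X X = - NN B G X := by
      ext v
      rw [hG.N2_symm hX X v, hG.N2_X hH hX v]
      rfl
    refine h1.congr_deriv ?_
    rw [h2, h0, smul_neg, neg_add_cancel]
  have hr : fderiv ℝ (rr B G) X X = - rr B G X := by
    rw [drr_gen_c1b hH hG hX X, hP.NX, hP.nn, hH.symm (nu B G X) X, hP.xn]
    ring
  rw [c5d_gen hG lam m p hX X htt hxs hP.Nx hSS, c5d_dV3, hr]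
  unfold VV3
  rw [smul_zero, add_zero]
  congr 1
  ring

/-- piece `JE-C5` (e): along `J X` the derivatives of `xs`, `nu`, `SS` are `J x`, `J ν`, `J S - S J`
(`N2 (J X) v = N2 v (J X) = J (N v) - N (J v)`), those of `tt` and `rr` are zero; `dV3_J`. -/
theorem Gd.DVV3_JX (hH : Hf B J) (hG : Gd B J U G) (lam m : ℝ) (p : L) {X : L} (hX : X ∈ U) :
    fderiv ℝ (VV3 B J lam m p G) X (J X) = J (VV3 B J lam m p G X) := by
  have hU : U ∈ nhds X := hG.isOpen.mem_nhds hX
  have hP := hG.pt hH hX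
  have ht0 := c5d_tt hG hX
  have hs0 : √(tt B X) ≠ 0 := (Real.sqrt_pos.2 ht0).ne'
  have h0 : X + (0 : ℝ) • J X = X := by rw [zero_smul, add_zero]
  have hJX1 : B (J X) X = 0 := hH.self0 X
  have hJX2 : B X (J X) = 0 := by rw [hH.symm]; exact hJX1
  have htt : HasDerivAt (fun s : ℝ => tt B (X + s • J X)) 0 0 := by
    have e : (fun s : ℝ => tt B (X + s • J X)) = fun s : ℝ => (1 + s ^ 2) * tt B X := by
      funext s
      unfold tt
      simp only [map_add, map_smul, ContinuousLinearMap.add_apply, ContinuousLinearMap.smul_apply, smul_eq_mul,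
        hJX1, hJX2, hH.inv]
      ring
    rw [e]
    have h1 := (((hasDerivAt_id (0 : ℝ)).pow 2).const_add 1).mul_const (tt B X)
    simpa using h1
  have hsq : HasDerivAt (fun s : ℝ => √(tt B (X + s • J X))) 0 0 := by
    have h1 := htt.sqrt (by rw [h0]; exact ht0.ne')
    rw [zero_div] at h1
    exact h1
  have hline : HasDerivAt (fun s : ℝ => X + s • J X) (J X) 0 := by
    have h2 := ((hasDerivAt_id (0 : ℝ)).smul_const (J X)).const_add X
    rw [one_smul] at h2
    exact h2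
  have hxs : HasDerivAt (fun s : ℝ => xs B (X + s • J X)) (J (xs B X)) 0 := by
    have h1 := (hsq.inv (by rw [h0]; exact hs0)).smul hline
    refine h1.congr_deriv ?_
    unfold xs
    simp only [Pi.inv_apply, h0]
    rw [neg_zero, zero_div, zero_smul, add_zero, map_smul]
  have hSS : HasDerivAt (fun s : ℝ => SS B G (X + s • J X))
      (J.comp (SS B G X) - (SS B G X).comp J) 0 := by
    have hNN : HasDerivAt (fun s : ℝ => NN B G (X + s • J X)) (fderiv ℝ (NN B G) X (J X)) 0 :=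
      c5d_curve ((hG.NN_c1.contDiffAt hU).differentiableAt one_ne_zero) (J X)
    have h1 := hsq.smul hNN
    refine h1.congr_deriv ?_
    rw [h0, zero_smul, add_zero]
    ext v
    unfold SS
    simp only [ContinuousLinearMap.smul_apply, ContinuousLinearMap.sub_apply, ContinuousLinearMap.comp_apply,
      map_smul]
    rw [hG.N2_symm hX (J X) v, hG.N2_JX hH hX v, smul_sub]
  have hr : fderiv ℝ (rr B G) X (J X) = 0 := by
    have e1 : B (nu B G X) (J X) = 0 := by rw [hH.symm]; exact hP.jxn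
    have e2 : B (nu B G X) (J (nu B G X)) = 0 := by rw [hH.symm]; exact hH.self0 _
    rw [drr_gen_c1b hH hG hX (J X), hP.NJX, e1, e2]
    ring
  rw [c5d_gen hG lam m p hX (J X) htt hxs hP.Njx hSS, dV3_J hH, hr]
  unfold VV3
  rw [zero_mul, mul_zero, add_zero, zero_smul, zero_add, map_smul]

private lemma JE_curve {F : Type*} [NormedAddCommGroup F] [NormedSpace ℝ F] {f : L → F} {X : L}
    (hf : DifferentiableAt ℝ f X) (u : L) : HasDerivAt (fun s : ℝ => f (X + s • u)) (fderiv ℝ f X u) 0 := by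
  have h1 : HasDerivAt (fun s : ℝ => X + s • u) u 0 := by
    have h2 := ((hasDerivAt_id (0 : ℝ)).smul_const u).const_add X
    rw [one_smul] at h2
    exact h2
  have h3 : HasFDerivAt f (fderiv ℝ f X) (X + (0 : ℝ) • u) := by
    rw [zero_smul, add_zero]
    exact hf.hasFDerivAt
  exact h3.comp_hasDerivAt (0 : ℝ) h1

private lemma JE_VV3_at {B : L →L[ℝ] L →L[ℝ] ℝ} {J : L →L[ℝ] L} {G : L → L} (lam m : ℝ) (p : L) {X : L}
    (hxx : B X X = -1) : VV3 B J lam m p G X = rr B G X • V3 B J lam m p X (nu B G X) (NN B G X) := by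
  have h1 : tt B X = 1 := by
    unfold tt
    rw [hxx, neg_neg]
  unfold VV3 xs SS
  rw [h1, Real.sqrt_one, inv_one, one_smul, one_smul, one_mul]

/-- piece `JE-C6` (a): at a point with `B X X = -1` in a tangential horizontal direction -/
theorem Gd.DVV3_hz (hH : Hf B J) (hG : Gd B J U G) (lam m : ℝ) (p : L) {X : L} (hX : X ∈ U)
    (hxx : B X X = -1) {u : L} (hu : Hz B J X (nu B G X) u) :
    fderiv ℝ (VV3 B J lam m p G) X u =
      (rr B G X * B (NN B G X (nu B G X)) u) • V3 B J lam m p X (nu B G X) (NN B G X) +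
      rr B G X • dV3 B J lam m p X (nu B G X) (NN B G X) u (NN B G X u)
        (fderiv ℝ (NN B G) X u) := by
  have hU : U ∈ nhds X := hG.isOpen.mem_nhds hX
  have htt1 : tt B X = 1 := by
    unfold tt
    rw [hxx, neg_neg]
  have hXu : B X u = 0 := by rw [hH.symm]; exact hu.1
  -- the derivatives along the line
  have htt : HasDerivAt (fun s : ℝ => tt B (X + s • u)) 0 0 := by
    have e : (fun s : ℝ => tt B (X + s • u)) = fun s : ℝ => 1 - s ^ 2 * B u u := by
      funext s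
      unfold tt
      simp only [map_add, map_smul, add_apply, smul_apply, smul_eq_mul, hxx, hu.1, hXu]
      ring
    rw [e]
    have h1 := (((hasDerivAt_id (0 : ℝ)).pow 2).mul_const (B u u)).const_sub 1
    simpa using h1
  have h0 : X + (0 : ℝ) • u = X := by rw [zero_smul, add_zero]
  have hsq : HasDerivAt (fun s : ℝ => √(tt B (X + s • u))) 0 0 := by
    have h1 := htt.sqrt (by rw [h0, htt1]; norm_num)
    rw [zero_div] at h1
    exact h1
  have hinv : HasDerivAt (fun s : ℝ => (√(tt B (X + s • u)))⁻¹) 0 0 := by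
    have h1 := hsq.inv (by rw [h0, htt1, Real.sqrt_one]; norm_num)
    rw [neg_zero, zero_div] at h1
    exact h1
  have hline : HasDerivAt (fun s : ℝ => X + s • u) u 0 := by
    have h2 := ((hasDerivAt_id (0 : ℝ)).smul_const u).const_add X
    rw [one_smul] at h2
    exact h2
  have hxs : HasDerivAt (fun s : ℝ => xs B (X + s • u)) u 0 := by
    have h1 := hinv.smul hline
    rw [h0, htt1, Real.sqrt_one, inv_one, one_smul, zero_smul, add_zero] at h1
    exact h1
  have hnu : HasDerivAt (fun s : ℝ => nu B G (X + s • u)) (NN B G X u) 0 :=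
    JE_curve ((hG.nu_c2.contDiffAt hU).differentiableAt two_ne_zero) u
  have hrr : HasDerivAt (fun s : ℝ => rr B G (X + s • u)) (rr B G X * B (NN B G X (nu B G X)) u) 0 := by
    have h1 := JE_curve ((hG.rr_c2.contDiffAt hU).differentiableAt two_ne_zero) u
    rw [hG.drr_hz hH hX hu.2.2] at h1
    exact h1
  have hNN : HasDerivAt (fun s : ℝ => NN B G (X + s • u)) (fderiv ℝ (NN B G) X u) 0 :=
    JE_curve ((hG.NN_c1.contDiffAt hU).differentiableAt one_ne_zero) u
  have hSS : HasDerivAt (fun s : ℝ => SS B G (X + s • u)) (fderiv ℝ (NN B G) X u) 0 := by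
    have h1 := hsq.smul hNN
    rw [h0, htt1, Real.sqrt_one, one_smul, zero_smul, add_zero] at h1
    exact h1
  have hV3 := V3_deriv B J lam m p hxs hnu hSS
  have hxs0 : xs B (X + (0 : ℝ) • u) = X := by
    rw [h0]
    unfold xs
    rw [htt1, Real.sqrt_one, inv_one, one_smul]
  have hSS0 : SS B G (X + (0 : ℝ) • u) = NN B G X := by
    rw [h0]
    unfold SS
    rw [htt1, Real.sqrt_one, one_smul]
  have hnu0 : nu B G (X + (0 : ℝ) • u) = nu B G X := by rw [h0]
  rw [hxs0, hSS0, hnu0] at hV3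
  have hc := htt.mul hrr
  have h2 := hc.smul hV3
  have h3 : HasDerivAt (fun s : ℝ => VV3 B J lam m p G (X + s • u)) (fderiv ℝ (VV3 B J lam m p G) X u) 0 :=
    JE_curve (((hG.VV3_c1 lam m p).contDiffAt hU).differentiableAt one_ne_zero) u
  have h4 := h3.unique h2
  rw [h4]
  rw [h0] at hxs0 hSS0
  simp only [h0, hxs0, hSS0, htt1, Pi.mul_apply, zero_mul, one_mul, zero_add]
  rw [add_comm]

/-- piece `JE-C6` (b): the trace: `Fr.trace`; `B (DVV X) X = B VV3 X = 0`, `B (DVV (J X)) (J X) = B (J VV3) (J X) = 0`,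
`B (DVV ν) ν = - B VV3 (N ν)` (differentiate `B VV3 ν = 0`), and `∑ B (N ν) (e i) B V3 (e i) = B (N ν) V3` (`Fr.parseval`). -/
theorem Gd.trace_VV3 [FiniteDimensional ℝ L] {κ : Type*} [Fintype κ] [DecidableEq κ]
    {e : Option κ → L} (hH : Hf B J) (hG : Gd B J U G) (lam m : ℝ) (p : L) {X : L} (hX : X ∈ U)
    (hxx : B X X = -1) (he : Fr B J X (nu B G X) e) :
    LinearMap.trace ℝ L (fderiv ℝ (VV3 B J lam m p G) X : L →ₗ[ℝ] L) =
      rr B G X * ∑ i, B (dV3 B J lam m p X (nu B G X) (NN B G X) (e i) (NN B G X (e i))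
        (fderiv ℝ (NN B G) X (e i))) (e i) := by
  have hU : U ∈ nhds X := hG.isOpen.mem_nhds hX
  have hHz := hG.VV3_hz hH lam m p hX
  have hV := JE_VV3_at (J := J) (G := G) lam m p hxx
  obtain ⟨M, hM⟩ : ∃ M, M = fderiv ℝ (VV3 B J lam m p G) X := ⟨_, rfl⟩
  obtain ⟨W, hW⟩ : ∃ W, W = VV3 B J lam m p G X := ⟨_, rfl⟩
  have hWν : B W (nu B G X) = 0 := by
    unfold nu
    rw [map_smul, hW, hHz.2.2, smul_zero]
  have hWz : Hz B J X (nu B G X) W := ⟨by rw [hW]; exact hHz.1, by rw [hW]; exact hHz.2.1, hWν⟩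
  have hMX : M X = W := by rw [hM, hW]; exact hG.DVV3_X hH lam m p hX
  have hMJ : M (J X) = J W := by rw [hM, hW]; exact hG.DVV3_JX hH lam m p hX
  have hMν : B (M (nu B G X)) (nu B G X) = - B W (NN B G X (nu B G X)) := by
    have d1 : DifferentiableAt ℝ (VV3 B J lam m p G) X :=
      ((hG.VV3_c1 lam m p).contDiffAt hU).differentiableAt one_ne_zero
    have d2 : DifferentiableAt ℝ (nu B G) X := (hG.nu_c2.contDiffAt hU).differentiableAt two_ne_zero
    have h1 : HasDerivAt (fun s : ℝ => VV3 B J lam m p G (X + s • nu B G X)) (M (nu B G X)) 0 := by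
      rw [hM]
      exact JE_curve d1 _
    have h2 : HasDerivAt (fun s : ℝ => nu B G (X + s • nu B G X)) (NN B G X (nu B G X)) 0 := JE_curve d2 _
    have h0 : X + (0 : ℝ) • nu B G X = X := by rw [zero_smul, add_zero]
    have h3 : HasDerivAt (fun s : ℝ => B (VV3 B J lam m p G (X + s • nu B G X)))
        (B (M (nu B G X))) 0 := B.hasFDerivAt.comp_hasDerivAt (0 : ℝ) h1
    have h4 := h3.clm_apply h2
    rw [h0, ← hW] at h4
    have h5 : (fun s : ℝ => B (VV3 B J lam m p G (X + s • nu B G X)) (nu B G (X + s • nu B G X))) =ᶠ[nhds 0]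
        fun _ => (0 : ℝ) := by
      have hc : Filter.Tendsto (fun s : ℝ => X + s • nu B G X) (nhds 0) (nhds X) := by
        have h6 : Continuous fun s : ℝ => X + s • nu B G X :=
          continuous_const.add (continuous_id.smul continuous_const)
        have h7 := h6.tendsto 0
        rw [h0] at h7
        exact h7
      filter_upwards [hc hU] with s hs
      have h8 := (hG.VV3_hz hH lam m p (show X + s • nu B G X ∈ U from hs)).2.2
      unfold nu at h8 ⊢
      rw [map_smul, h8, smul_zero]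
    have h6 : HasDerivAt (fun s : ℝ => B (VV3 B J lam m p G (X + s • nu B G X)) (nu B G (X + s • nu B G X)))
        0 0 := (hasDerivAt_const (0 : ℝ) (0 : ℝ)).congr_of_eventuallyEq h5
    have h7 := h4.unique h6
    linarith
  rw [← hM, Fr.trace hH he M, hMX, hMJ, hMν, hWz.1, hH.inv, hWz.1]
  have hpar := he.parseval hH hWz (NN B G X (nu B G X))
  have hei : ∀ i, B (M (e i)) (e i) = B W (e i) * B (NN B G X (nu B G X)) (e i) +
      rr B G X * B (dV3 B J lam m p X (nu B G X) (NN B G X) (e i) (NN B G X (e i))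
        (fderiv ℝ (NN B G) X (e i))) (e i) := by
    intro i
    rw [hM, hG.DVV3_hz hH lam m p hX hxx (he.hz i), hW, hV]
    simp only [map_add, map_smul, add_apply, smul_apply, smul_eq_mul]
    ring
  rw [Finset.sum_congr rfl fun i _ => hei i, Finset.sum_add_distrib, hpar, Finset.mul_sum]
  ring

end Pool.Agent.Helper77.JE
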