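import Pool.Agent.Helper65.HB.Sc3

/-! # HB: positivity of the second quadratic form -/

set_option autoImplicit false
set_option linter.unusedSectionVars false
set_option linter.unusedVariables false

namespace Pool.Agent.Helper77.JE

/-- all scalar facts at a point of the region `|z - ζ| ≤ 1`, `0 < A` -/
theorem sc_all {lam z1 z2 s1 s2 Θ β P F A ρ q : ℝ} (hlam : 1 < lam) (h0 : 0 ≤ Θ)
    (hz : z1 ^ 2 + z2 ^ 2 = 1 + (s1 ^ 2 + s2 ^ 2) + Θ) (hh : (z1 - s1) ^ 2 + (z2 - s2) ^ 2 ≤ 1)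
    (hA0 : 0 < A)
    (hA : A = lam * (z1 * s1 + z2 * s2) - (s1 ^ 2 + s2 ^ 2))
    (hρ : ρ = (s1 - lam * z1) ^ 2 + (s2 - lam * z2) ^ 2) (hq : q = s1 ^ 2 + s2 ^ 2)
    (hβ : β = (ρ - lam ^ 2) / 2) (hP : P = lam ^ 2 + β * (lam ^ 2 - 1))
    (hF : F = A + β * ρ / lam ^ 2) :
    0 < P ∧ -(1 / 2) ≤ β ∧ ∃ M W K Ep b' : ℝ, 0 ≤ b' ∧ -b' ≤ β ∧
      M = 2 * (2 * P * A - F) - 2 / 3 * Θ ∧ Ep = 2 * P * A + F ∧
      K = Ep + β * A / lam ^ 2 + 1 / 2 * q * (1 + P) ∧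
      W ≤ 4 * P * A + F + β * A / lam ^ 2 - P * Θ - (1 / 2 + b') * Θ ∧
      0 < M ∧ 0 < W ∧ 0 < K ∧ 0 < Ep ∧ (β * (4 - 5 / lam ^ 2)) ^ 2 * ρ * Θ ≤ 1 / 4 * (M * W) ∧
      (β * (2 - 3 / lam ^ 2)) ^ 2 * ρ * Θ ≤ 1 / 10 * (Ep * W) ∧
      (2 * β + ρ) ^ 2 * Θ ^ 2 ≤ 2 * (Ep * K) ∧ ρ ^ 2 * Θ ^ 2 ≤ 23 / 10 * (M * K) ∧
      (β * ((lam ^ 2 - 1) / lam ^ 2)) ^ 2 * ρ * Θ ≤ 1 / 20 * (W * K) := by
  have hl0 : 0 < lam := by linarith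
  have hl1 : 1 < lam ^ 2 := by nlinarith
  have hq0 : 0 ≤ q := by rw [hq]; positivity
  have hρ0 : 0 ≤ ρ := by rw [hρ]; positivity
  -- the identities
  have i2 : A ^ 2 ≤ ρ * q := by
    have e1 : A = -(s1 * (s1 - lam * z1) + s2 * (s2 - lam * z2)) := by rw [hA]; ring
    rw [e1, hρ, hq]
    nlinarith [sq_nonneg (s1 * (s2 - lam * z2) - s2 * (s1 - lam * z1))]
  have i3 : 2 * A + ρ - lam ^ 2 = (lam ^ 2 - 1) * q + lam ^ 2 * Θ := by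
    rw [hA, hρ, hq]
    linear_combination lam ^ 2 * hz
  have i4 : ρ - 2 * (lam - 1) * A + (lam - 1) ^ 2 * q ≤ lam ^ 2 := by
    have e1 : ρ - 2 * (lam - 1) * A + (lam - 1) ^ 2 * q =
        lam ^ 2 * ((z1 - s1) ^ 2 + (z2 - s2) ^ 2) := by
      rw [hA, hρ, hq]
      ring
    rw [e1]
    nlinarith
  have i5 : 0 ≤ ρ - 2 * (lam ^ 2 - 1) * A + (lam ^ 2 - 1) ^ 2 * q := by
    have e1 : ρ - 2 * (lam ^ 2 - 1) * A + (lam ^ 2 - 1) ^ 2 * q =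
        (s1 - lam * z1 + (lam ^ 2 - 1) * s1) ^ 2 + (s2 - lam * z2 + (lam ^ 2 - 1) * s2) ^ 2 := by
      rw [hA, hρ, hq]
      ring
    rw [e1]
    positivity
  have hβl : -(1 / 2) ≤ β := by
    have e1 : lam ^ 2 * (ρ - (lam ^ 2 - 1) - (lam ^ 2 - 1) * Θ) =
        ρ - 2 * (lam ^ 2 - 1) * A + (lam ^ 2 - 1) ^ 2 * q := by
      linear_combination (lam ^ 2 - 1) * i3
    rw [← e1] at i5
    have e2 := nonneg_of_mul_nonneg_right i5 (by positivity : (0 : ℝ) < lam ^ 2)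
    have e3 : 0 ≤ (lam ^ 2 - 1) * Θ := mul_nonneg (by linarith) h0
    rw [hβ]
    linarith
  have hP0 : 0 < P := by
    have e1 := mul_le_mul_of_nonneg_right hβl (by linarith : (0 : ℝ) ≤ lam ^ 2 - 1)
    rw [hP]
    linarith
  refine ⟨hP0, hβl, ?_⟩
  rcases le_or_gt 0 β with hb | hb
  · -- first case
    have hρl : lam ^ 2 ≤ ρ := by linarith
    obtain ⟨s, hs⟩ : ∃ s, s = Real.sqrt ρ := ⟨_, rfl⟩
    have hs2 : s ^ 2 = ρ := by rw [hs]; exact Real.sq_sqrt hρ0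
    have hs0 : 0 < s := by rw [hs]; exact Real.sqrt_pos.2 (by linarith [sq_nonneg lam])
    have hsl : lam ≤ s := by
      by_contra hc
      have : s ^ 2 < lam ^ 2 := by nlinarith
      linarith
    obtain ⟨g, hg⟩ : ∃ g, g = A / s := ⟨_, rfl⟩
    have hsg : s * g = A := by rw [hg]; field_simp
    have hg0 : 0 < g := by rw [hg]; positivity
    have hg2 : g ^ 2 ≤ q := by
      have e1 : s ^ 2 * g ^ 2 ≤ s ^ 2 * q := by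
        have : s ^ 2 * g ^ 2 = A ^ 2 := by rw [← hsg]; ring
        rw [this, hs2]
        exact i2
      exact le_of_mul_le_mul_left e1 (by positivity)
    have hsL : s - lam ≤ (lam - 1) * g := by
      by_contra hc
      have hc' : lam < s - (lam - 1) * g := by linarith
      have e1 : lam ^ 2 < (s - (lam - 1) * g) ^ 2 := by nlinarith
      have e2 : (s - (lam - 1) * g) ^ 2 ≤ ρ - 2 * (lam - 1) * A + (lam - 1) ^ 2 * q := by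
        have e3 : (s - (lam - 1) * g) ^ 2 = ρ - 2 * (lam - 1) * A + (lam - 1) ^ 2 * g ^ 2 := by
          rw [← hs2, ← hsg]
          ring
        rw [e3]
        have := mul_le_mul_of_nonneg_left hg2 (sq_nonneg (lam - 1))
        linarith
      linarith
    have hΘ : Θ ≤ 2 * g := by
      have e1 : (lam ^ 2 - 1) * g ^ 2 ≤ (lam ^ 2 - 1) * q :=
        mul_le_mul_of_nonneg_left hg2 (by linarith)
      have e2 : s ≤ lam + (lam - 1) * g := by linarith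
      have e3 : s ^ 2 ≤ (lam + (lam - 1) * g) ^ 2 := pow_le_pow_left₀ hs0.le e2 2
      have e4 : s * g ≤ (lam + (lam - 1) * g) * g := mul_le_mul_of_nonneg_right e2 hg0.le
      have e5 : lam ^ 2 * Θ ≤ lam ^ 2 * (2 * g) := by
        have e6 : lam ^ 2 * Θ = 2 * (s * g) + s ^ 2 - lam ^ 2 - (lam ^ 2 - 1) * q := by
          rw [hs2, hsg]
          linarith
        have e7 : 2 * ((lam + (lam - 1) * g) * g) + (lam + (lam - 1) * g) ^ 2 - lam ^ 2 -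
            (lam ^ 2 - 1) * g ^ 2 = lam ^ 2 * (2 * g) := by ring
        linarith
      exact le_of_mul_le_mul_left e5 (by positivity)
    have hF' : F = s * g + β * s ^ 2 / lam ^ 2 := by rw [hF, hsg, hs2]
    obtain ⟨c1, c2, c3, c4, c5, c6, c7, c8, c9⟩ := sc_case1 (lam := lam) (s := s) (g := g) (q := q)
      (Θ := Θ) (β := β) (P := P) (F := F) hlam hsl hg0 hsL hg2 h0 hΘ (by rw [hβ, hs2]) hP hF' rfl
      rfl rfl rfl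
    rw [hs2] at c5 c6 c7 c8 c9
    rw [hsg] at c1 c2 c3 c4 c5 c6 c7 c8 c9
    refine ⟨_, _, _, _, 0, le_refl _, by linarith, rfl, rfl, rfl, ?_, c1, c2, c3, c4, c5, c6, c7,
      c8, c9⟩
    have e1 : Θ ≤ 2 * A := by
      have e2 : g ≤ A := by
        rw [← hsg]
        have : 1 * g ≤ s * g := mul_le_mul_of_nonneg_right (by linarith) hg0.le
        linarith
      linarith
    have e3 : (P + 1 / 2) * Θ ≤ (P + 1 / 2) * (2 * A) :=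
      mul_le_mul_of_nonneg_left e1 (by linarith)
    have e4 : 0 ≤ β * ρ / lam ^ 2 := by positivity
    rw [hF]
    have e5 : A * (2 * P + β / lam ^ 2) = 2 * P * A + β * A / lam ^ 2 := by ring
    rw [e5]
    linarith
  · -- second case
    have h1 : lam ^ 2 * Θ / 2 + -β ≤ A := by
      have e1 : 0 ≤ (lam ^ 2 - 1) * q := mul_nonneg (by linarith) hq0
      have e2 : β * 2 = ρ - lam ^ 2 := by rw [hβ]; ring
      linarith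
    obtain ⟨c1, c2, c3, c4, c5, c6, c7, c8, c9, c10⟩ := sc_case2 (l := lam ^ 2) (b := -β) (A := A)
      (q := q) (Θ := Θ) (β := β) (ρ := ρ) (P := P) (F := F) hl1 (by linarith) (by linarith) hA0 h0
      hq0 h1 (by ring) (by rw [hβ]; ring) hP hF rfl rfl rfl rfl
    exact ⟨_, _, _, _, -β, by linarith, by linarith, rfl, rfl, rfl, c10, c1, c2, c3, c4, c5, c6,
      c7, c8, c9⟩

private theorem am {X a b : ℝ} (ha : 0 ≤ a) (hb : 0 ≤ b) (h : X ^ 2 ≤ 4 * (a * b)) :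
    -(a + b) ≤ X := by
  by_contra hc
  have h1 : a + b < -X := by linarith
  have h2 : (a + b) ^ 2 < (-X) ^ 2 := pow_lt_pow_left₀ h1 (by linarith) (by norm_num)
  nlinarith [sq_nonneg (a - b)]

/-- the scalar part of the lower bound -/
theorem low_scalar {P A F Bl q Θ β b' ρ M W K Ep u1 u2 u3 u4 Tp Tm B2 τ dd cc hh t1 t2 t3 t4 t5 : ℝ}
    (hP : 0 ≤ P) (hTp : 0 ≤ Tp) (hTm : 0 ≤ Tm) (hB : 0 ≤ B2) (hΘ : 0 ≤ Θ) (hρ : 0 ≤ ρ)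
    (hb0 : 0 ≤ b') (hb : -b' ≤ β) (hM : M = 2 * (2 * P * A - F) - 2 / 3 * Θ)
    (hEp : Ep = 2 * P * A + F) (hK : K = Ep + Bl + 1 / 2 * q * (1 + P))
    (hW : W ≤ 4 * P * A + F + Bl - P * Θ - (1 / 2 + b') * Θ)
    (pM : 0 < M) (pW : 0 < W) (pK : 0 < K) (pE : 0 < Ep)
    (i1 : u2 ^ 2 * ρ * Θ ≤ 1 / 4 * (M * W)) (i2 : u1 ^ 2 * ρ * Θ ≤ 1 / 10 * (Ep * W))
    (i3 : u4 ^ 2 * Θ ^ 2 ≤ 2 * (Ep * K)) (i4 : ρ ^ 2 * Θ ^ 2 ≤ 23 / 10 * (M * K))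
    (i5 : u3 ^ 2 * ρ * Θ ≤ 1 / 20 * (W * K))
    (hdd : dd ≤ 1 / 2 * Θ * Tm) (hcc : cc ≤ 1 / 2 * Θ * Tp) (hh0 : 0 ≤ hh) (hh1 : hh ≤ Θ * B2)
    (h1 : t1 ^ 2 ≤ ρ * cc * B2) (h2 : t2 ^ 2 ≤ ρ * dd * B2) (h3 : t3 ^ 2 ≤ ρ * Θ * B2)
    (h4 : t4 ^ 2 ≤ cc * Θ) (h5 : t5 ^ 2 ≤ dd * (ρ ^ 2 * Θ)) :
    1 / 100 * (Ep * Tp) + 1 / 200 * (M * Tm) + 3 / 100 * (W * B2) + 1 / 100 * (K * τ ^ 2) ≤
      2 * P * A * (τ ^ 2 + 2 * B2 + (Tp + Tm)) + F * (Tp - Tm) + (F + Bl) * (τ ^ 2 + B2) -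
      2 / 3 * dd + P * (1 / 2 * q * τ ^ 2 - hh) + 1 / 2 * q * τ ^ 2 + (β - 1 / 2) * hh -
      u1 * t1 - u2 * t2 + u3 * t3 * τ - τ * (u4 * t4 + t5) := by
  have pTB : 0 ≤ Tp * B2 := by positivity
  have pTB' : 0 ≤ Tm * B2 := by positivity
  have pBt : 0 ≤ B2 * τ ^ 2 := by positivity
  have pTt : 0 ≤ Tp * τ ^ 2 := by positivity
  have pTt' : 0 ≤ Tm * τ ^ 2 := by positivity
  -- the five cross terms
  have x1 : -(9 / 100 * (Ep * Tp) + 15 / 100 * (W * B2)) ≤ -(u1 * t1) := by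
    apply am (by positivity) (by positivity)
    have e1 : ρ * cc * B2 ≤ ρ * (1 / 2 * Θ * Tp) * B2 := by gcongr
    have e2 : u1 ^ 2 * t1 ^ 2 ≤ u1 ^ 2 * (ρ * (1 / 2 * Θ * Tp) * B2) :=
      mul_le_mul_of_nonneg_left (h1.trans e1) (sq_nonneg _)
    have e3 := mul_le_mul_of_nonneg_right i2 pTB
    have e4 : 0 ≤ Ep * W * (Tp * B2) := by positivity
    nlinarith
  have x2 : -(11 / 200 * (M * Tm) + 57 / 100 * (W * B2)) ≤ -(u2 * t2) := by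
    apply am (by positivity) (by positivity)
    have e1 : ρ * dd * B2 ≤ ρ * (1 / 2 * Θ * Tm) * B2 := by gcongr
    have e2 : u2 ^ 2 * t2 ^ 2 ≤ u2 ^ 2 * (ρ * (1 / 2 * Θ * Tm) * B2) :=
      mul_le_mul_of_nonneg_left (h2.trans e1) (sq_nonneg _)
    have e3 := mul_le_mul_of_nonneg_right i1 pTB'
    have e4 : 0 ≤ M * W * (Tm * B2) := by positivity
    nlinarith
  have x3 : -(25 / 100 * (W * B2) + 5 / 100 * (K * τ ^ 2)) ≤ u3 * t3 * τ := by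
    apply am (by positivity) (by positivity)
    have e2 : u3 ^ 2 * τ ^ 2 * t3 ^ 2 ≤ u3 ^ 2 * τ ^ 2 * (ρ * Θ * B2) :=
      mul_le_mul_of_nonneg_left h3 (by positivity)
    have e3 := mul_le_mul_of_nonneg_right i5 pBt
    nlinarith
  have x4 : -(9 / 10 * (Ep * Tp) + 28 / 100 * (K * τ ^ 2)) ≤ -(τ * (u4 * t4)) := by
    apply am (by positivity) (by positivity)
    have e1 : cc * Θ ≤ 1 / 2 * Θ * Tp * Θ := by gcongr
    have e2 : u4 ^ 2 * τ ^ 2 * t4 ^ 2 ≤ u4 ^ 2 * τ ^ 2 * (1 / 2 * Θ * Tp * Θ) :=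
      mul_le_mul_of_nonneg_left (h4.trans e1) (by positivity)
    have e3 := mul_le_mul_of_nonneg_right i3 pTt
    have e4 : 0 ≤ Ep * K * (Tp * τ ^ 2) := by positivity
    nlinarith
  have x5 : -(88 / 200 * (M * Tm) + 66 / 100 * (K * τ ^ 2)) ≤ -(τ * t5) := by
    apply am (by positivity) (by positivity)
    have e1 : dd * (ρ ^ 2 * Θ) ≤ 1 / 2 * Θ * Tm * (ρ ^ 2 * Θ) := by gcongr
    have e2 : τ ^ 2 * t5 ^ 2 ≤ τ ^ 2 * (1 / 2 * Θ * Tm * (ρ ^ 2 * Θ)) :=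
      mul_le_mul_of_nonneg_left (h5.trans e1) (by positivity)
    have e3 := mul_le_mul_of_nonneg_right i4 pTt'
    have e4 : 0 ≤ M * K * (Tm * τ ^ 2) := by positivity
    nlinarith
  -- the diagonal
  have y1 : 2 / 3 * dd ≤ 1 / 3 * Θ * Tm := by linarith
  have y2 : W * B2 ≤ (4 * P * A + F + Bl - P * Θ - (1 / 2 + b') * Θ) * B2 :=
    mul_le_mul_of_nonneg_right hW hB
  have y3 : (P + 1 / 2 + b') * hh ≤ (P + 1 / 2 + b') * (Θ * B2) :=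
    mul_le_mul_of_nonneg_left hh1 (by linarith)
  have y4 : (-b') * hh ≤ β * hh := mul_le_mul_of_nonneg_right hb hh0
  have z1 : 2 * P * A * (τ ^ 2 + 2 * B2 + (Tp + Tm)) + F * (Tp - Tm) + (F + Bl) * (τ ^ 2 + B2) +
      P * (1 / 2 * q * τ ^ 2) + 1 / 2 * q * τ ^ 2 = Ep * Tp + (M / 2 + 1 / 3 * Θ) * Tm +
      (4 * P * A + F + Bl) * B2 + K * τ ^ 2 := by
    rw [hK, hM, hEp]
    ring
  nlinarith

private theorem qa {F : Type*} [NormedAddCommGroup F] [InnerProductSpace ℝ F] {a b : F}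
    {l P C : ℝ} (h1 : 0 ≤ C + l) (h2 : C ≤ 4 * l * P - 2 * l) :
    l / 2 * ‖a + b‖ ^ 2 ≤ 2 * l * P * (‖a‖ ^ 2 + ‖b‖ ^ 2) - C * inner ℝ a b := by
  have e1 : ‖a + b‖ ^ 2 = ‖a‖ ^ 2 + 2 * inner ℝ a b + ‖b‖ ^ 2 := norm_add_sq_real a b
  have e2 : 0 ≤ ‖a - b‖ ^ 2 := sq_nonneg _
  have e3 : ‖a - b‖ ^ 2 = ‖a‖ ^ 2 - 2 * inner ℝ a b + ‖b‖ ^ 2 := norm_sub_sq_real a b
  rw [e3] at e2
  have e4 : (C + l) * (2 * inner ℝ a b) ≤ (C + l) * (‖a‖ ^ 2 + ‖b‖ ^ 2) :=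
    mul_le_mul_of_nonneg_left (by linarith) h1
  have e5 : 0 ≤ (4 * l * P - 2 * l - C) * (‖a‖ ^ 2 + ‖b‖ ^ 2) :=
    mul_nonneg (by linarith) (by positivity)
  rw [e1]
  nlinarith

private theorem qb {F : Type*} [NormedAddCommGroup F] [InnerProductSpace ℝ F] (d w : F) :
    -(2 / 3 * ‖d‖ ^ 2) ≤ 1 / 2 * ‖(2 : ℝ) • d - w‖ ^ 2 - 2 * inner ℝ d w + ‖w‖ ^ 2 := by
  have e1 : ‖(2 : ℝ) • d - w‖ ^ 2 = 4 * ‖d‖ ^ 2 - 4 * inner ℝ d w + ‖w‖ ^ 2 := by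
    rw [norm_sub_sq_real, norm_smul, real_inner_smul_left, Real.norm_eq_abs,
      abs_of_pos (by norm_num : (0 : ℝ) < 2)]
    ring
  have e2 : ‖(4 : ℝ) • d - (3 : ℝ) • w‖ ^ 2 = 16 * ‖d‖ ^ 2 - 24 * inner ℝ d w + 9 * ‖w‖ ^ 2 := by
    rw [norm_sub_sq_real, norm_smul, norm_smul, real_inner_smul_left, real_inner_smul_right,
      Real.norm_eq_abs, Real.norm_eq_abs, abs_of_pos (by norm_num : (0 : ℝ) < 4),
      abs_of_pos (by norm_num : (0 : ℝ) < 3)]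
    ring
  have e3 := sq_nonneg ‖(4 : ℝ) • d - (3 : ℝ) • w‖
  rw [e1]
  rw [e2] at e3
  linarith

private theorem cs {F : Type*} [NormedAddCommGroup F] [InnerProductSpace ℝ F] (a b : F) :
    inner ℝ a b ^ 2 ≤ ‖a‖ ^ 2 * ‖b‖ ^ 2 := by
  have h := abs_real_inner_le_norm a b
  have h2 := pow_le_pow_left₀ (abs_nonneg _) h 2
  rw [sq_abs] at h2
  linarith [mul_pow ‖a‖ ‖b‖ 2]

section quad

variable {F : Type*} [NormedAddCommGroup F] [InnerProductSpace ℝ F]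

/-- the quadratic form, as it comes out of the trace of the derivative of the field; `l = lam²`, `k = l - 1`,
`x = T v`, `y = T (j v)` -/
noncomputable def R3g (j : F →ₗ[ℝ] F) (Nn l k A β P ρ s1 s2 a1 a2 τ TT TD : ℝ) (v b x y : F) : ℝ :=
  Nn * l * P * (((-(τ * s2) + inner ℝ v b) ^ 2 + (τ * s1 + inner ℝ (j v) b) ^ 2) +
      (‖x - s2 • b‖ ^ 2 + ‖y + s1 • b‖ ^ 2) + A * (τ ^ 2 + 2 * ‖b‖ ^ 2 + TT)) +
    Nn * l * k * (((a2 * s1 - a1 * s2) * τ + inner ℝ b (a1 • v + a2 • j v)) ^ 2 +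
      ‖(a2 * s1 - a1 * s2) • b + (a1 • x + a2 • y)‖ ^ 2) +
    l * ((s1 - a1) * (s1 * (τ ^ 2 + ‖b‖ ^ 2) + τ * inner ℝ (j v) b + inner ℝ b y) -
      (s2 - a2) * (-(s2 * (τ ^ 2 + ‖b‖ ^ 2)) + τ * inner ℝ v b + inner ℝ b x)) -
    β * (k * A - ρ) * (TD + τ ^ 2 + ‖b‖ ^ 2) +
    inner ℝ (a1 • x + a2 • y) (j b) * (k * A - ρ) -
    β * k * (s1 * inner ℝ x (j b) + s2 * inner ℝ y (j b) + inner ℝ (a1 • x + a2 • y) (j b)) -
    2 * β * inner ℝ (a1 • x + a2 • y) (j b) -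
    P * (inner ℝ (x - s2 • b) (j y) - inner ℝ (y + s1 • b) (j x) - A * TD -
      inner ℝ (a1 • x + a2 • y) (j b) -
      (τ * inner ℝ b (a1 • j v - a2 • v) + inner ℝ (a1 • y - a2 • x) b)) -
    k * inner ℝ ((a2 * s1 - a1 * s2) • b + (a1 • x + a2 • y)) (j (a1 • y - a2 • x)) +
    l * β * (3 * inner ℝ (j b) (a1 • x + a2 • y) +
      ((-(τ * s2) + inner ℝ v b) ^ 2 + (τ * s1 + inner ℝ (j v) b) ^ 2) + A * (τ ^ 2 + ‖b‖ ^ 2) -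
      τ * (τ * (s1 ^ 2 + s2 ^ 2) + 2 * (s1 * inner ℝ (j v) b - s2 * inner ℝ v b) +
        (inner ℝ v x + inner ℝ (j v) y))) +
    l * ((τ * (a2 * s1 - a1 * s2) + inner ℝ b (a1 • v + a2 • j v)) ^ 2 -
      τ * ((a2 * s1 - a1 * s2) ^ 2 * τ +
        2 * (a2 * s1 - a1 * s2) * inner ℝ b (a1 • v + a2 • j v) +
        inner ℝ (a1 • x + a2 • y) (a1 • v + a2 • j v)))

/-- the same form, arranged; `c = (x - j y) / 2`, `d = (x + j y) / 2` -/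
noncomputable def Q3g (j : F →ₗ[ℝ] F) (Nn l k A β P ρ s1 s2 a1 a2 τ TT TD : ℝ) (v b x y c d : F) :
    ℝ :=
  Nn * l * P * (((-(τ * s2) + inner ℝ v b) ^ 2 + (τ * s1 + inner ℝ (j v) b) ^ 2) +
      (‖x - s2 • b‖ ^ 2 + ‖y + s1 • b‖ ^ 2) + A * (τ ^ 2 + 2 * ‖b‖ ^ 2 + TT)) +
    Nn * l * k * (((a2 * s1 - a1 * s2) * τ + inner ℝ b (a1 • v + a2 • j v)) ^ 2 +
      ‖(a2 * s1 - a1 * s2) • b + (a1 • x + a2 • y)‖ ^ 2) +
    (l * A + β * ρ) * TD + (l * A + β * ρ + β * A) * (τ ^ 2 + ‖b‖ ^ 2) -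
    (2 * P + ρ * k) * inner ℝ (x - s2 • b) (j (y + s1 • b)) +
    l * ((s1 ^ 2 + s2 ^ 2) * ‖b‖ ^ 2) - 2 * l * inner ℝ d (s2 • b - s1 • j b) -
    β * (2 * l - 3) * inner ℝ (a1 • c + a2 • j c) (-(j b)) -
    β * (4 * l - 5) * inner ℝ (a1 • d - a2 • j d) (-(j b)) +
    l / 2 * ((-(τ * s2) + inner ℝ v b) ^ 2 + (τ * s1 + inner ℝ (j v) b) ^ 2) +
    l / 2 * (s1 ^ 2 + s2 ^ 2) * τ ^ 2 +
    l * (β - 1 / 2) * (inner ℝ v b ^ 2 + inner ℝ (j v) b ^ 2) +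
    l * inner ℝ b (a1 • v + a2 • j v) ^ 2 + β * k * inner ℝ b (a1 • j v - a2 • v) * τ -
    l * τ * ((2 * β + ρ) * inner ℝ c v +
      inner ℝ d ((a1 ^ 2 - a2 ^ 2) • v + (2 * a1 * a2) • j v))

theorem R3g_eq (j : F →ₗ[ℝ] F) (hj : ∀ a b, inner ℝ (j a) (j b) = inner ℝ a b)
    (hjj : ∀ a, j (j a) = -a) {Nn l k A β P ρ s1 s2 a1 a2 τ TT TD : ℝ} {v b x y c d : F}
    (hc : c = (1 / 2 : ℝ) • (x - j y)) (hd : d = (1 / 2 : ℝ) • (x + j y))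
    (hk : k = l - 1) (hA : A = -(s1 * a1 + s2 * a2)) (hρ : ρ = a1 ^ 2 + a2 ^ 2)
    (hβ : β = (ρ - l) / 2) (hP : P = l + β * k) :
    R3g j Nn l k A β P ρ s1 s2 a1 a2 τ TT TD v b x y =
      Q3g j Nn l k A β P ρ s1 s2 a1 a2 τ TT TD v b x y c d := by
  have jsk : ∀ a b : F, inner ℝ (j a) b = -inner ℝ a (j b) := by
    intro a b
    have h := hj a (j b)
    rw [hjj, inner_neg_right] at h
    linarith
  have j0 : ∀ a : F, inner ℝ a (j a) = 0 := by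
    intro a
    have h := jsk a a
    rw [real_inner_comm] at h
    linarith
  have c1 : inner ℝ b v = inner ℝ v b := real_inner_comm _ _
  have c2 : inner ℝ x v = inner ℝ v x := real_inner_comm _ _
  have c3 : inner ℝ y v = inner ℝ v y := real_inner_comm _ _
  have c4 : inner ℝ x b = inner ℝ b x := real_inner_comm _ _
  have c5 : inner ℝ y b = inner ℝ b y := real_inner_comm _ _
  have sw : ∀ a b : F, inner ℝ b (j a) = -inner ℝ a (j b) := by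
    intro a b
    rw [← jsk, real_inner_comm]
  have d1 : inner ℝ b (j v) = -inner ℝ v (j b) := sw _ _
  have d2 : inner ℝ x (j v) = -inner ℝ v (j x) := sw _ _
  have d3 : inner ℝ y (j v) = -inner ℝ v (j y) := sw _ _
  have d4 : inner ℝ x (j b) = -inner ℝ b (j x) := sw _ _
  have d5 : inner ℝ y (j b) = -inner ℝ b (j y) := sw _ _
  have d6 : inner ℝ y (j x) = -inner ℝ x (j y) := sw _ _
  unfold R3g Q3g
  rw [hc, hd]
  simp only [map_add, map_sub, map_smul, hjj, inner_add_left, inner_add_right,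
    inner_sub_left, inner_sub_right, real_inner_smul_left, real_inner_smul_right, inner_neg_left,
    inner_neg_right, jsk, j0, smul_add, smul_sub, smul_neg, c1, c2, c3, c4, c5, d1, d2, d3, d4,
    d5, d6]
  subst hk hA hP
  have hl : l = ρ - 2 * β := by rw [hβ]; ring
  subst hl
  subst hρ
  ring

theorem R3g_pos (j : F →ₗ[ℝ] F) (hj : ∀ a b, inner ℝ (j a) (j b) = inner ℝ a b)
    (hjj : ∀ a, j (j a) = -a) {lam m z1 z2 s1 s2 β P A ρ τ TT TD : ℝ} {v b x y : F}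
    (hlam : 1 < lam) (hm : 2 ≤ m) (hz : z1 ^ 2 + z2 ^ 2 = 1 + (s1 ^ 2 + s2 ^ 2) + ‖v‖ ^ 2)
    (hh : (z1 - s1) ^ 2 + (z2 - s2) ^ 2 ≤ 1) (hA0 : 0 < A)
    (hA : A = lam * (z1 * s1 + z2 * s2) - (s1 ^ 2 + s2 ^ 2))
    (hρ : ρ = (s1 - lam * z1) ^ 2 + (s2 - lam * z2) ^ 2)
    (hβ : β = (ρ - lam ^ 2) / 2) (hP : P = lam ^ 2 + β * (lam ^ 2 - 1))
    (h1 : 0 ≤ TT + TD) (h2 : 0 ≤ TT - TD) (hp : ‖x - j y‖ ^ 2 ≤ ‖v‖ ^ 2 * (TT + TD))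
    (hq : ‖x + j y‖ ^ 2 ≤ ‖v‖ ^ 2 * (TT - TD)) :
    ∃ c, 0 < c ∧ c * (τ ^ 2 + ‖b‖ ^ 2 + TT) ≤
      R3g j (m / 2 + 1) (lam ^ 2) (lam ^ 2 - 1) A β P ρ s1 s2 (s1 - lam * z1) (s2 - lam * z2) τ TT
        TD v b x y := by
  have jsk : ∀ a b : F, inner ℝ (j a) b = -inner ℝ a (j b) := by
    intro a b
    have h := hj a (j b)
    rw [hjj, inner_neg_right] at h
    linarith
  have j0 : ∀ a : F, inner ℝ a (j a) = 0 := by
    intro a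
    have h := jsk a a
    rw [real_inner_comm] at h
    linarith
  have jn : ∀ a : F, ‖j a‖ ^ 2 = ‖a‖ ^ 2 := by
    intro a
    rw [← real_inner_self_eq_norm_sq, hj, real_inner_self_eq_norm_sq]
  have cn : ∀ (α γ : ℝ) (a : F), ‖α • a + γ • j a‖ ^ 2 = (α ^ 2 + γ ^ 2) * ‖a‖ ^ 2 := by
    intro α γ a
    rw [norm_add_sq_real, norm_smul, norm_smul, mul_pow, mul_pow, jn, real_inner_smul_left,
      real_inner_smul_right, j0, Real.norm_eq_abs, Real.norm_eq_abs, sq_abs, sq_abs]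
    ring
  obtain ⟨k, hk⟩ : ∃ k, k = lam ^ 2 - 1 := ⟨_, rfl⟩
  obtain ⟨l, hl⟩ : ∃ l, l = lam ^ 2 := ⟨_, rfl⟩
  obtain ⟨a1, ha1⟩ : ∃ a1, a1 = s1 - lam * z1 := ⟨_, rfl⟩
  obtain ⟨a2, ha2⟩ : ∃ a2, a2 = s2 - lam * z2 := ⟨_, rfl⟩
  obtain ⟨hP0, hβ0, M, W, K, Ep, b', c1, c2, c3, c4, c5, c6, c7, c8, c9, c10, c11, c12, c13,
    c14, c15⟩ := sc_all (q := s1 ^ 2 + s2 ^ 2) (F := A + β * ρ / lam ^ 2) hlam (sq_nonneg ‖v‖) hz hh
      hA0 hA hρ rfl hβ hP rfl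
  rw [← hk, ← hl, ← ha1, ← ha2]
  rw [← hl] at hk hβ c5 c6 c11 c12 c15
  rw [← hl] at hP c3
  rw [← hk] at hP c15
  rw [← ha1, ← ha2] at hρ
  have hl1 : 1 < l := by rw [hl]; nlinarith
  have hk0 : 0 < k := by rw [hk]; linarith
  have hl0 : 0 < l := by linarith
  have hA' : A = -(s1 * a1 + s2 * a2) := by rw [hA, ha1, ha2]; ring
  have hρ0 : 0 ≤ ρ := by rw [hρ]; positivity
  obtain ⟨c, hc⟩ : ∃ c, c = (1 / 2 : ℝ) • (x - j y) := ⟨_, rfl⟩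
  obtain ⟨d, hd⟩ : ∃ d, d = (1 / 2 : ℝ) • (x + j y) := ⟨_, rfl⟩
  rw [R3g_eq j hj hjj hc hd hk hA' hρ hβ hP]
  obtain ⟨Tp, hTp⟩ : ∃ Tp, Tp = (TT + TD) / 2 := ⟨_, rfl⟩
  obtain ⟨Tm, hTm⟩ : ∃ Tm, Tm = (TT - TD) / 2 := ⟨_, rfl⟩
  have hTp0 : 0 ≤ Tp := by rw [hTp]; linarith
  have hTm0 : 0 ≤ Tm := by rw [hTm]; linarith
  have hTT : TT = Tp + Tm := by rw [hTp, hTm]; ring
  have hTD : TD = Tp - Tm := by rw [hTp, hTm]; ring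
  have hcn : ‖c‖ ^ 2 ≤ 1 / 2 * ‖v‖ ^ 2 * Tp := by
    rw [hc, norm_smul, mul_pow, Real.norm_eq_abs, sq_abs, hTp]
    linarith
  have hdn : ‖d‖ ^ 2 ≤ 1 / 2 * ‖v‖ ^ 2 * Tm := by
    rw [hd, norm_smul, mul_pow, Real.norm_eq_abs, sq_abs, hTm]
    linarith
  -- the scalars
  have hhh : inner ℝ v b ^ 2 + inner ℝ (j v) b ^ 2 ≤ ‖v‖ ^ 2 * ‖b‖ ^ 2 := by
    rcases eq_or_ne b 0 with hb | hb
    · rw [hb]
      simp
    · have hb2 : 0 < ‖b‖ ^ 2 := by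
        have := norm_pos_iff.2 hb
        positivity
      have e1 := cs v (inner ℝ v b • b + (-inner ℝ (j v) b) • j b)
      rw [cn, inner_add_right, real_inner_smul_right, real_inner_smul_right] at e1
      have e2 : inner ℝ v (j b) = -inner ℝ (j v) b := by rw [jsk]; ring
      rw [e2] at e1
      have e3 : (inner ℝ v b ^ 2 + inner ℝ (j v) b ^ 2) * (inner ℝ v b ^ 2 + inner ℝ (j v) b ^ 2) ≤
          (inner ℝ v b ^ 2 + inner ℝ (j v) b ^ 2) * (‖v‖ ^ 2 * ‖b‖ ^ 2) := by nlinarith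
      rcases eq_or_lt_of_le (by positivity : 0 ≤ inner ℝ v b ^ 2 + inner ℝ (j v) b ^ 2) with e4 | e4
      · rw [← e4]
        positivity
      · exact le_of_mul_le_mul_left e3 e4
  have t1 : inner ℝ (a1 • c + a2 • j c) (-(j b)) ^ 2 ≤ ρ * ‖c‖ ^ 2 * ‖b‖ ^ 2 := by
    have e1 := cs (a1 • c + a2 • j c) (-(j b))
    rw [cn, norm_neg, jn, ← hρ] at e1
    exact e1
  have t2 : inner ℝ (a1 • d - a2 • j d) (-(j b)) ^ 2 ≤ ρ * ‖d‖ ^ 2 * ‖b‖ ^ 2 := by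
    have e1 := cs (a1 • d - a2 • j d) (-(j b))
    have e2 : a1 • d - a2 • j d = a1 • d + (-a2) • j d := by rw [neg_smul, sub_eq_add_neg]
    rw [norm_neg, jn] at e1
    have e3 : ‖a1 • d - a2 • j d‖ ^ 2 = ρ * ‖d‖ ^ 2 := by
      rw [e2, cn, hρ]
      ring
    rw [e3] at e1
    exact e1
  have t3 : inner ℝ b (a1 • j v - a2 • v) ^ 2 ≤ ρ * ‖v‖ ^ 2 * ‖b‖ ^ 2 := by
    have e1 := cs b (a1 • j v - a2 • v)
    have e2 : a1 • j v - a2 • v = (-a2) • v + a1 • j v := by rw [neg_smul]; abel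
    have e3 : ‖a1 • j v - a2 • v‖ ^ 2 = ρ * ‖v‖ ^ 2 := by
      rw [e2, cn, hρ]
      ring
    rw [e3] at e1
    linarith
  have t4 : inner ℝ c v ^ 2 ≤ ‖c‖ ^ 2 * ‖v‖ ^ 2 := cs c v
  have t5 : inner ℝ d ((a1 ^ 2 - a2 ^ 2) • v + (2 * a1 * a2) • j v) ^ 2 ≤
      ‖d‖ ^ 2 * (ρ ^ 2 * ‖v‖ ^ 2) := by
    have e1 := cs d ((a1 ^ 2 - a2 ^ 2) • v + (2 * a1 * a2) • j v)
    have e2 : (a1 ^ 2 - a2 ^ 2) ^ 2 + (2 * a1 * a2) ^ 2 = ρ ^ 2 := by rw [hρ]; ring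
    rw [cn, e2] at e1
    exact e1
  have low := low_scalar (τ := τ) (A := A) (Bl := β * A / l) (u1 := β * (2 - 3 / l))
    (u2 := β * (4 - 5 / l)) (u3 := β * (k / l)) (u4 := 2 * β + ρ) hP0.le hTp0 hTm0
    (sq_nonneg ‖b‖) (sq_nonneg ‖v‖) hρ0 c1 c2 (by rw [c3, hl]) (by rw [c4, hl]) c5 c6 c7 c8 c9 c10
    c11 c12 c13 c14 c15 hdn hcn (by positivity : 0 ≤ inner ℝ v b ^ 2 + inner ℝ (j v) b ^ 2) hhh t1
    t2 t3 t4 t5
  -- the first square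
  have hPl : P = l + β * k := hP
  have hρl : ρ = l + 2 * β := by rw [hβ]; ring
  have C1 : 0 ≤ 2 * P + ρ * k + l := by positivity
  have C2 : 2 * P + ρ * k ≤ 4 * l * P - 2 * l := by
    have e1 : 4 * l * P - 2 * l - (2 * P + ρ * k) = 3 * l * k + 4 * (β * k ^ 2) := by
      rw [hPl, hρl, hk]
      ring
    have e2 : -(1 / 2) * k ^ 2 ≤ β * k ^ 2 := mul_le_mul_of_nonneg_right hβ0 (sq_nonneg k)
    have e3 : k ^ 2 ≤ l * k := by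
      have e4 : l * k = k ^ 2 + k := by rw [hk]; ring
      linarith
    have e5 : 0 ≤ l * k := by positivity
    linarith
  have g1 := qa (a := x - s2 • b) (b := j (y + s1 • b)) C1 C2
  have g2 : x - s2 • b + j (y + s1 • b) = (2 : ℝ) • d - (s2 • b - s1 • j b) := by
    rw [hd, map_add, map_smul]
    module
  have g3 : ‖s2 • b - s1 • j b‖ ^ 2 = (s1 ^ 2 + s2 ^ 2) * ‖b‖ ^ 2 := by
    have e2 : s2 • b - s1 • j b = s2 • b + (-s1) • j b := by rw [neg_smul, sub_eq_add_neg]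
    rw [e2, cn]
    ring
  have g4 := qb d (s2 • b - s1 • j b)
  rw [g2, jn] at g1
  rw [g3] at g4
  -- the second square
  have g5 : 1 / 2 * (s1 ^ 2 + s2 ^ 2) * τ ^ 2 - (inner ℝ v b ^ 2 + inner ℝ (j v) b ^ 2) ≤
      (-(τ * s2) + inner ℝ v b) ^ 2 + (τ * s1 + inner ℝ (j v) b) ^ 2 := by
    nlinarith [sq_nonneg (-(τ * s2) + 2 * inner ℝ v b), sq_nonneg (τ * s1 + 2 * inner ℝ (j v) b)]
  obtain ⟨E, hE⟩ : ∃ E, E = (-(τ * s2) + inner ℝ v b) ^ 2 + (τ * s1 + inner ℝ (j v) b) ^ 2 :=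
    ⟨_, rfl⟩
  obtain ⟨XY, hXY⟩ : ∃ XY, XY = ‖x - s2 • b‖ ^ 2 + ‖y + s1 • b‖ ^ 2 := ⟨_, rfl⟩
  obtain ⟨R, hR⟩ : ∃ R, R = ((a2 * s1 - a1 * s2) * τ + inner ℝ b (a1 • v + a2 • j v)) ^ 2 +
      ‖(a2 * s1 - a1 * s2) • b + (a1 • x + a2 • y)‖ ^ 2 := ⟨_, rfl⟩
  have hE0 : 0 ≤ E := by rw [hE]; positivity
  have hXY0 : 0 ≤ XY := by rw [hXY]; positivity
  have hR0 : 0 ≤ R := by rw [hR]; positivity
  have hTT0 : 0 ≤ TT := by rw [hTT]; linarith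
  have n1 : 2 * (l * P * (E + XY + A * (τ ^ 2 + 2 * ‖b‖ ^ 2 + TT))) ≤
      (m / 2 + 1) * l * P * (E + XY + A * (τ ^ 2 + 2 * ‖b‖ ^ 2 + TT)) := by
    have e1 : (2 : ℝ) ≤ m / 2 + 1 := by linarith
    have e2 : 0 ≤ l * P * (E + XY + A * (τ ^ 2 + 2 * ‖b‖ ^ 2 + TT)) := by positivity
    have e3 := mul_le_mul_of_nonneg_right e1 e2
    linarith
  have n2 : 0 ≤ (m / 2 + 1) * l * k * R := by positivity
  have n3 : 0 ≤ l / 2 * E := by positivity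
  have n4 : 0 ≤ l * inner ℝ b (a1 • v + a2 • j v) ^ 2 := by positivity
  have n5 : l * (P * (1 / 2 * (s1 ^ 2 + s2 ^ 2) * τ ^ 2 -
      (inner ℝ v b ^ 2 + inner ℝ (j v) b ^ 2))) ≤ l * P * E := by
    rw [← hE] at g5
    have := mul_le_mul_of_nonneg_left g5 (by positivity : 0 ≤ l * P)
    linarith
  have n6 : 0 ≤ l * P * E := by positivity
  have n7 : l * (-(2 / 3 * ‖d‖ ^ 2)) ≤ l * (1 / 2 * ‖(2 : ℝ) • d - (s2 • b - s1 • j b)‖ ^ 2 -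
      2 * inner ℝ d (s2 • b - s1 • j b) + (s1 ^ 2 + s2 ^ 2) * ‖b‖ ^ 2) :=
    mul_le_mul_of_nonneg_left g4 hl0.le
  have low' := mul_le_mul_of_nonneg_left low hl0.le
  obtain ⟨w1, hw1⟩ : ∃ w1, w1 = inner ℝ (a1 • c + a2 • j c) (-(j b)) := ⟨_, rfl⟩
  obtain ⟨w2, hw2⟩ : ∃ w2, w2 = inner ℝ (a1 • d - a2 • j d) (-(j b)) := ⟨_, rfl⟩
  obtain ⟨w3, hw3⟩ : ∃ w3, w3 = inner ℝ b (a1 • j v - a2 • v) := ⟨_, rfl⟩
  obtain ⟨w4, hw4⟩ : ∃ w4, w4 = inner ℝ c v := ⟨_, rfl⟩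
  obtain ⟨w5, hw5⟩ : ∃ w5, w5 = inner ℝ d ((a1 ^ 2 - a2 ^ 2) • v + (2 * a1 * a2) • j v) :=
    ⟨_, rfl⟩
  obtain ⟨hs, hhs⟩ : ∃ hs, hs = inner ℝ v b ^ 2 + inner ℝ (j v) b ^ 2 := ⟨_, rfl⟩
  rw [← hw1, ← hw2, ← hw3, ← hw4, ← hw5, ← hhs] at low'
  have ex : l * (2 * P * A * (τ ^ 2 + 2 * ‖b‖ ^ 2 + (Tp + Tm)) + (A + β * ρ / l) * (Tp - Tm) +
      (A + β * ρ / l + β * A / l) * (τ ^ 2 + ‖b‖ ^ 2) - 2 / 3 * ‖d‖ ^ 2 +
      P * (1 / 2 * (s1 ^ 2 + s2 ^ 2) * τ ^ 2 - hs) + 1 / 2 * (s1 ^ 2 + s2 ^ 2) * τ ^ 2 +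
      (β - 1 / 2) * hs - β * (2 - 3 / l) * w1 - β * (4 - 5 / l) * w2 + β * (k / l) * w3 * τ -
      τ * ((2 * β + ρ) * w4 + w5)) =
      2 * l * P * A * (τ ^ 2 + 2 * ‖b‖ ^ 2 + (Tp + Tm)) + (l * A + β * ρ) * (Tp - Tm) +
      (l * A + β * ρ + β * A) * (τ ^ 2 + ‖b‖ ^ 2) - l * (2 / 3 * ‖d‖ ^ 2) +
      l * (P * (1 / 2 * (s1 ^ 2 + s2 ^ 2) * τ ^ 2 - hs)) + l / 2 * (s1 ^ 2 + s2 ^ 2) * τ ^ 2 +
      l * (β - 1 / 2) * hs - β * (2 * l - 3) * w1 - β * (4 * l - 5) * w2 + β * k * w3 * τ -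
      l * τ * ((2 * β + ρ) * w4 + w5) := by
    field_simp
  rw [ex] at low'
  have fin : l * (1 / 100 * (Ep * Tp) + 1 / 200 * (M * Tm) + 3 / 100 * (W * ‖b‖ ^ 2) +
      1 / 100 * (K * τ ^ 2)) ≤
      Q3g j (m / 2 + 1) l k A β P ρ s1 s2 a1 a2 τ TT TD v b x y c d := by
    unfold Q3g
    rw [← hE, ← hXY, ← hR, ← hw1, ← hw2, ← hw3, ← hw4, ← hw5, ← hhs]
    rw [← hXY] at g1
    rw [← hhs] at n5
    rw [hTT, hTD] at *
    linarith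
  obtain ⟨c0, hc0⟩ : ∃ c0, c0 = min (min (1 / 100 * Ep) (1 / 200 * M))
      (min (3 / 100 * W) (1 / 100 * K)) := ⟨_, rfl⟩
  have hc00 : 0 < c0 := by
    rw [hc0]
    exact lt_min (lt_min (by positivity) (by positivity)) (lt_min (by positivity) (by positivity))
  have k1 : c0 ≤ 1 / 100 * Ep := by rw [hc0]; exact (min_le_left _ _).trans (min_le_left _ _)
  have k2 : c0 ≤ 1 / 200 * M := by rw [hc0]; exact (min_le_left _ _).trans (min_le_right _ _)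
  have k3 : c0 ≤ 3 / 100 * W := by rw [hc0]; exact (min_le_right _ _).trans (min_le_left _ _)
  have k4 : c0 ≤ 1 / 100 * K := by rw [hc0]; exact (min_le_right _ _).trans (min_le_right _ _)
  refine ⟨l * c0, by positivity, le_trans ?_ fin⟩
  have e1 := mul_le_mul_of_nonneg_right k1 hTp0
  have e2 := mul_le_mul_of_nonneg_right k2 hTm0
  have e3 := mul_le_mul_of_nonneg_right k3 (sq_nonneg ‖b‖)
  have e4 := mul_le_mul_of_nonneg_right k4 (sq_nonneg τ)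
  rw [mul_assoc]
  apply mul_le_mul_of_nonneg_left _ hl0.le
  rw [hTT]
  linarith

/-- the degenerate point: `A = 0` only if `ζ = 0`, `v = 0` -/
theorem R3g_degen {lam z1 z2 s1 s2 A : ℝ} {v : F} (hlam : 1 < lam)
    (hz : z1 ^ 2 + z2 ^ 2 = 1 + (s1 ^ 2 + s2 ^ 2) + ‖v‖ ^ 2)
    (hh : (z1 - s1) ^ 2 + (z2 - s2) ^ 2 ≤ 1)
    (hA : A = lam * (z1 * s1 + z2 * s2) - (s1 ^ 2 + s2 ^ 2)) (hA0 : A ≤ 0) :
    s1 = 0 ∧ s2 = 0 ∧ v = 0 ∧ A = 0 := by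
  have i1 : A = (lam - 1) * (s1 ^ 2 + s2 ^ 2) +
      lam / 2 * (‖v‖ ^ 2 + (1 - ((z1 - s1) ^ 2 + (z2 - s2) ^ 2))) := by
    rw [hA]
    linear_combination (lam / 2) * hz
  have e1 : 0 ≤ (lam - 1) * (s1 ^ 2 + s2 ^ 2) := mul_nonneg (by linarith) (by positivity)
  have e2 : 0 ≤ lam / 2 * (‖v‖ ^ 2 + (1 - ((z1 - s1) ^ 2 + (z2 - s2) ^ 2))) := by
    apply mul_nonneg (by linarith)
    have := sq_nonneg ‖v‖
    linarith
  have e3 : (lam - 1) * (s1 ^ 2 + s2 ^ 2) = 0 := by linarith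
  have e4 : lam / 2 * (‖v‖ ^ 2 + (1 - ((z1 - s1) ^ 2 + (z2 - s2) ^ 2))) = 0 := by linarith
  have e5 : s1 ^ 2 + s2 ^ 2 = 0 := (mul_eq_zero.1 e3).resolve_left (by linarith)
  have e6 : ‖v‖ ^ 2 + (1 - ((z1 - s1) ^ 2 + (z2 - s2) ^ 2)) = 0 :=
    (mul_eq_zero.1 e4).resolve_left (by linarith)
  have e7 : s1 ^ 2 = 0 := by nlinarith [sq_nonneg s1, sq_nonneg s2]
  have e8 : s2 ^ 2 = 0 := by nlinarith [sq_nonneg s1, sq_nonneg s2]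
  have e9 : ‖v‖ ^ 2 = 0 := by nlinarith [sq_nonneg ‖v‖]
  exact ⟨pow_eq_zero_iff (two_ne_zero) |>.1 e7, pow_eq_zero_iff (two_ne_zero) |>.1 e8,
    norm_eq_zero.1 (pow_eq_zero_iff (two_ne_zero) |>.1 e9), by linarith⟩

theorem R3g_zero (j : F →ₗ[ℝ] F) (hj : ∀ a b, inner ℝ (j a) (j b) = inner ℝ a b)
    (hjj : ∀ a, j (j a) = -a) {lam m z1 z2 s1 s2 β P A ρ τ TT TD : ℝ} {v b x y : F}
    (hlam : 1 < lam) (hz : z1 ^ 2 + z2 ^ 2 = 1 + (s1 ^ 2 + s2 ^ 2) + ‖v‖ ^ 2)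
    (hh : (z1 - s1) ^ 2 + (z2 - s2) ^ 2 ≤ 1) (hA0 : A ≤ 0)
    (hA : A = lam * (z1 * s1 + z2 * s2) - (s1 ^ 2 + s2 ^ 2))
    (hρ : ρ = (s1 - lam * z1) ^ 2 + (s2 - lam * z2) ^ 2)
    (hβ : β = (ρ - lam ^ 2) / 2)
    (hp : ‖x - j y‖ ^ 2 ≤ ‖v‖ ^ 2 * (TT + TD)) (hq : ‖x + j y‖ ^ 2 ≤ ‖v‖ ^ 2 * (TT - TD)) :
    R3g j (m / 2 + 1) (lam ^ 2) (lam ^ 2 - 1) A β P ρ s1 s2 (s1 - lam * z1) (s2 - lam * z2) τ TT
        TD v b x y = 0 := by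
  obtain ⟨h1, h2, h3, h4⟩ := R3g_degen hlam hz hh hA hA0
  rw [h3, norm_zero] at hp hq hz
  have e1 : x - j y = 0 := by
    have : ‖x - j y‖ ^ 2 = 0 := le_antisymm (by simpa using hp) (sq_nonneg _)
    exact norm_eq_zero.1 (pow_eq_zero_iff (two_ne_zero) |>.1 this)
  have e2 : x + j y = 0 := by
    have : ‖x + j y‖ ^ 2 = 0 := le_antisymm (by simpa using hq) (sq_nonneg _)
    exact norm_eq_zero.1 (pow_eq_zero_iff (two_ne_zero) |>.1 this)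
  have e3 : x = 0 := by
    have : (2 : ℝ) • x = 0 := by
      have h5 : (2 : ℝ) • x = (x - j y) + (x + j y) := by module
      rw [h5, e1, e2, add_zero]
    exact (smul_eq_zero.1 this).resolve_left two_ne_zero
  have e4 : y = 0 := by
    have h5 : j y = 0 := by
      rw [e3, zero_add] at e2
      exact e2
    have h6 := hjj y
    rw [h5, map_zero] at h6
    exact neg_eq_zero.1 h6.symm
  have e5 : ρ = lam ^ 2 := by
    rw [hρ, h1, h2]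
    rw [h1, h2] at hz
    linear_combination lam ^ 2 * hz
  have e6 : β = 0 := by rw [hβ, e5]; ring
  unfold R3g
  rw [h3, e3, e4, e6, h4, h1, h2]
  simp

end quad

end Pool.Agent.Helper77.JE
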