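import Pool.Agent.Helper65.HB.Pt3
import Pool.Agent.Helper65.HB.Pos3
import Pool.Agent.Helper77.JE.PtD

/-! # HB: coordinates and the sign of the trace of the derivative of the second field -/

set_option autoImplicit false
set_option linter.unusedSectionVars false
set_option linter.unusedVariables false

namespace Pool.Agent.Helper77.JE

variable {L : Type*} [NormedAddCommGroup L] [NormedSpace ℝ L]
variable {B : L →L[ℝ] L →L[ℝ] ℝ} {J : L →L[ℝ] L} {X ν : L} {N : L →L[ℝ] L}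
variable {κ : Type*} [Fintype κ] [DecidableEq κ] {e : Option κ → L}

/-- the vector with the coordinates `f` -/
noncomputable def em (e : Option κ → L) (f : EuclideanSpace ℝ κ) : L := ∑ k, f k • e (some k)

theorem em_add (f g : EuclideanSpace ℝ κ) : em e (f + g) = em e f + em e g := by
  unfold em
  rw [← Finset.sum_add_distrib]
  refine Finset.sum_congr rfl fun k _ => ?_
  rw [PiLp.add_apply, add_smul]

theorem em_smul (c : ℝ) (f : EuclideanSpace ℝ κ) : em e (c • f) = c • em e f := by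
  unfold em
  rw [Finset.smul_sum]
  refine Finset.sum_congr rfl fun k _ => ?_
  rw [PiLp.smul_apply, smul_eq_mul, mul_smul]

theorem fv_add (a b : L) : fv B e (a + b) = fv B e a + fv B e b := by
  unfold fv
  ext k
  simp

theorem fv_smul (c : ℝ) (a : L) : fv B e (c • a) = c • fv B e a := by
  unfold fv
  ext k
  simp

theorem em_hz (he : Fr B J X ν e) (f : EuclideanSpace ℝ κ) : Hz B J X ν (em e f) := by
  unfold em
  refine ⟨?_, ?_, ?_⟩
  · rw [map_sum, ContinuousLinearMap.sum_apply]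
    refine Finset.sum_eq_zero fun k _ => ?_
    rw [map_smul, smul_apply, (he.hz _).1, smul_zero]
  · rw [map_sum, ContinuousLinearMap.sum_apply]
    refine Finset.sum_eq_zero fun k _ => ?_
    rw [map_smul, smul_apply, (he.hz _).2.1, smul_zero]
  · rw [map_sum, ContinuousLinearMap.sum_apply]
    refine Finset.sum_eq_zero fun k _ => ?_
    rw [map_smul, smul_apply, (he.hz _).2.2, smul_zero]

theorem em_xi (he : Fr B J X ν e) (f : EuclideanSpace ℝ κ) : B (em e f) (J ν) = 0 := by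
  unfold em
  rw [map_sum, ContinuousLinearMap.sum_apply]
  refine Finset.sum_eq_zero fun k _ => ?_
  rw [map_smul, smul_apply, ← he.xi, he.on, if_neg (by simp), smul_zero]

theorem fv_em (he : Fr B J X ν e) (f : EuclideanSpace ℝ κ) : fv B e (em e f) = f := by
  unfold fv em
  ext k
  change B (∑ l, f l • e (some l)) (e (some k)) = f k
  rw [map_sum, ContinuousLinearMap.sum_apply, Finset.sum_eq_single k]
  · rw [map_smul, smul_apply, he.on, if_pos rfl, smul_eq_mul, mul_one]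
  · intro l _ hl
    rw [map_smul, smul_apply, he.on, if_neg (by simpa using hl), smul_zero]
  · intro h
    exact absurd (Finset.mem_univ k) h

theorem hz_em (he : Fr B J X ν e) {q : L} (hq : Hz B J X ν q) :
    q = B q (J ν) • J ν + em e (fv B e q) := by
  have h := he.hz_sum hq
  rw [Fintype.sum_option, he.xi] at h
  conv_lhs => rw [← h]
  rfl

/-- the operator `T` in coordinates -/
noncomputable def TFm (B : L →L[ℝ] L →L[ℝ] ℝ) (e : Option κ → L) (T : L →L[ℝ] L) :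
    EuclideanSpace ℝ κ →ₗ[ℝ] EuclideanSpace ℝ κ where
  toFun f := fv B e (T (em e f))
  map_add' f g := by rw [em_add, map_add, fv_add]
  map_smul' c f := by rw [em_smul, map_smul, fv_smul]; rfl

theorem TFm_apply (T : L →L[ℝ] L) (f : EuclideanSpace ℝ κ) :
    TFm B e T f = fv B e (T (em e f)) := rfl

theorem fv_T (he : Fr B J X ν e) (T : L →L[ℝ] L) {q : L} (hq : Hz B J X ν q) :
    fv B e (T q) = B q (J ν) • fv B e (T (J ν)) + TFm B e T (fv B e q) := by
  conv_lhs => rw [hz_em he hq]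
  rw [map_add, map_smul, fv_add, fv_smul, TFm_apply]

theorem fv_ν (he : Fr B J X ν e) (hH : Hf B J) : fv B e ν = 0 := by
  unfold fv
  ext k
  simp only [PiLp.zero_apply]
  rw [hH.symm]
  exact (he.hz _).2.2

theorem fv_Jξ (he : Fr B J X ν e) (hH : Hf B J) : fv B e (J ν) = 0 := by
  unfold fv
  ext k
  simp only [PiLp.zero_apply]
  rw [← he.xi, he.on, if_neg (by simp)]

theorem fv_X (he : Fr B J X ν e) (hH : Hf B J) : fv B e X = 0 := by
  unfold fv
  ext k
  simp only [PiLp.zero_apply]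
  rw [hH.symm]
  exact (he.hz _).1

theorem fv_JX (he : Fr B J X ν e) (hH : Hf B J) : fv B e (J X) = 0 := by
  unfold fv
  ext k
  simp only [PiLp.zero_apply]
  rw [hH.symm]
  exact (he.hz _).2.1

/-- the part in `{X, J X, ν, ξ}^⊥` of `J q` -/
theorem fv_Jq (hH : Hf B J) (he : Fr B J X ν e) (q : L) :
    fv B e (J q) = TFm B e J (fv B e q) := by
  have h := he.comp q
  rw [Fintype.sum_option, he.xi] at h
  have h2 : q = -(B q X • X) - B q (J X) • J X + B q ν • ν + (B q (J ν) • J ν + em e (fv B e q)) := by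
    conv_lhs => rw [h]
    rfl
  have h3 : J q = -(B q X • J X) + B q (J X) • X + B q ν • J ν - B q (J ν) • ν +
      J (em e (fv B e q)) := by
    conv_lhs => rw [h2]
    simp only [map_add, map_sub, map_neg, map_smul, hH.jj]
    module
  rw [h3]
  have h4 : ∀ a b : L, fv B e (a - b) = fv B e a - fv B e b := by
    intro a b
    have : a - b = a + (-1 : ℝ) • b := by module
    rw [this, fv_add, fv_smul]
    module
  have h5 : ∀ a : L, fv B e (-a) = -fv B e a := by
    intro a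
    have : -a = (-1 : ℝ) • a := by module
    rw [this, fv_smul]
    module
  rw [fv_add, h4, fv_add, fv_add, h5, fv_smul, fv_smul, fv_smul, fv_smul, fv_ν he hH,
    fv_Jξ he hH, fv_X he hH, fv_JX he hH, TFm_apply]
  simp

theorem fv_ph (hH : Hf B J) (he : Fr B J X ν e) (q : L) :
    fv B e (phh B J ν q) = TFm B e J (fv B e q) := by
  unfold phh
  rw [fv_add, fv_smul, fv_ν he hH, smul_zero, add_zero, fv_Jq hH he]

/-- the inner product with a tangential horizontal vector -/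
theorem B_split (hH : Hf B J) (he : Fr B J X ν e) (u : L) {w : L} (hw : Hz B J X ν w) :
    B u w = inner ℝ (fv B e u) (fv B e w) + B u (J ν) * B w (J ν) := by
  have h := fv_inner hH he u w
  rw [hw.1, hw.2.1, hw.2.2] at h
  linarith

theorem jF_jj (hH : Hf B J) (he : Fr B J X ν e) (f : EuclideanSpace ℝ κ) :
    TFm B e J (TFm B e J f) = -f := by
  rw [TFm_apply (T := J) (f := f), ← fv_Jq hH he, hH.jj]
  have : -em e f = (-1 : ℝ) • em e f := by module
  rw [this, fv_smul, fv_em he]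
  module

theorem jF_inv (hH : Hf B J) (he : Fr B J X ν e) (f g : EuclideanSpace ℝ κ) :
    inner ℝ (TFm B e J f) (TFm B e J g) = inner ℝ f g := by
  have hf := em_hz he f
  have hg := em_hz he g
  have h1 : inner ℝ (fv B e (J (em e f))) (fv B e (J (em e g))) = B (em e f) (em e g) := by
    rw [fv_inner hH he, hH.inv, hH.inv, hH.inv, hH.inv, hH.inv, hH.skew _ X, hH.skew _ X,
      hf.1, hf.2.1, hH.skew _ ν, em_xi he, hf.2.2]
    ring
  have h2 := B_split hH he (em e f) hg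
  rw [em_xi he, fv_em he, fv_em he] at h2
  rw [TFm_apply, TFm_apply, h1, h2]
  ring

theorem TF_symm (hH : Hf B J) (hP : Pt B J X ν N) (hxx : B X X = -1) (lam : ℝ)
    (he : Fr B J X ν e) (f g : EuclideanSpace ℝ κ) :
    inner ℝ (TFm B e (Tm B J lam X ν N) f) g = inner ℝ f (TFm B e (Tm B J lam X ν N) g) := by
  have hf := em_hz he f
  have hg := em_hz he g
  have h1 := B_split hH he (Tm B J lam X ν N (em e f)) hg
  have h2 := B_split hH he (Tm B J lam X ν N (em e g)) hf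
  rw [em_xi he, fv_em he] at h1 h2
  have h3 := T_symm hH hP lam hf hg
  rw [h1, h2] at h3
  rw [TFm_apply, TFm_apply, real_inner_comm (fv B e _) f]
  linarith

theorem em_single (k : κ) : em e (EuclideanSpace.single k 1) = e (some k) := by
  unfold em
  rw [Finset.sum_eq_single k]
  · simp
  · intro l _ hl
    simp [hl]
  · intro h
    exact absurd (Finset.mem_univ k) h

theorem fv_e (he : Fr B J X ν e) (k : κ) :
    fv B e (e (some k)) = EuclideanSpace.single k 1 := by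
  rw [← em_single (e := e) k, fv_em he]

theorem norm_fv (q : L) : ‖fv B e q‖ ^ 2 = ∑ k, B q (e (some k)) ^ 2 := by
  rw [← real_inner_self_eq_norm_sq, PiLp.inner_apply]
  refine Finset.sum_congr rfl fun k _ => ?_
  simp [fv, pow_two]

/-- `|T|²` on `{X, J X, ν, ξ}^⊥` -/
noncomputable def TTs (TF : EuclideanSpace ℝ κ →ₗ[ℝ] EuclideanSpace ℝ κ) : ℝ :=
  ∑ k, ‖TF (EuclideanSpace.single k 1)‖ ^ 2

/-- `∑ ⟪j T e_k, T j e_k⟫` -/
noncomputable def TDf (jF TF : EuclideanSpace ℝ κ →ₗ[ℝ] EuclideanSpace ℝ κ) : ℝ :=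
  ∑ k, inner ℝ (jF (TF (EuclideanSpace.single k 1))) (TF (jF (EuclideanSpace.single k 1)))

theorem split_S2 (hH : Hf B J) (hP : Pt B J X ν N) (hxx : B X X = -1) (lam : ℝ)
    (he : Fr B J X ν e) :
    ∑ i, B (Tm B J lam X ν N (e i)) (Tm B J lam X ν N (e i)) =
      B (Tm B J lam X ν N (J ν)) (J ν) ^ 2 + 2 * ‖fv B e (Tm B J lam X ν N (J ν))‖ ^ 2 +
        TTs (TFm B e (Tm B J lam X ν N)) := by
  have hξ : Hz B J X ν (J ν) := hP.hz_xi hH
  have h1 := B_split hH he (Tm B J lam X ν N (J ν)) (T_hz hH hP hxx lam hξ)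
  rw [real_inner_self_eq_norm_sq] at h1
  have h2 : ∀ k, B (Tm B J lam X ν N (e (some k))) (Tm B J lam X ν N (e (some k))) =
      ‖TFm B e (Tm B J lam X ν N) (EuclideanSpace.single k 1)‖ ^ 2 +
        B (Tm B J lam X ν N (J ν)) (e (some k)) ^ 2 := by
    intro k
    have h3 := B_split hH he (Tm B J lam X ν N (e (some k))) (T_hz hH hP hxx lam (he.hz (some k)))
    rw [real_inner_self_eq_norm_sq] at h3
    rw [h3, TFm_apply, em_single, T_symm hH hP lam (he.hz (some k)) hξ]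
    ring
  rw [Fintype.sum_option, he.xi, h1, Finset.sum_congr rfl fun k _ => h2 k,
    Finset.sum_add_distrib, ← norm_fv]
  unfold TTs
  ring

theorem split_TD (hH : Hf B J) (hP : Pt B J X ν N) (hxx : B X X = -1) (lam : ℝ)
    (he : Fr B J X ν e) :
    TDs B J ν (Tm B J lam X ν N) e = TDf (TFm B e J) (TFm B e (Tm B J lam X ν N)) := by
  have hξ : Hz B J X ν (J ν) := hP.hz_xi hH
  unfold TDs TDf
  rw [Fintype.sum_option, he.xi, ph_xi hH hP, map_zero, map_zero, zero_add]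
  refine Finset.sum_congr rfl fun k _ => ?_
  have hk := he.hz (some k)
  have hT := T_hz hH hP hxx lam hk
  have hpk := hP.ph_hz hH hk
  rw [B_split hH he _ (T_hz hH hP hxx lam hpk), ph_none hH hT.2.2, zero_mul, add_zero,
    fv_ph hH he, fv_T he _ hpk, ph_none hH hk.2.2, zero_smul, zero_add, fv_ph hH he, fv_e he,
    TFm_apply (T := Tm B J lam X ν N) (f := EuclideanSpace.single k 1), em_single]

/-- the tangential horizontal part -/
noncomputable def hq (B : L →L[ℝ] L →L[ℝ] ℝ) (J : L →L[ℝ] L) (ν : L) (e : Option κ → L) (q : L) : L :=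
  B q (J ν) • J ν + em e (fv B e q)

theorem hq_hz (hH : Hf B J) (hP : Pt B J X ν N) (he : Fr B J X ν e) (q : L) :
    Hz B J X ν (hq B J ν e q) := by
  have hξ : Hz B J X ν (J ν) := hP.hz_xi hH
  have h2 := em_hz he (fv B e q)
  unfold hq
  refine ⟨?_, ?_, ?_⟩
  · rw [map_add, map_smul, add_apply, smul_apply, hξ.1, h2.1, smul_zero, add_zero]
  · rw [map_add, map_smul, add_apply, smul_apply, hξ.2.1, h2.2.1, smul_zero, add_zero]
  · rw [map_add, map_smul, add_apply, smul_apply, hξ.2.2, h2.2.2, smul_zero, add_zero]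

theorem hq_xi (hH : Hf B J) (hP : Pt B J X ν N) (he : Fr B J X ν e) (q : L) :
    B (hq B J ν e q) (J ν) = B q (J ν) := by
  unfold hq
  rw [map_add, map_smul, add_apply, smul_apply, em_xi he, hH.inv, hP.nn, smul_eq_mul]
  ring

theorem hq_fv (hH : Hf B J) (hP : Pt B J X ν N) (he : Fr B J X ν e) (q : L) :
    fv B e (hq B J ν e q) = fv B e q := by
  unfold hq
  rw [fv_add, fv_smul, fv_Jξ he hH, fv_em he, smul_zero, zero_add]

theorem hq_test (hH : Hf B J) (hP : Pt B J X ν N) (he : Fr B J X ν e) (q : L) {w : L}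
    (hw : Hz B J X ν w) : B q w = B (hq B J ν e q) w := by
  rw [B_split hH he q hw, B_split hH he (hq B J ν e q) hw, hq_xi hH hP he, hq_fv hH hP he]

theorem pT_test (hH : Hf B J) (hP : Pt B J X ν N) (hxx : B X X = -1) (lam : ℝ)
    (he : Fr B J X ν e) (q : L) {w : L} (hw : Hz B J X ν w) :
    B q (Tm B J lam X ν N w) = B (Tm B J lam X ν N (hq B J ν e q)) w := by
  rw [hq_test hH hP he q (T_hz hH hP hxx lam hw), hH.symm, T_symm hH hP lam hw (hq_hz hH hP he q)]

theorem pT_ph (hH : Hf B J) (hP : Pt B J X ν N) (hxx : B X X = -1) (lam : ℝ)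
    (he : Fr B J X ν e) (q : L) {w : L} (hw : Hz B J X ν w) :
    B q (phh B J ν (Tm B J lam X ν N (phh B J ν w))) =
      B (phh B J ν (Tm B J lam X ν N (phh B J ν (hq B J ν e q)))) w := by
  have hh := hq_hz hH hP he q
  have hph := hP.ph_hz hH hh
  have hpw := hP.ph_hz hH hw
  have hT1 := T_hz hH hP hxx lam hpw
  have hT2 := T_hz hH hP hxx lam hph
  rw [hq_test hH hP he q (hP.ph_hz hH hT1), ph_skew hH hT2.2.2 hw.2.2,
    T_symm hH hP lam hph hpw]
  have h1 := ph_skew hH hh.2.2 hT1.2.2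
  rw [hH.symm (Tm B J lam X ν N (phh B J ν w)), h1]
  ring

/-- the right side of `point_id3` in coordinates -/
theorem point_split3 (hH : Hf B J) (hP : Pt B J X ν N) (hxx : B X X = -1) {lam m : ℝ}
    (he : Fr B J X ν e) (p : L) :
    (m / 2 + 1) * lam ^ 2 * Pc B J lam p X ν *
        (∑ i, (B p (Tm B J lam X ν N (e i)) ^ 2 + B (J p) (Tm B J lam X ν N (e i)) ^ 2) +
        Aa B J lam p X ν * ∑ i, B (Tm B J lam X ν N (e i)) (Tm B J lam X ν N (e i))) +
      (m / 2 + 1) * lam ^ 2 * (lam ^ 2 - 1) *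
        B (Tm B J lam X ν N (Wd B J lam p X ν)) (Tm B J lam X ν N (Wd B J lam p X ν)) +
      lam ^ 2 * lam * (B p X * B (J p) (Tm B J lam X ν N (Tm B J lam X ν N (J ν))) -
        B (J p) X * B p (Tm B J lam X ν N (Tm B J lam X ν N (J ν)))) -
      lc B J lam p X ν * (TDs B J ν (Tm B J lam X ν N) e +
        B (Tm B J lam X ν N (J ν)) (Tm B J lam X ν N (J ν))) +
      B (Tm B J lam X ν N (Wd B J lam p X ν)) (phh B J ν (Tm B J lam X ν N (J ν))) *
        ((lam ^ 2 - 1) * Aa B J lam p X ν - rh B J lam p X ν) -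
      bt B J lam p X ν * (lam ^ 2 - 1) *
        (B p ν * B p (Tm B J lam X ν N (phh B J ν (Tm B J lam X ν N (J ν)))) +
        B (J p) ν * B (J p) (Tm B J lam X ν N (phh B J ν (Tm B J lam X ν N (J ν)))) +
        B (Tm B J lam X ν N (Wd B J lam p X ν)) (phh B J ν (Tm B J lam X ν N (J ν)))) -
      2 * bt B J lam p X ν *
        B (Tm B J lam X ν N (Wd B J lam p X ν)) (phh B J ν (Tm B J lam X ν N (J ν))) -
      Pc B J lam p X ν *
        (∑ i, (B p (Tm B J lam X ν N (e i)) *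
            B p (phh B J ν (Tm B J lam X ν N (phh B J ν (e i)))) +
          B (J p) (Tm B J lam X ν N (e i)) *
            B (J p) (phh B J ν (Tm B J lam X ν N (phh B J ν (e i))))) -
        Aa B J lam p X ν * TDs B J ν (Tm B J lam X ν N) e -
        B (Tm B J lam X ν N (Wd B J lam p X ν)) (phh B J ν (Tm B J lam X ν N (J ν))) -
        B (Tm B J lam X ν N (phh B J ν (Wd B J lam p X ν))) (Tm B J lam X ν N (J ν))) -
      (lam ^ 2 - 1) * B (Tm B J lam X ν N (Wd B J lam p X ν))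
        (phh B J ν (Tm B J lam X ν N (phh B J ν (Wd B J lam p X ν)))) +
      lam ^ 2 * bt B J lam p X ν *
        (3 * B (J (Tm B J lam X ν N (J ν))) (Tm B J lam X ν N (Wd B J lam p X ν)) +
        (B p (Tm B J lam X ν N (J ν)) ^ 2 + B (J p) (Tm B J lam X ν N (J ν)) ^ 2) +
        Aa B J lam p X ν * B (Tm B J lam X ν N (J ν)) (Tm B J lam X ν N (J ν)) -
        B (Tm B J lam X ν N (J ν)) (J ν) *
          ∑ i, (B p (Tm B J lam X ν N (e i)) * B p (e i) +
            B (J p) (Tm B J lam X ν N (e i)) * B (J p) (e i))) +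
      lam ^ 2 * (B (Tm B J lam X ν N (J ν)) (Wd B J lam p X ν) ^ 2 -
        B (Tm B J lam X ν N (J ν)) (J ν) *
          B (Tm B J lam X ν N (Wd B J lam p X ν)) (Wd B J lam p X ν)) =
    R3g (TFm B e J) (m / 2 + 1) (lam ^ 2) (lam ^ 2 - 1) (Aa B J lam p X ν) (bt B J lam p X ν)
      (Pc B J lam p X ν) (rh B J lam p X ν) (B p ν) (B (J p) ν) (B p ν - lam * B p X)
      (B (J p) ν - lam * B (J p) X) (B (Tm B J lam X ν N (J ν)) (J ν))
      (TTs (TFm B e (Tm B J lam X ν N))) (TDf (TFm B e J) (TFm B e (Tm B J lam X ν N)))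
      (fv B e p) (fv B e (Tm B J lam X ν N (J ν))) (TFm B e (Tm B J lam X ν N) (fv B e p))
      (TFm B e (Tm B J lam X ν N) (TFm B e J (fv B e p))) := by
  have hξ : Hz B J X ν (J ν) := hP.hz_xi hH
  have hT : Hz B J X ν (Tm B J lam X ν N (J ν)) := T_hz hH hP hxx lam hξ
  have hW : Hz B J X ν (Wd B J lam p X ν) := W_hz hH hP hxx lam p
  have hTW : Hz B J X ν (Tm B J lam X ν N (Wd B J lam p X ν)) := T_hz hH hP hxx lam hW
  have hpT : Hz B J X ν (phh B J ν (Tm B J lam X ν N (J ν))) := hP.ph_hz hH hT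
  have hpW : Hz B J X ν (phh B J ν (Wd B J lam p X ν)) := hP.ph_hz hH hW
  have hTpW := T_hz hH hP hxx lam hpW
  have hpp := hP.ph_hz hH hTpW
  have hpx : B p (J ν) = -B (J p) ν := by
    have := hH.skew p ν
    linarith
  have hjpx : B (J p) (J ν) = B p ν := hH.inv p ν
  have hPh := hq_hz hH hP he p
  have hPh' := hq_hz hH hP he (J p)
  have Thz : ∀ Q, Hz B J X ν Q → Hz B J X ν (Tm B J lam X ν N Q) := fun Q hQ =>
    T_hz hH hP hxx lam hQ
  have Tsy : ∀ Q R, Hz B J X ν Q → Hz B J X ν R →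
      B (Tm B J lam X ν N Q) R = B (Tm B J lam X ν N R) Q := fun Q R hQ hR =>
    T_symm hH hP lam hQ hR
  have pT : ∀ q w, Hz B J X ν w →
      B q (Tm B J lam X ν N w) = B (Tm B J lam X ν N (hq B J ν e q)) w := fun q w hw =>
    pT_test hH hP hxx lam he q hw
  have pTp : ∀ q w, Hz B J X ν w → B q (phh B J ν (Tm B J lam X ν N (phh B J ν w))) =
      B (phh B J ν (Tm B J lam X ν N (phh B J ν (hq B J ν e q)))) w := fun q w hw =>
    pT_ph hH hP hxx lam he q hw
  have S2 := split_S2 hH hP hxx lam he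
  have ST := split_TD hH hP hxx lam he
  have jsk0 : ∀ f g, inner ℝ (TFm B e J f) (TFm B e J g) = inner ℝ f g := jF_inv hH he
  have hjj0 : ∀ f, TFm B e J (TFm B e J f) = -f := jF_jj hH he
  have hfp : ∀ q, fv B e (phh B J ν q) = TFm B e J (fv B e q) := fv_ph hH he
  have hfJ : ∀ q, fv B e (J q) = TFm B e J (fv B e q) := fv_Jq hH he
  have hWt : ∀ u, Hz B J X ν u → B (Wd B J lam p X ν) u =
      (B p ν - lam * B p X) * B p u + (B (J p) ν - lam * B (J p) X) * B (J p) u := fun u hu =>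
    W_test hH lam p hu
  -- the coordinates of the vectors
  generalize hTT : Tm B J lam X ν N = T at *
  generalize hj : TFm B e J = j at *
  obtain ⟨v, hv⟩ : ∃ v, v = fv B e p := ⟨_, rfl⟩
  obtain ⟨b, hb⟩ : ∃ b, b = fv B e (T (J ν)) := ⟨_, rfl⟩
  obtain ⟨x, hx⟩ : ∃ x, x = TFm B e T v := ⟨_, rfl⟩
  obtain ⟨y, hy⟩ : ∃ y, y = TFm B e T (j v) := ⟨_, rfl⟩
  generalize hWW : Wd B J lam p X ν = W at *
  rw [← hv, ← hb, ← hx, ← hy]
  obtain ⟨s1, hs1⟩ : ∃ s1, s1 = B p ν := ⟨_, rfl⟩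
  obtain ⟨s2, hs2⟩ : ∃ s2, s2 = B (J p) ν := ⟨_, rfl⟩
  obtain ⟨a1, ha1⟩ : ∃ a1, a1 = s1 - lam * B p X := ⟨_, rfl⟩
  obtain ⟨a2, ha2⟩ : ∃ a2, a2 = s2 - lam * B (J p) X := ⟨_, rfl⟩
  rw [← hs2] at hpx
  rw [← hs1] at hjpx
  rw [← hs1, ← hs2, ← ha1, ← ha2] at hWt
  rw [← hs1, ← hs2, ← ha1, ← ha2]
  obtain ⟨τ, hτ⟩ : ∃ τ, τ = B (T (J ν)) (J ν) := ⟨_, rfl⟩
  rw [← hτ] at S2 ⊢
  rw [← hb] at S2
  have fvT : ∀ q, Hz B J X ν q → fv B e (T q) = B q (J ν) • b + TFm B e T (fv B e q) := by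
    intro q hq
    rw [hb]
    exact fv_T he T hq
  have Txi : ∀ q, Hz B J X ν q → B (T q) (J ν) = B q (J ν) * τ + inner ℝ b (fv B e q) := by
    intro q hq
    rw [Tsy q (J ν) hq hξ, B_split hH he (T (J ν)) hq, ← hb, ← hτ]
    ring
  have fJp : fv B e (J p) = j v := by rw [hfJ, ← hv]
  have k1 : fv B e (T (hq B J ν e p)) = x - s2 • b := by
    rw [fvT _ hPh, hq_xi hH hP he, hq_fv hH hP he, hpx, ← hv, ← hx]
    module
  have k2 : fv B e (T (hq B J ν e (J p))) = y + s1 • b := by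
    rw [fvT _ hPh', hq_xi hH hP he, hq_fv hH hP he, hjpx, fJp, ← hy]
    module
  have k3 : B (T (hq B J ν e p)) (J ν) = -(τ * s2) + inner ℝ v b := by
    rw [Txi _ hPh, hq_xi hH hP he, hq_fv hH hP he, hpx, ← hv, real_inner_comm]
    ring
  have k4 : B (T (hq B J ν e (J p))) (J ν) = τ * s1 + inner ℝ (j v) b := by
    rw [Txi _ hPh', hq_xi hH hP he, hq_fv hH hP he, hjpx, fJp, real_inner_comm]
    ring
  have fvW : fv B e W = a1 • v + a2 • j v := by
    rw [hv, ← hfJ]
    unfold fv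
    ext k
    simp only [PiLp.add_apply, PiLp.smul_apply, smul_eq_mul]
    exact hWt _ (he.hz _)
  have Wxi : B W (J ν) = a2 * s1 - a1 * s2 := by
    rw [hWt _ hξ, hpx, hjpx]
    ring
  have k5 : fv B e (T W) = (a2 * s1 - a1 * s2) • b + (a1 • x + a2 • y) := by
    rw [fvT _ hW, Wxi, fvW, map_add, map_smul, map_smul, ← hx, ← hy]
  have k6 : B (T W) (J ν) = (a2 * s1 - a1 * s2) * τ + inner ℝ b (a1 • v + a2 • j v) := by
    rw [Txi _ hW, Wxi, fvW]
  have jw : j (a1 • v + a2 • j v) = a1 • j v - a2 • v := by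
    rw [map_add, map_smul, map_smul, hjj0]
    module
  have k7 : fv B e (T (phh B J ν W)) = a1 • y - a2 • x := by
    rw [fvT _ hpW, ph_none hH hW.2.2, hfp, fvW, jw, map_sub, map_smul, map_smul, ← hx, ← hy]
    module
  have k8 : B (T (phh B J ν W)) (J ν) = inner ℝ b (a1 • j v - a2 • v) := by
    rw [Txi _ hpW, ph_none hH hW.2.2, hfp, fvW, jw]
    ring
  -- the values
  have par : ∀ w u, Hz B J X ν w → ∑ i, B w (e i) * B u (e i) = B w u := fun w u hw =>
    he.parseval hH hw u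
  have nn : ∀ w, Hz B J X ν w → B w w = B w (J ν) ^ 2 + ‖fv B e w‖ ^ 2 := by
    intro w hw
    rw [B_split hH he w hw, real_inner_self_eq_norm_sq]
    ring
  have V1 : ∑ i, (B p (T (e i)) ^ 2 + B (J p) (T (e i)) ^ 2) =
      ((-(τ * s2) + inner ℝ v b) ^ 2 + (τ * s1 + inner ℝ (j v) b) ^ 2) +
        (‖x - s2 • b‖ ^ 2 + ‖y + s1 • b‖ ^ 2) := by
    have h1 : ∀ i, B p (T (e i)) ^ 2 + B (J p) (T (e i)) ^ 2 =
        B (T (hq B J ν e p)) (e i) * B (T (hq B J ν e p)) (e i) +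
          B (T (hq B J ν e (J p))) (e i) * B (T (hq B J ν e (J p))) (e i) := by
      intro i
      rw [pT p _ (he.hz i), pT (J p) _ (he.hz i)]
      ring
    rw [Finset.sum_congr rfl fun i _ => h1 i, Finset.sum_add_distrib, par _ _ (Thz _ hPh),
      par _ _ (Thz _ hPh'), nn _ (Thz _ hPh), nn _ (Thz _ hPh'), k1, k2, k3, k4]
    ring
  have V3 : B (T W) (T W) = ((a2 * s1 - a1 * s2) * τ + inner ℝ b (a1 • v + a2 • j v)) ^ 2 +
      ‖(a2 * s1 - a1 * s2) • b + (a1 • x + a2 • y)‖ ^ 2 := by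
    rw [nn _ hTW, k6, k5]
  have V4 : B (J p) (T (T (J ν))) = inner ℝ (y + s1 • b) b +
      (τ * s1 + inner ℝ (j v) b) * τ := by
    rw [pT _ _ hT, B_split hH he _ hT, k2, k4, ← hb, ← hτ]
  have V5 : B p (T (T (J ν))) = inner ℝ (x - s2 • b) b +
      (-(τ * s2) + inner ℝ v b) * τ := by
    rw [pT _ _ hT, B_split hH he _ hT, k1, k3, ← hb, ← hτ]
  have V6 : B (T (J ν)) (T (J ν)) = τ ^ 2 + ‖b‖ ^ 2 := by
    rw [nn _ hT, ← hb, ← hτ]
  have V7 : B (T W) (phh B J ν (T (J ν))) =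
      inner ℝ ((a2 * s1 - a1 * s2) • b + (a1 • x + a2 • y)) (j b) := by
    rw [B_split hH he _ hpT, ph_none hH hT.2.2, k5, hfp, ← hb]
    ring
  have V8 : B p (T (phh B J ν (T (J ν)))) = inner ℝ (x - s2 • b) (j b) := by
    rw [pT _ _ hpT, B_split hH he _ hpT, ph_none hH hT.2.2, k1, hfp, ← hb]
    ring
  have V9 : B (J p) (T (phh B J ν (T (J ν)))) = inner ℝ (y + s1 • b) (j b) := by
    rw [pT _ _ hpT, B_split hH he _ hpT, ph_none hH hT.2.2, k2, hfp, ← hb]
    ring
  have V10 : ∑ i, (B p (T (e i)) * B p (phh B J ν (T (phh B J ν (e i)))) +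
      B (J p) (T (e i)) * B (J p) (phh B J ν (T (phh B J ν (e i))))) =
      inner ℝ (x - s2 • b) (j y) - inner ℝ (y + s1 • b) (j x) := by
    have h1 : ∀ i, B p (T (e i)) * B p (phh B J ν (T (phh B J ν (e i)))) +
        B (J p) (T (e i)) * B (J p) (phh B J ν (T (phh B J ν (e i)))) =
        B (T (hq B J ν e p)) (e i) * B (phh B J ν (T (phh B J ν (hq B J ν e p)))) (e i) +
          B (T (hq B J ν e (J p))) (e i) *
            B (phh B J ν (T (phh B J ν (hq B J ν e (J p))))) (e i) := by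
      intro i
      rw [pT p _ (he.hz i), pT (J p) _ (he.hz i), pTp p _ (he.hz i), pTp (J p) _ (he.hz i)]
    have hp1 := hP.ph_hz hH hPh
    have hp2 := hP.ph_hz hH hPh'
    have h2 : fv B e (phh B J ν (T (phh B J ν (hq B J ν e p)))) = j y := by
      rw [hfp, fvT _ hp1, ph_none hH hPh.2.2, hfp, hq_fv hH hP he, ← hv, ← hy]
      rw [zero_smul, zero_add]
    have h3 : fv B e (phh B J ν (T (phh B J ν (hq B J ν e (J p))))) = -(j x) := by
      rw [hfp, fvT _ hp2, ph_none hH hPh'.2.2, hfp, hq_fv hH hP he, fJp, hjj0, map_neg, ← hx]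
      rw [zero_smul, zero_add, map_neg]
    rw [Finset.sum_congr rfl fun i _ => h1 i, Finset.sum_add_distrib, par _ _ (Thz _ hPh),
      par _ _ (Thz _ hPh'), B_split hH he _ (hP.ph_hz hH (Thz _ hp1)),
      B_split hH he _ (hP.ph_hz hH (Thz _ hp2)), ph_none hH (Thz _ hp1).2.2,
      ph_none hH (Thz _ hp2).2.2, h2, h3, k1, k2, inner_neg_right]
    ring
  have V11 : B (T (phh B J ν W)) (T (J ν)) = inner ℝ (a1 • y - a2 • x) b +
      inner ℝ b (a1 • j v - a2 • v) * τ := by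
    rw [B_split hH he _ hT, k7, k8, ← hb, ← hτ]
  have V12 : B (T W) (phh B J ν (T (phh B J ν W))) =
      inner ℝ ((a2 * s1 - a1 * s2) • b + (a1 • x + a2 • y)) (j (a1 • y - a2 • x)) := by
    rw [B_split hH he _ hpp, ph_none hH hTpW.2.2, k5, hfp, k7]
    ring
  have V13 : B (J (T (J ν))) (T W) =
      inner ℝ (j b) ((a2 * s1 - a1 * s2) • b + (a1 • x + a2 • y)) := by
    rw [B_split hH he _ hTW, hH.inv, hT.2.2, k5, hfJ, ← hb]
    ring
  have V14 : B p (T (J ν)) = -(τ * s2) + inner ℝ v b := by rw [pT _ _ hξ, k3]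
  have V15 : B (J p) (T (J ν)) = τ * s1 + inner ℝ (j v) b := by rw [pT _ _ hξ, k4]
  have V16 : ∑ i, (B p (T (e i)) * B p (e i) + B (J p) (T (e i)) * B (J p) (e i)) =
      inner ℝ (x - s2 • b) v + (-(τ * s2) + inner ℝ v b) * (-s2) +
        (inner ℝ (y + s1 • b) (j v) + (τ * s1 + inner ℝ (j v) b) * s1) := by
    have h1 : ∀ i, B p (T (e i)) * B p (e i) + B (J p) (T (e i)) * B (J p) (e i) =
        B (T (hq B J ν e p)) (e i) * B p (e i) +
          B (T (hq B J ν e (J p))) (e i) * B (J p) (e i) := by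
      intro i
      rw [pT p _ (he.hz i), pT (J p) _ (he.hz i)]
    rw [Finset.sum_congr rfl fun i _ => h1 i, Finset.sum_add_distrib, par _ _ (Thz _ hPh),
      par _ _ (Thz _ hPh'), hH.symm _ p, hH.symm _ (J p), pT _ _ hPh, pT _ _ hPh',
      B_split hH he _ hPh, B_split hH he _ hPh', hq_xi hH hP he, hq_xi hH hP he, hq_fv hH hP he,
      hq_fv hH hP he, k1, k2, k3, k4, hpx, hjpx, fJp, ← hv]
  have V17 : B (T (J ν)) W = (a2 * s1 - a1 * s2) * τ + inner ℝ b (a1 • v + a2 • j v) := by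
    rw [Tsy _ _ hξ hW, k6]
  have V18 : B (T W) W = inner ℝ ((a2 * s1 - a1 * s2) • b + (a1 • x + a2 • y))
      (a1 • v + a2 • j v) +
      ((a2 * s1 - a1 * s2) * τ + inner ℝ b (a1 • v + a2 • j v)) * (a2 * s1 - a1 * s2) := by
    rw [B_split hH he _ hW, k5, k6, fvW, Wxi]
  have hl1 : lam * B p X = s1 - a1 := by rw [ha1]; ring
  have hl2 : lam * B (J p) X = s2 - a2 := by rw [ha2]; ring
  have hlc : lc B J lam p X ν = bt B J lam p X ν *
      ((lam ^ 2 - 1) * Aa B J lam p X ν - rh B J lam p X ν) := rfl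
  have jsk : ∀ f g, inner ℝ (j f) g = -inner ℝ f (j g) := by
    intro f g
    have h := jsk0 f (j g)
    rw [hjj0, inner_neg_right] at h
    linarith
  have j0 : ∀ f, inner ℝ f (j f) = 0 := by
    intro f
    have h := jsk f f
    rw [real_inner_comm] at h
    linarith
  have sw : ∀ f g : EuclideanSpace ℝ κ, inner ℝ g (j f) = -inner ℝ f (j g) := by
    intro f g
    rw [← jsk, real_inner_comm]
  have c1 : inner ℝ b v = inner ℝ v b := real_inner_comm _ _
  have c2 : inner ℝ x v = inner ℝ v x := real_inner_comm _ _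
  have c3 : inner ℝ y v = inner ℝ v y := real_inner_comm _ _
  have c4 : inner ℝ x b = inner ℝ b x := real_inner_comm _ _
  have c5 : inner ℝ y b = inner ℝ b y := real_inner_comm _ _
  have d1 : inner ℝ b (j v) = -inner ℝ v (j b) := sw _ _
  have d2 : inner ℝ x (j v) = -inner ℝ v (j x) := sw _ _
  have d3 : inner ℝ y (j v) = -inner ℝ v (j y) := sw _ _
  have d4 : inner ℝ x (j b) = -inner ℝ b (j x) := sw _ _
  have d5 : inner ℝ y (j b) = -inner ℝ b (j y) := sw _ _
  have d6 : inner ℝ y (j x) = -inner ℝ x (j y) := sw _ _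
  have g1 : inner ℝ b b = ‖b‖ ^ 2 := real_inner_self_eq_norm_sq b
  rw [V1, S2, V3, V4, V5, ST, V6, V7, V8, V9, V10, V11, V12, V13, V14, V15, V16, V17, V18, hlc]
  unfold R3g
  simp only [map_add, map_sub, map_smul, inner_add_left, inner_add_right,
    inner_sub_left, inner_sub_right, real_inner_smul_left, real_inner_smul_right,
    jsk, j0, c1, c2, c3, c4, c5, d1, d2, d3, d4, d5, d6, g1]
  linear_combination (lam ^ 2 * (inner ℝ b y + s1 * ‖b‖ ^ 2 +
      (τ * s1 + -inner ℝ v (j b)) * τ)) * hl1 -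
    (lam ^ 2 * (inner ℝ b x - s2 * ‖b‖ ^ 2 + (-(τ * s2) + inner ℝ v b) * τ)) * hl2

private theorem bess {F : Type*} [NormedAddCommGroup F] [InnerProductSpace ℝ F] (j : F →ₗ[ℝ] F)
    (hj : ∀ a b, inner ℝ (j a) (j b) = inner ℝ a b) (hjj : ∀ a, j (j a) = -a) (v b : F) :
    inner ℝ v b ^ 2 + inner ℝ (j v) b ^ 2 ≤ ‖v‖ ^ 2 * ‖b‖ ^ 2 := by
  have jsk : ∀ a b : F, inner ℝ (j a) b = -inner ℝ a (j b) := by
    intro a b
    have h := hj a (j b)
    rw [hjj, inner_neg_right] at h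
    linarith
  have j0 : ∀ a : F, inner ℝ a (j a) = 0 := by
    intro a
    have h := jsk a a
    rw [real_inner_comm] at h
    linarith
  have jn : ∀ a : F, ‖j a‖ ^ 2 = ‖a‖ ^ 2 := by
    intro a
    rw [← real_inner_self_eq_norm_sq, hj, real_inner_self_eq_norm_sq]
  rcases eq_or_ne v 0 with hv | hv
  · rw [hv]
    simp
  · have hv2 : 0 < ‖v‖ ^ 2 := by
      have := norm_pos_iff.2 hv
      positivity
    have h3 : 0 ≤ ‖‖v‖ ^ 2 • b - inner ℝ v b • v - inner ℝ (j v) b • j v‖ ^ 2 := sq_nonneg _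
    rw [← real_inner_self_eq_norm_sq] at h3
    simp only [inner_sub_left, inner_sub_right, real_inner_smul_left, real_inner_smul_right] at h3
    have e0 : inner ℝ (j v) v = 0 := by rw [real_inner_comm]; exact j0 v
    rw [real_inner_self_eq_norm_sq, real_inner_self_eq_norm_sq, hj, real_inner_self_eq_norm_sq,
      j0 v, e0, real_inner_comm v b, real_inner_comm (j v) b] at h3
    have h4 : 0 ≤ ‖v‖ ^ 2 * (‖v‖ ^ 2 * ‖b‖ ^ 2 - (inner ℝ v b ^ 2 + inner ℝ (j v) b ^ 2)) := by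
      refine le_of_le_of_eq h3 ?_
      ring
    have h5 := nonneg_of_mul_nonneg_right h4 hv2
    linarith

private theorem nsq (f : EuclideanSpace ℝ κ) :
    ‖f‖ ^ 2 = ∑ l, inner ℝ f (EuclideanSpace.single l 1) ^ 2 := by
  rw [← real_inner_self_eq_norm_sq, PiLp.inner_apply]
  refine Finset.sum_congr rfl fun l _ => ?_
  have h : inner ℝ f (EuclideanSpace.single l 1) = f l := by
    rw [← real_inner_comm, EuclideanSpace.inner_single_left]
    simp
  rw [h]
  simp [pow_two]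

/-- the bound for the part of `T` which commutes (`ε = 1`) or anticommutes (`ε = -1`) with `j` -/
theorem Tpm (j TF : EuclideanSpace ℝ κ →ₗ[ℝ] EuclideanSpace ℝ κ)
    (hj : ∀ a b, inner ℝ (j a) (j b) = inner ℝ a b) (hjj : ∀ a, j (j a) = -a)
    (hT : ∀ f g, inner ℝ (TF f) g = inner ℝ f (TF g)) {ε : ℝ} (hε : ε ^ 2 = 1)
    (v : EuclideanSpace ℝ κ) :
    ‖TF v - ε • j (TF (j v))‖ ^ 2 ≤ ‖v‖ ^ 2 * (TTs TF + ε * TDf j TF) ∧
      0 ≤ TTs TF + ε * TDf j TF := by
  have jsk : ∀ a b : EuclideanSpace ℝ κ, inner ℝ (j a) b = -inner ℝ a (j b) := by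
    intro a b
    have h := hj a (j b)
    rw [hjj, inner_neg_right] at h
    linarith
  have jn : ∀ a : EuclideanSpace ℝ κ, ‖j a‖ ^ 2 = ‖a‖ ^ 2 := by
    intro a
    rw [← real_inner_self_eq_norm_sq, hj, real_inner_self_eq_norm_sq]
  obtain ⟨U, hU⟩ : ∃ U : EuclideanSpace ℝ κ → EuclideanSpace ℝ κ,
    U = fun f => TF f - ε • j (TF (j f)) := ⟨_, rfl⟩
  have hUa : ∀ f, U f = TF f - ε • j (TF (j f)) := fun f => by rw [hU]
  have hUs : ∀ f g, inner ℝ (U f) g = inner ℝ f (U g) := by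
    intro f g
    rw [hUa, hUa, inner_sub_left, inner_sub_right, real_inner_smul_left, real_inner_smul_right,
      jsk, hT, hT, jsk]
    ring
  have hUj : ∀ f, ‖U (j f)‖ ^ 2 = ‖U f‖ ^ 2 := by
    intro f
    have h1 : U (j f) = ε • j (U f) := by
      rw [hUa, hUa, hjj, map_neg, map_neg, map_sub, map_smul, hjj, smul_sub, smul_smul,
        ← pow_two, hε, one_smul]
      module
    rw [h1, norm_smul, mul_pow, Real.norm_eq_abs, sq_abs, hε, jn, one_mul]
  -- the sum of the squares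
  have hS : ∑ l, ‖U (EuclideanSpace.single l 1)‖ ^ 2 = 2 * (TTs TF + ε * TDf j TF) := by
    have h1 : ∀ l : κ, ‖U (EuclideanSpace.single l 1)‖ ^ 2 = ‖TF (EuclideanSpace.single l 1)‖ ^ 2 +
        ‖TF (j (EuclideanSpace.single l 1))‖ ^ 2 + 2 * ε *
          inner ℝ (j (TF (EuclideanSpace.single l 1))) (TF (j (EuclideanSpace.single l 1))) := by
      intro l
      rw [hUa, norm_sub_sq_real, norm_smul, mul_pow, Real.norm_eq_abs, sq_abs, hε, jn,
        real_inner_smul_right, jsk (TF _)]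
      ring
    have h2 : ∑ l : κ, ‖TF (j (EuclideanSpace.single l 1))‖ ^ 2 = TTs TF := by
      have h3 : ∀ l : κ, ‖TF (j (EuclideanSpace.single l 1))‖ ^ 2 =
          ∑ k, inner ℝ (j (TF (EuclideanSpace.single k 1))) (EuclideanSpace.single l 1) ^ 2 := by
        intro l
        rw [nsq]
        refine Finset.sum_congr rfl fun k _ => ?_
        rw [hT, jsk, real_inner_comm]
        ring
      rw [Finset.sum_congr rfl fun l _ => h3 l, Finset.sum_comm]
      unfold TTs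
      refine Finset.sum_congr rfl fun k _ => ?_
      rw [← nsq, jn]
    rw [Finset.sum_congr rfl fun l _ => h1 l, Finset.sum_add_distrib, Finset.sum_add_distrib, h2,
      ← Finset.mul_sum]
    unfold TTs TDf
    ring
  have hpos : 0 ≤ ∑ l : κ, ‖U (EuclideanSpace.single l 1)‖ ^ 2 :=
    Finset.sum_nonneg fun l _ => sq_nonneg _
  refine ⟨?_, by linarith⟩
  rw [← hUa v]
  have h4 : ‖U v‖ ^ 2 + ‖U (j v)‖ ^ 2 ≤ ‖v‖ ^ 2 * ∑ l : κ, ‖U (EuclideanSpace.single l 1)‖ ^ 2 := by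
    rw [nsq (U v), nsq (U (j v)), ← Finset.sum_add_distrib, Finset.mul_sum]
    refine Finset.sum_le_sum fun l _ => ?_
    rw [hUs, hUs]
    exact bess j hj hjj v _
  rw [hUj, hS] at h4
  linarith

/-- the sign of the trace of the derivative of the second field -/
theorem point_pos3 (hH : Hf B J) (hP : Pt B J X ν N) (hxx : B X X = -1) {lam m : ℝ}
    (hlam : 1 < lam) (hm : 2 ≤ m) {N2 : L →L[ℝ] L →L[ℝ] L} (he : Fr B J X ν e)
    (hJ : Jt B J lam m X ν N N2 e) (hN2 : ∀ u v, B (N2 u v) ν = -B (N v) (N u)) (p : L)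
    (hp : B p p = -1)
    (hM : (B p X - B p ν) ^ 2 + (B (J p) X - B (J p) ν) ^ 2 ≤ 1) :
    0 ≤ ∑ i, B (dV3 B J lam m p X ν N (e i) (N (e i)) (N2 (e i))) (e i) ∧
    (∑ i, B (dV3 B J lam m p X ν N (e i) (N (e i)) (N2 (e i))) (e i) = 0 →
      p ≠ -(B p X • X) - B p (J X) • J X →
      ∀ w, Hz B J X ν w → Tm B J lam X ν N w = 0) := by
  have hlam0 : lam ≠ 0 := by positivity
  have hξ : Hz B J X ν (J ν) := hP.hz_xi hH
  have hq : B p X ^ 2 + B (J p) X ^ 2 = 1 + (B p ν ^ 2 + B (J p) ν ^ 2) + ‖fv B e p‖ ^ 2 := by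
    have h1 := fv_inner hH he p p
    rw [real_inner_self_eq_norm_sq] at h1
    have h2 : B p (J X) = -B (J p) X := by rw [hH.skew p X, neg_neg]
    have h3 : B p (J ν) = -B (J p) ν := by rw [hH.skew p ν, neg_neg]
    rw [h2, h3, hp] at h1
    rw [h1]
    ring
  have jF1 := jF_inv hH he
  have jF2 := jF_jj hH he
  have TFs := TF_symm hH hP hxx lam he
  obtain ⟨b1, p1⟩ := Tpm (TFm B e J) (TFm B e (Tm B J lam X ν N)) jF1 jF2 TFs (ε := 1)
    (by norm_num) (fv B e p)
  obtain ⟨b2, p2⟩ := Tpm (TFm B e J) (TFm B e (Tm B J lam X ν N)) jF1 jF2 TFs (ε := -1)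
    (by norm_num) (fv B e p)
  rw [one_smul, one_mul] at b1
  rw [one_mul] at p1
  rw [neg_smul, one_smul, sub_neg_eq_add, neg_one_mul, ← sub_eq_add_neg] at b2
  rw [neg_one_mul, ← sub_eq_add_neg] at p2
  have hS := (point_id3 hH hP hxx hlam0 he hJ hN2 p).trans (point_split3 hH hP hxx he p)
  rcases le_or_gt (Aa B J lam p X ν) 0 with hA | hA
  · have h0 := R3g_zero (TFm B e J) jF1 jF2 (m := m) (z1 := B p X) (z2 := B (J p) X)
      (s1 := B p ν) (s2 := B (J p) ν) (A := Aa B J lam p X ν) (β := bt B J lam p X ν)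
      (P := Pc B J lam p X ν) (ρ := rh B J lam p X ν) (τ := B (Tm B J lam X ν N (J ν)) (J ν))
      (b := fv B e (Tm B J lam X ν N (J ν))) hlam hq hM hA rfl rfl rfl b1 b2
    obtain ⟨h1, h2, h3, -⟩ := R3g_degen hlam hq hM rfl hA
    rw [hS, h0]
    refine ⟨le_refl _, fun _ hne => absurd ?_ hne⟩
    have h4 := he.comp p
    rw [Fintype.sum_option, he.xi] at h4
    have h5 : B p (J ν) = 0 := by
      have := hH.skew p ν
      linarith
    have h6 : ∑ k, B p (e (some k)) • e (some k) = 0 := by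
      have h7 : em e (fv B e p) = 0 := by
        rw [h3]
        unfold em
        simp
      exact h7
    rw [h1, h5, h6] at h4
    simpa using h4
  obtain ⟨c, hc, hR⟩ := R3g_pos (TFm B e J) jF1 jF2 (m := m) (z1 := B p X) (z2 := B (J p) X)
    (s1 := B p ν) (s2 := B (J p) ν) (A := Aa B J lam p X ν) (β := bt B J lam p X ν)
    (P := Pc B J lam p X ν) (ρ := rh B J lam p X ν) (τ := B (Tm B J lam X ν N (J ν)) (J ν))
    (b := fv B e (Tm B J lam X ν N (J ν))) hlam hm hq hM hA rfl rfl rfl rfl p1 p2 b1 b2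
  rw [← hS] at hR
  obtain ⟨τ, hτ⟩ : ∃ τ, τ = B (Tm B J lam X ν N (J ν)) (J ν) := ⟨_, rfl⟩
  obtain ⟨TT, hTT⟩ : ∃ TT, TT = TTs (TFm B e (Tm B J lam X ν N)) := ⟨_, rfl⟩
  obtain ⟨b, hb⟩ : ∃ b, b = fv B e (Tm B J lam X ν N (J ν)) := ⟨_, rfl⟩
  rw [← hτ, ← hTT, ← hb] at hR
  have hTT0 : 0 ≤ TT := by
    rw [hTT]
    exact Finset.sum_nonneg fun _ _ => sq_nonneg _
  have hn : 0 ≤ τ ^ 2 + ‖b‖ ^ 2 + TT := by positivity
  have hcn := mul_nonneg hc.le hn
  refine ⟨by linarith, fun h0 _ w hw => ?_⟩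
  rw [h0] at hR
  have h2 : τ ^ 2 + ‖b‖ ^ 2 + TT = 0 := by
    have h1 : c * (τ ^ 2 + ‖b‖ ^ 2 + TT) = 0 := le_antisymm hR hcn
    exact (mul_eq_zero.1 h1).resolve_left hc.ne'
  have h3 : τ = 0 := by
    have : τ ^ 2 = 0 := by nlinarith [sq_nonneg τ, sq_nonneg ‖b‖]
    exact pow_eq_zero_iff (two_ne_zero) |>.1 this
  have h4 : b = 0 := by
    have : ‖b‖ ^ 2 = 0 := by nlinarith [sq_nonneg τ, sq_nonneg ‖b‖]
    exact norm_eq_zero.1 (pow_eq_zero_iff (two_ne_zero) |>.1 this)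
  have h5 : TT = 0 := by nlinarith [sq_nonneg τ, sq_nonneg ‖b‖]
  rw [hτ] at h3
  rw [hb] at h4
  have h6 : ∀ k, B (Tm B J lam X ν N (J ν)) (e (some k)) = 0 := fun k => by
    have := congrArg (fun x : EuclideanSpace ℝ κ => x k) h4
    simpa [fv] using this
  have h7 : ∀ l k, B (Tm B J lam X ν N (e (some l))) (e (some k)) = 0 := by
    intro l k
    rw [hTT] at h5
    unfold TTs at h5
    rw [Finset.sum_eq_zero_iff_of_nonneg fun l _ => sq_nonneg _] at h5
    have h8 := h5 l (Finset.mem_univ _)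
    have h9 := norm_eq_zero.1 (pow_eq_zero_iff (two_ne_zero) |>.1 h8)
    rw [TFm_apply, em_single] at h9
    have := congrArg (fun x : EuclideanSpace ℝ κ => x k) h9
    simpa [fv] using this
  have h8 : ∀ i, Tm B J lam X ν N (e i) = 0 := by
    intro i
    have h9 := he.hz_sum (T_hz hH hP hxx lam (he.hz i))
    rw [← h9]
    refine Finset.sum_eq_zero fun j _ => ?_
    have h10 : B (Tm B J lam X ν N (e i)) (e j) = 0 := by
      rcases i with _ | l <;> rcases j with _ | k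
      · rw [he.xi]
        exact h3
      · rw [he.xi]
        exact h6 k
      · rw [T_symm hH hP lam (he.hz _) (he.hz _), he.xi]
        exact h6 l
      · exact h7 l k
    rw [h10, zero_smul]
  rw [← he.hz_sum hw, map_sum]
  refine Finset.sum_eq_zero fun i _ => ?_
  rw [map_smul, h8 i, smul_zero]

end Pool.Agent.Helper77.JE
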