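import Pool.Agent.Helper65.HB.Cal3
import Pool.Agent.Helper65.HB.Split3
import Pool.Agent.Helper77.JE.Fin

/-! # HB: end of the proof for the second field (compare Helper77/JE/Fin.lean) -/

set_option autoImplicit false
set_option linter.unusedSectionVars false
set_option linter.unusedVariables false
set_option linter.deprecated false

open Filter Topology Set
open scoped ContDiff

namespace Pool.Agent.Helper65.HB

open Pool.Agent.Helper77.JE
open Pool.Agent.Helper41.ALX (divg Vertical ballMetric meanCurv PC bergman vertical_PC bergman_eq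
  radial)

variable {E : Type*} [NormedAddCommGroup E] [InnerProductSpace ℝ E] [FiniteDimensional ℝ E]

private theorem rr_smul_h80 {G : ℝ × ℝ × E → ℝ × ℝ × E}
    (hG : ∀ c : ℝ, 0 < c → ∀ X, G (c • X) = c⁻¹ • G X) {c : ℝ} (hc : 0 < c) (X : ℝ × ℝ × E) :
    rr (BL E) G (c • X) = c⁻¹ * rr (BL E) G X := by
  unfold rr
  rw [hG c hc X]
  have h : BL E (c⁻¹ • G X) (c⁻¹ • G X) = c⁻¹ ^ 2 * BL E (G X) (G X) := by
    simp only [map_smul, ContinuousLinearMap.smul_apply, smul_eq_mul]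
    ring
  rw [h, Real.sqrt_mul (sq_nonneg _), Real.sqrt_sq (inv_pos.2 hc).le]

private theorem nu_smul_h80 {G : ℝ × ℝ × E → ℝ × ℝ × E}
    (hG : ∀ c : ℝ, 0 < c → ∀ X, G (c • X) = c⁻¹ • G X) {c : ℝ} (hc : 0 < c) (X : ℝ × ℝ × E) :
    nu (BL E) G (c • X) = nu (BL E) G X := by
  unfold nu
  rw [rr_smul_h80 hG hc X, hG c hc X, smul_smul]
  congr 1
  rw [mul_inv, inv_inv]
  field_simp

private theorem NN_smul_h80 {G : ℝ × ℝ × E → ℝ × ℝ × E}
    (hG : ∀ c : ℝ, 0 < c → ∀ X, G (c • X) = c⁻¹ • G X) {c : ℝ} (hc : 0 < c) (X : ℝ × ℝ × E) :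
    NN (BL E) G (c • X) = c⁻¹ • NN (BL E) G X := by
  unfold NN
  have h1 : (fun Y => nu (BL E) G (c • Y)) = nu (BL E) G := funext fun Y => nu_smul_h80 hG hc Y
  have h2 := fderiv_comp_smul (𝕜 := ℝ) (f := nu (BL E) G) (x := X) c
  rw [h1] at h2
  rw [h2, smul_smul, inv_mul_cancel₀ hc.ne', one_smul]

private theorem tt_smul_h80 (c : ℝ) (X : ℝ × ℝ × E) :
    tt (BL E) (c • X) = c ^ 2 * tt (BL E) X := by
  unfold tt
  simp only [map_smul, ContinuousLinearMap.smul_apply, smul_eq_mul]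
  ring

private theorem sqrt_tt_smul_h80 {c : ℝ} (hc : 0 < c) (X : ℝ × ℝ × E) :
    √(tt (BL E) (c • X)) = c * √(tt (BL E) X) := by
  rw [tt_smul_h80, Real.sqrt_mul (sq_nonneg _), Real.sqrt_sq hc.le]

theorem VV3_smul {j : E →L[ℝ] E} {G : ℝ × ℝ × E → ℝ × ℝ × E}
    (hG : ∀ c : ℝ, 0 < c → ∀ X, G (c • X) = c⁻¹ • G X) (lam m : ℝ) (p : ℝ × ℝ × E) {c : ℝ}
    (hc : 0 < c) (X : ℝ × ℝ × E) :
    VV3 (BL E) (JL j) lam m p G (c • X) = c • VV3 (BL E) (JL j) lam m p G X ∧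
    fderiv ℝ (VV3 (BL E) (JL j) lam m p G) (c • X) = fderiv ℝ (VV3 (BL E) (JL j) lam m p G) X := by
  have key : ∀ Y, VV3 (BL E) (JL j) lam m p G (c • Y) = c • VV3 (BL E) (JL j) lam m p G Y := by
    intro Y
    have hxs : xs (BL E) (c • Y) = xs (BL E) Y := by
      unfold xs
      rw [sqrt_tt_smul_h80 hc, smul_smul]
      congr 1
      rw [mul_inv]
      field_simp
    have hSS : SS (BL E) G (c • Y) = SS (BL E) G Y := by
      unfold SS
      rw [sqrt_tt_smul_h80 hc, NN_smul_h80 hG hc, smul_smul]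
      congr 1
      field_simp
    unfold VV3
    rw [hxs, hSS, nu_smul_h80 hG hc, rr_smul_h80 hG hc, tt_smul_h80, smul_smul]
    congr 1
    field_simp
  refine ⟨key X, ?_⟩
  have h1 : (fun Y => VV3 (BL E) (JL j) lam m p G (c • Y)) = c • VV3 (BL E) (JL j) lam m p G :=
    funext key
  have h2 := fderiv_comp_smul (𝕜 := ℝ) (f := VV3 (BL E) (JL j) lam m p G) (x := X) c
  rw [h1, fderiv_const_smul_field, Pi.smul_apply] at h2
  exact (smul_right_injective _ hc.ne' h2).symm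

/-- the hypotheses -/
structure Hy3 (j : E →L[ℝ] E) (ρ : E → ℝ) (n : ℕ) (lam : ℝ) (p : ℝ × ℝ × E) : Prop where
  cj : Cj j
  dim : Module.finrank ℝ E = 2 * n
  two : 2 ≤ n
  one : 1 < lam
  smooth : ContDiffOn ℝ 3 ρ (Metric.ball 0 1)
  reg : ∀ z : E, ‖z‖ < 1 → ρ z = 0 → fderiv ℝ ρ z ≠ 0
  curv : ∀ z : E, ‖z‖ < 1 → ρ z = 0 → mc j ρ z = (2 * n - 1) * lam + lam⁻¹
  pp : BL E p p = -1
  cen : ∀ z : E, ‖z‖ < 1 → ρ z = 0 →
    BL E p (nu (BL E) (GG j ρ) (io z) - xs (BL E) (io z)) ^ 2 +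
      BL E (JL j p) (nu (BL E) (GG j ρ) (io z) - xs (BL E) (io z)) ^ 2 ≤ 1

variable {j : E →L[ℝ] E} {ρ : E → ℝ} {n : ℕ} {lam : ℝ} {p : ℝ × ℝ × E}

/-- the field on the ball -/
noncomputable def fu (j : E →L[ℝ] E) (ρ : E → ℝ) (n : ℕ) (lam : ℝ) (p : ℝ × ℝ × E) (z : E) : E :=
  ((1 - ‖z‖ ^ 2) ^ (n + 1))⁻¹ • dn j (VV3 (BL E) (JL j) lam (2 * n - 2) p (GG j ρ)) z

/-- piece `JE-F1` (a) -/
theorem oo_open (h : Hy3 j ρ n lam p) : IsOpen (OO ρ) := by
  have h1 : ContinuousOn (fderiv ℝ ρ) (Metric.ball (0 : E) 1) :=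
    (h.smooth.fderiv_of_isOpen (m := 2) Metric.isOpen_ball (by norm_num)).continuousOn
  have h2 := h1.isOpen_inter_preimage Metric.isOpen_ball
    (isOpen_compl_singleton (x := (0 : E →L[ℝ] ℝ)))
  have h3 : OO ρ = Metric.ball (0 : E) 1 ∩ fderiv ℝ ρ ⁻¹' {(0 : E →L[ℝ] ℝ)}ᶜ := by
    ext z
    simp [OO]
  rw [h3]
  exact h2

theorem io_UU (h : Hy3 j ρ n lam p) {z : E} (hz : z ∈ OO ρ) : io z ∈ UU j ρ := by
  refine ⟨?_, ?_⟩
  · rw [BL_apply]
    simp only [io]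
    rw [real_inner_self_eq_norm_sq]
    have h1 := hz.1
    have := norm_nonneg z
    nlinarith
  · rw [pr_io]
    exact hz.2

/-- piece `JE-F1` (b): `VV3_c1` -/
theorem fu_c1 (h : Hy3 j ρ n lam p) : ContDiffOn ℝ 1 (fu j ρ n lam p) (OO ρ) := by
  have hG := gdL h.cj h.smooth
  have hio : ContDiff ℝ 1 (fun z : E => (io z : ℝ × ℝ × E)) := by
    unfold io
    fun_prop
  have hV : ContDiffOn ℝ 1 (fun z : E => VV3 (BL E) (JL j) lam (2 * n - 2) p (GG j ρ) (io z)) (OO ρ) :=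
    (hG.VV3_c1 lam (2 * n - 2) p).comp hio.contDiffOn fun z hz => io_UU h hz
  have h1 : ContDiffOn ℝ 1 (fun z : E => (VV3 (BL E) (JL j) lam (2 * n - 2) p (GG j ρ) (io z)).1)
      (OO ρ) := contDiff_fst.comp_contDiffOn hV
  have h2 : ContDiffOn ℝ 1 (fun z : E => (VV3 (BL E) (JL j) lam (2 * n - 2) p (GG j ρ) (io z)).2)
      (OO ρ) := contDiff_snd.comp_contDiffOn hV
  have h3 : ContDiffOn ℝ 1 (fun z : E => (VV3 (BL E) (JL j) lam (2 * n - 2) p (GG j ρ) (io z)).2.1)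
      (OO ρ) := contDiff_fst.comp_contDiffOn h2
  have h4 : ContDiffOn ℝ 1 (fun z : E => (VV3 (BL E) (JL j) lam (2 * n - 2) p (GG j ρ) (io z)).2.2)
      (OO ρ) := contDiff_snd.comp_contDiffOn h2
  have h5 : ContDiffOn ℝ 1 (fun z : E => ((1 - ‖z‖ ^ 2) ^ (n + 1))⁻¹) (OO ρ) := by
    refine ContDiffOn.inv ?_ fun z hz => ?_
    · exact ((contDiff_const.sub (contDiff_norm_sq ℝ)).pow (n + 1)).contDiffOn
    · have h6 := hz.1
      have h7 := norm_nonneg z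
      have h8 : 0 < 1 - ‖z‖ ^ 2 := by nlinarith
      exact (pow_pos h8 _).ne'
  have h6 : ContDiffOn ℝ 1 (fun z : E => j z) (OO ρ) := j.contDiff.contDiffOn
  exact h5.smul ((h4.sub (h1.smul contDiffOn_id)).sub (h3.smul h6))

/-- piece `JE-F1` (c): `dn V z = D pr (io z) (V (io z))` (`Dpr_io`), so `dρ (dn V z) = D ff (V (io z)) = B G V = 0`
(`GG_B`, `VV3_hz`) -/
theorem fu_tan (h : Hy3 j ρ n lam p) {z : E} (hz : z ∈ OO ρ) :
    fderiv ℝ ρ z (fu j ρ n lam p z) = 0 := by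
  have hG := gdL h.cj h.smooth
  have hH := hfL h.cj
  have hX := io_UU h hz
  have hV := (hG.VV3_hz hH lam (2 * n - 2) p hX).2.2
  have hX0 : (io z : ℝ × ℝ × E).1 ^ 2 + (io z : ℝ × ℝ × E).2.1 ^ 2 ≠ 0 := by simp [io]
  have g1 : HasFDerivAt (pr j) (fderiv ℝ (pr j) (io z)) (io z) :=
    ((pr_smooth j hX0).differentiableAt (by simp)).hasFDerivAt
  have g2 : HasFDerivAt ρ (fderiv ℝ ρ z) (pr j (io z)) := by
    rw [pr_io]
    exact ((h.smooth.contDiffAt (Metric.isOpen_ball.mem_nhds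
      (mem_ball_zero_iff.2 hz.1))).differentiableAt (by norm_num)).hasFDerivAt
  have g3 : fderiv ℝ (ff j ρ) (io z) = (fderiv ℝ ρ z).comp (fderiv ℝ (pr j) (io z)) :=
    (g2.comp (io z) g1).fderiv
  rw [hH.symm, GG_B, g3, ContinuousLinearMap.comp_apply, Dpr_io h.cj] at hV
  unfold fu
  rw [map_smul, smul_eq_mul]
  unfold dn
  rw [hV, mul_zero]

theorem pr_line_hb {j : E →L[ℝ] E} (hj : Cj j) {p : ℝ × ℝ × E} (hp : BL E p p = -1) {z : E}
    {a b : ℝ} (h : p = a • io z + b • JL j (io z)) : pr j p = z := by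
  have h0 := (pr_ball hj (X := p) (by rw [hp]; norm_num)).1
  have e1 : p.1 = a := by rw [h]; simp [io, JL_apply]
  have e2 : p.2.1 = b := by rw [h]; simp [io, JL_apply]
  have e3 : p.2.2 = a • z + b • j z := by rw [h]; simp [io, JL_apply]
  unfold pr
  rw [e1, e2] at h0
  rw [e1, e2, e3]
  simp only [map_add, map_smul, hj.jj]
  have h1 : a • (a • z + b • j z) - b • (a • j z + b • -z) = (a ^ 2 + b ^ 2) • z := by
    module
  rw [h1, smul_smul, inv_mul_cancel₀ h0.ne', one_smul]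

/-- piece `JE-F2`: the sign of the divergence. Let `X = io z`, `X' = xs X = c • X`, `c = (√(1 - ‖z‖²))⁻¹`; `B X' X' = -1`,
`nu X' = nu X`, `NN X' = SS X`, `X' ∈ UU`. Frame at `X'`: `exists_fr`; `Gd.jt` at `X'`: `h1` is `h.curv` (`mc`), `h2` is `trace_const`
with `NN_smul`; `m = 2 n - 2`. `descent` (`DVV3_X`, `DVV3_JX`, `VV3_hz`), `VV3_smul`, `trace_VV3`, `point_pos`; `rr > 0`. -/
theorem fu_div (h : Hy3 j ρ n lam p) {z : E} (hz : ‖z‖ < 1) (h0 : ρ z = 0) :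
    0 ≤ divg (fu j ρ n lam p) z ∧ (divg (fu j ρ n lam p) z = 0 → pr j p ≠ z →
      ∀ w, Hz (BL E) (JL j) (xs (BL E) (io z)) (nu (BL E) (GG j ρ) (io z)) w →
        Tm (BL E) (JL j) lam (xs (BL E) (io z)) (nu (BL E) (GG j ρ) (io z))
          (SS (BL E) (GG j ρ) (io z)) w = 0) := by
  have hr := h.reg z hz h0
  have hH := hfL h.cj
  have hG := gdL h.cj h.smooth
  have hs : 0 < 1 - ‖z‖ ^ 2 := by
    have := norm_nonneg z
    nlinarith
  have hBX : BL E (io z) (io z) = ‖z‖ ^ 2 - 1 := by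
    rw [BL_apply, real_inner_self_eq_norm_sq]
    simp [io]
  have hneg : BL E (io z) (io z) < 0 := by rw [hBX]; linarith
  have htt : tt (BL E) (io z) = 1 - ‖z‖ ^ 2 := by
    unfold tt
    rw [hBX]
    ring
  obtain ⟨c, hc⟩ : ∃ c : ℝ, c = (√(1 - ‖z‖ ^ 2))⁻¹ := ⟨_, rfl⟩
  have hsq : 0 < √(1 - ‖z‖ ^ 2) := Real.sqrt_pos.2 hs
  have hc0 : 0 < c := by rw [hc]; exact inv_pos.2 hsq
  have hci : c⁻¹ = √(1 - ‖z‖ ^ 2) := by rw [hc, inv_inv]
  have hxs : xs (BL E) (io z) = c • io z := by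
    unfold xs
    rw [htt, hc]
  have hcc : c * c * (1 - ‖z‖ ^ 2) = 1 := by
    have h4 : √(1 - ‖z‖ ^ 2) * √(1 - ‖z‖ ^ 2) = 1 - ‖z‖ ^ 2 := Real.mul_self_sqrt hs.le
    have h5 : c * √(1 - ‖z‖ ^ 2) = 1 := by
      rw [hc]
      exact inv_mul_cancel₀ hsq.ne'
    linear_combination (-(c * c)) * h4 + (c * √(1 - ‖z‖ ^ 2) + 1) * h5
  have hxx : BL E (c • io z) (c • io z) = -1 := by
    simp only [map_smul, ContinuousLinearMap.smul_apply, smul_eq_mul]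
    rw [hBX]
    linear_combination -hcc
  have hX : io z ∈ UU j ρ := ⟨hneg, by rw [pr_io]; exact hr⟩
  have hX' : c • io z ∈ UU j ρ :=
    ⟨by rw [hxx]; norm_num, by rw [pr_smul j hc0.ne', pr_io]; exact hr⟩
  have hGs : ∀ a : ℝ, 0 < a → ∀ Y, GG j ρ (a • Y) = a⁻¹ • GG j ρ Y := fun a ha Y => GG_smul j ρ ha Y
  obtain ⟨e1, e2, e3⟩ := NN_smul hGs hc0 (io z)
  have hSS : SS (BL E) (GG j ρ) (io z) = NN (BL E) (GG j ρ) (c • io z) := by
    unfold SS
    rw [htt, e2, hci]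
  have hP := hG.pt hH hX'
  obtain ⟨d, e, he⟩ := exists_fr h.cj hxx hP.nn (by rw [hH.symm]; exact hP.xn)
    (by rw [hH.symm]; exact hP.jxn)
  have hdim : (Module.finrank ℝ (ℝ × ℝ × E) : ℝ) = (2 * n - 2 : ℝ) + 4 := by
    rw [Module.finrank_prod, Module.finrank_prod, h.dim, Module.finrank_self]
    push_cast
    ring
  have htr : LinearMap.trace ℝ _ (NN (BL E) (GG j ρ) (c • io z) : (ℝ × ℝ × E) →ₗ[ℝ] (ℝ × ℝ × E)) =
      ((2 * n - 2 : ℝ) + 1) * lam + lam⁻¹ := by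
    have h5 := h.curv z hz h0
    unfold mc at h5
    rw [e2, hci]
    have h6 : ((√(1 - ‖z‖ ^ 2) • NN (BL E) (GG j ρ) (io z) : (ℝ × ℝ × E) →L[ℝ] (ℝ × ℝ × E)) :
        (ℝ × ℝ × E) →ₗ[ℝ] (ℝ × ℝ × E)) =
        √(1 - ‖z‖ ^ 2) • (NN (BL E) (GG j ρ) (io z) : (ℝ × ℝ × E) →ₗ[ℝ] (ℝ × ℝ × E)) := rfl
    rw [h6, map_smul, smul_eq_mul, h5]
    ring
  have htr2 : ∀ u, Hz (BL E) (JL j) (c • io z) (nu (BL E) (GG j ρ) (c • io z)) u →
      LinearMap.trace ℝ _ (fderiv ℝ (NN (BL E) (GG j ρ)) (c • io z) u :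
        (ℝ × ℝ × E) →ₗ[ℝ] (ℝ × ℝ × E)) = 0 := by
    intro u hu
    have h7 : Hz (BL E) (JL j) (io z) (nu (BL E) (GG j ρ) (io z)) u := by
      refine ⟨?_, ?_, ?_⟩
      · have h8 := hu.1
        rw [map_smul, smul_eq_mul] at h8
        exact (mul_eq_zero.1 h8).resolve_left hc0.ne'
      · have h8 := hu.2.1
        rw [map_smul, map_smul, smul_eq_mul] at h8
        exact (mul_eq_zero.1 h8).resolve_left hc0.ne'
      · rw [← e1]
        exact hu.2.2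
    have h9 := trace_const h.cj h.smooth hz h0 hr h.curv u h7
    rw [e3]
    have h6 : (((c⁻¹ ^ 2) • fderiv ℝ (NN (BL E) (GG j ρ)) (io z)) u : (ℝ × ℝ × E) →L[ℝ] (ℝ × ℝ × E)) =
        (c⁻¹ ^ 2) • (fderiv ℝ (NN (BL E) (GG j ρ)) (io z) u) := rfl
    rw [h6]
    have h10 : (((c⁻¹ ^ 2) • (fderiv ℝ (NN (BL E) (GG j ρ)) (io z) u) :
        (ℝ × ℝ × E) →L[ℝ] (ℝ × ℝ × E)) : (ℝ × ℝ × E) →ₗ[ℝ] (ℝ × ℝ × E)) =
        (c⁻¹ ^ 2) • ((fderiv ℝ (NN (BL E) (GG j ρ)) (io z) u : (ℝ × ℝ × E) →L[ℝ] (ℝ × ℝ × E)) :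
          (ℝ × ℝ × E) →ₗ[ℝ] (ℝ × ℝ × E)) := rfl
    rw [h10, map_smul, h9, smul_zero]
  have hJt := hG.jt hH hX' hxx he hdim htr htr2
  have hm : (2 : ℝ) ≤ 2 * n - 2 := by
    have h11 : (2 : ℝ) ≤ n := by exact_mod_cast h.two
    linarith
  have hcen := h.cen z hz h0
  rw [hxs, ← e1, map_sub, map_sub] at hcen
  have hcen' : (BL E p (c • io z) - BL E p (nu (BL E) (GG j ρ) (c • io z))) ^ 2 +
      (BL E (JL j p) (c • io z) - BL E (JL j p) (nu (BL E) (GG j ρ) (c • io z))) ^ 2 ≤ 1 := by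
    linarith
  obtain ⟨q1, q2⟩ := point_pos3 hH hP hxx h.one hm he hJt (fun u v => hG.N2_ν hH hX' u v) p h.pp
    hcen'
  have hdes := descent h.cj h.dim (V := VV3 (BL E) (JL j) lam (2 * n - 2) p (GG j ρ)) hz
    (((hG.VV3_c1 lam (2 * n - 2) p).contDiffAt (hG.isOpen.mem_nhds hX)).differentiableAt one_ne_zero)
    (hG.DVV3_X hH lam (2 * n - 2) p hX) (hG.DVV3_JX hH lam (2 * n - 2) p hX)
    (hG.VV3_hz hH lam (2 * n - 2) p hX).1
  have hVs := (VV3_smul (j := j) hGs lam (2 * n - 2) p hc0 (io z)).2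
  have htV := hG.trace_VV3 hH lam (2 * n - 2) p hX' hxx he
  rw [hVs] at htV
  have hfu : divg (fu j ρ n lam p) z = ((1 - ‖z‖ ^ 2) ^ (n + 1))⁻¹ *
      (rr (BL E) (GG j ρ) (c • io z) * ∑ i, BL E (dV3 (BL E) (JL j) lam (2 * n - 2) p (c • io z)
        (nu (BL E) (GG j ρ) (c • io z)) (NN (BL E) (GG j ρ) (c • io z)) (e i)
        (NN (BL E) (GG j ρ) (c • io z) (e i))
        (fderiv ℝ (NN (BL E) (GG j ρ)) (c • io z) (e i))) (e i)) := by
    rw [← htV, ← hdes]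
    rfl
  have hK : 0 < ((1 - ‖z‖ ^ 2) ^ (n + 1))⁻¹ := inv_pos.2 (pow_pos hs _)
  have hR := hG.rr_pos hX'
  rw [hfu]
  refine ⟨mul_nonneg hK.le (mul_nonneg hR.le q1), fun h12 hzp => ?_⟩
  have h13 := (mul_eq_zero.1 ((mul_eq_zero.1 h12).resolve_left hK.ne')).resolve_left hR.ne'
  have hline : p ≠ -(BL E p (c • io z) • (c • io z)) -
      BL E p (JL j (c • io z)) • JL j (c • io z) := by
    intro hl
    apply hzp
    have h15 : p = (-(BL E p (c • io z)) * c) • io z +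
        (-(BL E p (JL j (c • io z))) * c) • JL j (io z) := by
      conv_lhs => rw [hl]
      rw [map_smul (JL j)]
      module
    exact pr_line_hb h.cj h.pp h15
  have h14 := q2 h13 hline
  rw [hxs, hSS, ← e1]
  exact h14

/-- piece `JE-F3`: `divg_zero` -/
theorem T_zero0 (h : Hy3 j ρ n lam p)
    (hbd : ∃ R : ℝ, R < 1 ∧ ∀ z ∈ Metric.ball (0 : E) 1, ρ z ≤ 0 → ‖z‖ ≤ R) {z : E}
    (hz : ‖z‖ < 1) (h0 : ρ z = 0) (hzp : pr j p ≠ z) {w : ℝ × ℝ × E}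
    (hw : Hz (BL E) (JL j) (xs (BL E) (io z)) (nu (BL E) (GG j ρ) (io z)) w) :
    Tm (BL E) (JL j) lam (xs (BL E) (io z)) (nu (BL E) (GG j ρ) (io z))
      (SS (BL E) (GG j ρ) (io z)) w = 0 := by
  have hsub : OO ρ ⊆ Metric.ball (0 : E) 1 := fun y hy => mem_ball_zero_iff.2 hy.1
  have hcomp : IsCompact {y : E | y ∈ OO ρ ∧ ρ y = 0} := by
    obtain ⟨R, hR1, hR⟩ := hbd
    have hsub' : Metric.closedBall (0 : E) R ⊆ Metric.ball (0 : E) 1 :=
      Metric.closedBall_subset_ball hR1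
    have e : {y : E | y ∈ OO ρ ∧ ρ y = 0} = Metric.closedBall (0 : E) R ∩ ρ ⁻¹' {0} := by
      ext y
      constructor
      · rintro ⟨hy, hy0⟩
        exact ⟨mem_closedBall_zero_iff.2 (hR y (hsub hy) hy0.le), hy0⟩
      · rintro ⟨hy, hy0⟩
        have hy1 : ‖y‖ < 1 := mem_ball_zero_iff.1 (hsub' hy)
        exact ⟨⟨hy1, h.reg y hy1 hy0⟩, hy0⟩
    rw [e]
    have hcl : IsClosed (Metric.closedBall (0 : E) R ∩ ρ ⁻¹' {0}) :=
      (h.smooth.continuousOn.mono hsub').preimage_isClosed_of_isClosed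
        Metric.isClosed_closedBall isClosed_singleton
    exact (isCompact_closedBall (0 : E) R).of_isClosed_subset hcl Set.inter_subset_left
  have hd := divg_zero (oo_open h) ((h.smooth.mono hsub).of_le (by norm_num)) hcomp
    (fun y hy => hy.2) (fu_c1 h) (fun y hy => fu_tan h hy)
    (fun y hy hy0 => (fu_div h hy.1 hy0).1) z ⟨hz, h.reg z hz h0⟩ h0
  exact (fu_div h hz h0).2 hd hzp w hw

/-- piece `JE-F4` (a): `B c c = 1 - lam²` -/
theorem cc_B (h : Hy3 j ρ n lam p) {z : E} (hz : z ∈ OO ρ) :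
    BL E (cc j ρ lam (io z)) (cc j ρ lam (io z)) = 1 - lam ^ 2 := by
  have hU := io_UU h hz
  have hP := (gdL h.cj h.smooth).pt (hfL h.cj) hU
  have h1 := xs_B (io_neg hz.1)
  have hH := hfL h.cj
  have h2 : BL E (xs (BL E) (io z)) (nu (BL E) (GG j ρ) (io z)) = 0 := by
    unfold xs
    rw [map_smul, smul_apply, hP.xn, smul_zero]
  have h3 : BL E (nu (BL E) (GG j ρ) (io z)) (xs (BL E) (io z)) = 0 := by
    rw [hH.symm]; exact h2
  unfold cc
  simp only [map_sub, map_smul, sub_apply, smul_apply, smul_eq_mul]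
  rw [h1, h2, h3, hP.nn]
  ring

/-- piece `JE-F4` (b): the map to the centre is of class `C¹` -/
theorem cen_c1 (h : Hy3 j ρ n lam p) :
    ContDiffOn ℝ 1 (fun z : E => pr j (cc j ρ lam (io z))) (OO ρ) := by
  intro z hz
  have hU := io_UU h hz
  have hG := gdL h.cj h.smooth
  have hio : ContDiffAt ℝ 1 (fun z : E => (io z : ℝ × ℝ × E)) z := by
    unfold io
    fun_prop
  have hneg := io_neg hz.1
  have hxs : ContDiffAt ℝ 1 (xs (BL E)) (io z) := by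
    have ht : ContDiffAt ℝ 1 (fun X : ℝ × ℝ × E => tt (BL E) X) (io z) := by
      unfold tt
      fun_prop
    have h0 : 0 < tt (BL E) (io z) := by unfold tt; linarith
    have hs : ContDiffAt ℝ 1 (fun X : ℝ × ℝ × E => √(tt (BL E) X)) (io z) :=
      ht.sqrt h0.ne'
    exact (hs.inv (Real.sqrt_pos.2 h0).ne').smul contDiffAt_id
  have hnu : ContDiffAt ℝ 1 (nu (BL E) (GG j ρ)) (io z) :=
    ((hG.nu_c2.contDiffAt (hG.isOpen.mem_nhds hU))).of_le (by norm_num)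
  have hcc : ContDiffAt ℝ 1 (cc j ρ lam) (io z) := by
    unfold cc
    exact (hxs.const_smul lam).sub hnu
  have hB := cc_B h hz
  have hl := h.one
  have hBn : BL E (cc j ρ lam (io z)) (cc j ρ lam (io z)) < 0 := by
    rw [hB]; nlinarith
  have hpr : ContDiffAt ℝ 1 (pr j) (cc j ρ lam (io z)) :=
    (pr_smooth j (pr_ball h.cj hBn).1.ne').of_le (by exact_mod_cast le_top)
  exact ((hpr.comp z (hcc.comp z hio))).contDiffWithinAt

private theorem xs_hd {L : Type*} [NormedAddCommGroup L] [NormedSpace ℝ L]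
    {B : L →L[ℝ] L →L[ℝ] ℝ} {J : L →L[ℝ] L} (hH : Hf B J) {X : L} (hX : B X X < 0) :
    ∃ D : L →L[ℝ] L, HasFDerivAt (xs B) D X ∧
      ∀ v, D v = (√(tt B X))⁻¹ • v + ((√(tt B X))⁻¹ * (tt B X)⁻¹ * B X v) • X := by
  have ht : 0 < tt B X := by
    unfold tt
    linarith
  have hs : 0 < √(tt B X) := Real.sqrt_pos.2 ht
  have h1 : HasFDerivAt (fun Y => B Y) B X := B.hasFDerivAt
  have h2 := (h1.clm_apply (hasFDerivAt_id X)).neg
  have h3 := h2.sqrt (show -(B X (id X)) ≠ 0 from ht.ne')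
  have h4 := (hasDerivAt_inv (show √(-(B X (id X))) ≠ 0 from hs.ne')).comp_hasFDerivAt X h3
  have h5 := h4.smul (hasFDerivAt_id X)
  refine ⟨_, h5, fun v => ?_⟩
  have e1 : √(tt B X) ^ 2 = tt B X := Real.sq_sqrt ht.le
  have e2 : √(-(B X X)) = √(tt B X) := rfl
  simp only [ContinuousLinearMap.add_apply, ContinuousLinearMap.smul_apply,
    ContinuousLinearMap.neg_apply, ContinuousLinearMap.smulRight_apply, id_eq,
    ContinuousLinearMap.comp_apply, ContinuousLinearMap.id_apply, Function.comp,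
    ContinuousLinearMap.flip_apply, e2, e1, smul_eq_mul]
  rw [hH.symm v X]
  congr 1
  congr 1
  have e3 : √((-fun y => (B y) y) X) = √(tt B X) := rfl
  rw [e3, one_div, mul_inv]
  ring

private theorem cc_hd {j : E →L[ℝ] E} {ρ : E → ℝ} (hj : Cj j)
    (hG : Gd (BL E) (JL j) (UU j ρ) (GG j ρ)) (lam : ℝ) {X : ℝ × ℝ × E} (hX : X ∈ UU j ρ) :
    ∃ D : (ℝ × ℝ × E) →L[ℝ] (ℝ × ℝ × E), HasFDerivAt (cc j ρ lam) D X ∧
      ∀ v, D v = lam • ((√(tt (BL E) X))⁻¹ • v +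
        ((√(tt (BL E) X))⁻¹ * (tt (BL E) X)⁻¹ * BL E X v) • X) - NN (BL E) (GG j ρ) X v := by
  obtain ⟨D, hD, hDv⟩ := xs_hd (hfL hj) (hG.neg X hX)
  have hn : HasFDerivAt (nu (BL E) (GG j ρ)) (NN (BL E) (GG j ρ) X) X :=
    ((hG.nu_c2.contDiffAt (hG.isOpen.mem_nhds hX)).differentiableAt (by norm_num)).hasFDerivAt
  refine ⟨_, (hD.const_smul lam).sub hn, fun v => ?_⟩
  rw [← hDv]
  rfl

/-- piece `JE-F4` (c): its tangential derivative is zero on the hypersurface. `X = io z`, `w` with `dρ w = 0`: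
`(0, 0, w) = u + a X + b J X` with `u` tangential horizontal at `xs X`. The derivatives of `cc` in the directions `X`, `J X`
are `0`, `J cc` (`N2`-free: `xs`, `nu` have degree `0` and are equivariant: `Nx`, `Njx`). In the direction `u`:
`√tt D cc u = lam u - S u` and `S u = lam u + lam⁻¹ B(ξ, u) ξ - B(ξ, u) J x` (`N_eq`, `T_zero`), so it is
`B(ξ, u) (J x - lam⁻¹ J ν) = lam⁻¹ B(ξ, u) J (lam x - ν)`. Hence `D cc (0, 0, w)` is a multiple of `J cc`, and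
`D pr (cc) (J cc) = 0` (`Dpr_JX`). -/
theorem cen_der (h : Hy3 j ρ n lam p)
    (hT : ∀ z : E, ‖z‖ < 1 → ρ z = 0 → ∀ w,
      Hz (BL E) (JL j) (xs (BL E) (io z)) (nu (BL E) (GG j ρ) (io z)) w →
      Tm (BL E) (JL j) lam (xs (BL E) (io z)) (nu (BL E) (GG j ρ) (io z))
        (SS (BL E) (GG j ρ) (io z)) w = 0) {z : E}
    (hz : ‖z‖ < 1) (h0 : ρ z = 0) {w : E} (hw : fderiv ℝ ρ z w = 0) :
    fderiv ℝ (fun z : E => pr j (cc j ρ lam (io z))) z w = 0 := by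
  have hj := h.cj
  have hH := hfL hj
  have hG : Gd (BL E) (JL j) (UU j ρ) (GG j ρ) := gdL hj h.smooth
  have hO : z ∈ OO ρ := ⟨hz, h.reg z hz h0⟩
  have hX : io z ∈ UU j ρ := io_UU h hO
  have hP := hG.pt hH hX
  obtain ⟨D, hD, hDv⟩ := cc_hd hj hG lam hX
  have hxx := hG.neg _ hX
  have ht : 0 < tt (BL E) (io z) := by
    unfold tt
    linarith
  have hs : 0 < √(tt (BL E) (io z)) := Real.sqrt_pos.2 ht
  have hcc : BL E (cc j ρ lam (io z)) (cc j ρ lam (io z)) < 0 := by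
    rw [cc_B h hO]
    nlinarith [h.one]
  have hc0 := (pr_ball hj hcc).1.ne'
  have hpr : HasFDerivAt (pr j) (fderiv ℝ (pr j) (cc j ρ lam (io z))) (cc j ρ lam (io z)) :=
    ((pr_smooth j hc0).differentiableAt (by norm_num)).hasFDerivAt
  have hio : HasFDerivAt (io : E → ℝ × ℝ × E)
      ((0 : E →L[ℝ] ℝ).prod ((0 : E →L[ℝ] ℝ).prod (ContinuousLinearMap.id ℝ E))) z :=
    (hasFDerivAt_const (1 : ℝ) z).prodMk ((hasFDerivAt_const (0 : ℝ) z).prodMk (hasFDerivAt_id z))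
  have hF := hpr.comp z (hD.comp z hio)
  have hF' : fderiv ℝ (fun z : E => pr j (cc j ρ lam (io z))) z = _ := hF.fderiv
  rw [hF']
  show fderiv ℝ (pr j) (cc j ρ lam (io z)) (D (0, 0, w)) = 0
  set X : ℝ × ℝ × E := io z with hXd
  set v : ℝ × ℝ × E := (0, 0, w) with hv
  set a : ℝ := -((tt (BL E) X)⁻¹ * BL E X v) with ha
  set b : ℝ := -((tt (BL E) X)⁻¹ * BL E (JL j X) v) with hb
  set ν := nu (BL E) (GG j ρ) X with hν
  have x1 : BL E X X = -(tt (BL E) X) := by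
    unfold tt
    ring
  have x2 : BL E (JL j X) X = 0 := hH.self0 X
  have x3 : BL E X (JL j X) = 0 := by rw [hH.symm, x2]
  have x4 : BL E (JL j X) (JL j X) = -(tt (BL E) X) := by rw [hH.inv, x1]
  have hrr := hG.rr_pos hX
  have hvν : BL E v ν = 0 := by
    have h1 : DifferentiableAt ℝ ρ z :=
      (h.smooth.contDiffAt (Metric.isOpen_ball.mem_nhds (by simpa using hz))).differentiableAt
        (by norm_num)
    have h2 : BL E (GG j ρ X) v = 0 := by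
      rw [GG_io hj h1, BL_apply]
      have h3 : inner ℝ (gradient ρ z) w = fderiv ℝ ρ z w := by
        unfold gradient
        rw [InnerProductSpace.toDual_symm_apply]
      simp [hv, h3, hw]
    rw [hH.symm, hν]
    unfold nu
    simp [h2]
  set u : ℝ × ℝ × E := v - a • X - b • JL j X with hu
  have hvu : v = u + a • X + b • JL j X := by
    rw [hu]
    abel
  have u1 : BL E u X = 0 := by
    rw [hu]
    simp only [map_sub, map_smul, ContinuousLinearMap.sub_apply, ContinuousLinearMap.smul_apply,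
      smul_eq_mul]
    rw [x1, x2, hH.symm v X, ha]
    field_simp
    ring
  have u2 : BL E u (JL j X) = 0 := by
    rw [hu]
    simp only [map_sub, map_smul, ContinuousLinearMap.sub_apply, ContinuousLinearMap.smul_apply,
      smul_eq_mul]
    rw [x3, x4, hH.symm v (JL j X), hb]
    field_simp
    ring
  have u3 : BL E u ν = 0 := by
    rw [hu]
    simp only [map_sub, map_smul, ContinuousLinearMap.sub_apply, ContinuousLinearMap.smul_apply,
      smul_eq_mul]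
    rw [hvν, hP.xn, hP.jxn]
    ring
  have hHz : Hz (BL E) (JL j) (xs (BL E) X) ν u := by
    refine ⟨?_, ?_, u3⟩
    · unfold xs
      simp [u1]
    · unfold xs
      simp [u2]
  have hTu := hT z hz h0 u hHz
  rw [Tm_apply] at hTu
  set s := √(tt (BL E) X) with hsd
  set β := BL E (JL j ν) u with hβ
  set Nu := NN (BL E) (GG j ρ) X u with hNu
  have hSS : SS (BL E) (GG j ρ) X u = s • Nu := rfl
  rw [← hν, hSS] at hTu
  have hNu' : Nu = s⁻¹ • (lam • u + (lam⁻¹ * β) • JL j ν - β • JL j (xs (BL E) X)) := by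
    have h1 : s • Nu = lam • u + (lam⁻¹ * β) • JL j ν - β • JL j (xs (BL E) X) := by
      rw [← sub_eq_zero]
      rw [← hTu]
      abel
    rw [← h1, smul_smul, inv_mul_cancel₀ hs.ne', one_smul]
  have hlam0 : lam ≠ 0 := by linarith [h.one]
  have hxsd : xs (BL E) X = s⁻¹ • X := rfl
  have hccd : JL j (cc j ρ lam X) = lam • s⁻¹ • JL j X - JL j ν := by
    unfold cc
    rw [map_sub, map_smul, hxsd, map_smul]
  have hDv1 : D v = (s⁻¹ * lam⁻¹ * β + b) • JL j (cc j ρ lam X) := by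
    have hDX : D X = 0 := by
      rw [hDv, hP.Nx, x1]
      have : (√(tt (BL E) X))⁻¹ * (tt (BL E) X)⁻¹ * -(tt (BL E) X) = -(√(tt (BL E) X))⁻¹ := by
        field_simp
      rw [this]
      module
    have hDJ : D (JL j X) = JL j (cc j ρ lam X) := by
      rw [hDv, hP.Njx, x3, hccd]
      module
    have hDu : D u = (s⁻¹ * lam⁻¹ * β) • JL j (cc j ρ lam X) := by
      rw [hDv, hH.symm X u, u1, ← hNu, hNu', hccd, hxsd, map_smul]
      have : β = lam⁻¹ * lam * β := by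
        rw [inv_mul_cancel₀ hlam0, one_mul]
      match_scalars <;> field_simp <;> ring
    conv_lhs => rw [hvu]
    rw [map_add, map_add, map_smul, map_smul, hDX, hDJ, hDu]
    module
  rw [hDv1, map_smul, Dpr_JX hj hc0, smul_zero]

/-- piece `JE-F5` (b): at a point of the hypersurface, `c₀ = pr (cc (io z))`: `cq c₀ z (lam² - 1) =
lam² (1 - ‖c₀‖²) (1 - ‖z‖²)` (`cq_symm`, `cq_pr`; `B (io z) (lam x - ν) = - lam √(1 - ‖z‖²)`, `B (J (io z)) (lam x - ν) = 0`) -/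
theorem cq_level (h : Hy3 j ρ n lam p) {z : E} (hz : z ∈ OO ρ) :
    cq j (pr j (cc j ρ lam (io z))) z * (lam ^ 2 - 1) =
      lam ^ 2 * (1 - ‖pr j (cc j ρ lam (io z))‖ ^ 2) * (1 - ‖z‖ ^ 2) := by
  have hl := h.one
  have hH := hfL h.cj
  have hG := gdL h.cj h.smooth
  have hX := io_UU h hz
  have hB := cc_B h hz
  have hneg : BL E (cc j ρ lam (io z)) (cc j ρ lam (io z)) < 0 := by
    rw [hB]
    nlinarith
  have hz1 : 0 < 1 - ‖z‖ ^ 2 := by
    have h1 := hz.1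
    have h2 := norm_nonneg z
    nlinarith
  have hbx : BL E (io z) (io z) = -(1 - ‖z‖ ^ 2) := by
    simp [BL_apply, io]
  have htt : tt (BL E) (io z) = 1 - ‖z‖ ^ 2 := by
    rw [tt, hbx, neg_neg]
  have hs : √(1 - ‖z‖ ^ 2) ^ 2 = 1 - ‖z‖ ^ 2 := Real.sq_sqrt hz1.le
  have hs0 : √(1 - ‖z‖ ^ 2) ≠ 0 := (Real.sqrt_pos.2 hz1).ne'
  have e1 : BL E (io z) (nu (BL E) (GG j ρ) (io z)) = 0 := by
    rw [hH.symm, nu, map_smul, ContinuousLinearMap.smul_apply, hG.gx _ hX, smul_zero]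
  have e2 : BL E (JL j (io z)) (nu (BL E) (GG j ρ) (io z)) = 0 := by
    rw [hH.symm, nu, map_smul, ContinuousLinearMap.smul_apply, hG.gjx _ hX, smul_zero]
  have e3 : BL E (io z) (cc j ρ lam (io z)) = -(lam * √(1 - ‖z‖ ^ 2)) := by
    rw [cc, map_sub, map_smul, xs, map_smul, e1, htt, hbx]
    simp only [smul_eq_mul, sub_zero]
    nth_rw 2 [← hs]
    field_simp
  have e4 : BL E (JL j (io z)) (cc j ρ lam (io z)) = 0 := by
    rw [cc, map_sub, map_smul, xs, map_smul, e2, hH.self0]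
    simp
  have h3 := cq_pr (a := z) h.cj hneg
  rw [hB, e3, e4] at h3
  rw [cq_symm h.cj]
  have h4 : cq j z (pr j (cc j ρ lam (io z))) * (lam ^ 2 - 1) =
      lam ^ 2 * √(1 - ‖z‖ ^ 2) ^ 2 * (1 - ‖pr j (cc j ρ lam (io z))‖ ^ 2) := by
    linear_combination h3
  rw [h4, hs]
  ring

private lemma F6_cq_self (hj : Cj j) (a : E) : cq j a a = (1 - ‖a‖ ^ 2) ^ 2 := by
  have hH := hfL hj
  have h1 : BL E (JL j (io a)) (io a) = 0 := by
    have e1 := hH.inv (JL j (io a)) (io a)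
    rw [hH.jj, map_neg, neg_apply, hH.symm (io a) (JL j (io a))] at e1
    linarith
  unfold cq
  rw [h1, BL_apply]
  simp only [io]
  rw [real_inner_self_eq_norm_sq]
  ring

/-- piece `JE-F6`: the theorem in the form of the proof. `T_zero`, `cen_der`, `const_on_level` (on `OO ρ`; the hypersurface is
not empty: intermediate values on the ray through a point with `ρ < 0`), `cq_level`, `set_eq` with
`q z = cq c₀ z - K (1 - ‖z‖²)`, `K = lam² / (lam² - 1) (1 - ‖c₀‖²)`, `z₁ = c₀`. -/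
theorem main (h : Hy3 j ρ n lam p)
    (hT : ∀ z : E, ‖z‖ < 1 → ρ z = 0 → ∀ w,
      Hz (BL E) (JL j) (xs (BL E) (io z)) (nu (BL E) (GG j ρ) (io z)) w →
      Tm (BL E) (JL j) lam (xs (BL E) (io z)) (nu (BL E) (GG j ρ) (io z))
        (SS (BL E) (GG j ρ) (io z)) w = 0)
    (hbd : ∃ R : ℝ, R < 1 ∧ ∀ z ∈ Metric.ball (0 : E) 1, ρ z ≤ 0 → ‖z‖ ≤ R)
    (hne : ∃ z ∈ Metric.ball (0 : E) 1, ρ z < 0)
    (hcon : IsPreconnected {z ∈ Metric.ball (0 : E) 1 | ρ z = 0}) :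
    ∃ c₀ : E, ‖c₀‖ < 1 ∧ ∀ z ∈ Metric.ball (0 : E) 1,
      (ρ z < 0 ↔ cq j c₀ z < lam ^ 2 / (lam ^ 2 - 1) * (1 - ‖c₀‖ ^ 2) * (1 - ‖z‖ ^ 2)) ∧
      (ρ z = 0 ↔ cq j c₀ z = lam ^ 2 / (lam ^ 2 - 1) * (1 - ‖c₀‖ ^ 2) * (1 - ‖z‖ ^ 2)) := by
  have hlam : 0 < lam ^ 2 - 1 := by nlinarith [h.one]
  have hlam0 : 0 < lam ^ 2 := by nlinarith [h.one]
  have hn : ∀ z : E, z ∈ Metric.ball (0 : E) 1 ↔ ‖z‖ < 1 := fun z => mem_ball_zero_iff
  have hρc : ContinuousOn ρ (Metric.ball 0 1) := h.smooth.continuousOn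
  -- the hypersurface is not empty
  have : Nontrivial E := by
    have h1 : 0 < Module.finrank ℝ E := by
      have := h.two
      rw [h.dim]
      omega
    exact Module.nontrivial_of_finrank_pos h1
  obtain ⟨R, hR, hR2⟩ := hbd
  obtain ⟨z₁, hz₁, hz₁'⟩ := hne
  obtain ⟨z₀, hz₀, hz₀'⟩ : ∃ z ∈ Metric.ball (0 : E) 1, ρ z = 0 := by
    have hm0 : 0 ≤ max R 0 := le_max_right _ _
    have hm1 : max R 0 < 1 := max_lt hR one_pos
    obtain ⟨x, hx⟩ := exists_norm_eq E (show 0 ≤ (max R 0 + 1) / 2 by linarith)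
    have hxb : x ∈ Metric.ball (0 : E) 1 := by
      rw [hn, hx]
      linarith
    have hxp : 0 < ρ x := by
      by_contra hcon
      have h1 := hR2 x hxb (not_lt.1 hcon)
      have h2 := le_max_left R 0
      rw [hx] at h1
      linarith
    have h1 := (convex_ball (0 : E) 1).isPreconnected.intermediate_value hz₁ hxb hρc
    obtain ⟨z, hz, hz'⟩ := h1 ⟨hz₁'.le, hxp.le⟩
    exact ⟨z, hz, hz'⟩
  have hz₀n : ‖z₀‖ < 1 := (hn z₀).1 hz₀
  have hOO : ∀ z : E, ‖z‖ < 1 → ρ z = 0 → z ∈ OO ρ := fun z hz h0 => ⟨hz, h.reg z hz h0⟩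
  have hset : {z | z ∈ OO ρ ∧ ρ z = 0} = {z ∈ Metric.ball (0 : E) 1 | ρ z = 0} := by
    ext z
    constructor
    · rintro ⟨h1, h2⟩
      exact ⟨(hn z).2 h1.1, h2⟩
    · rintro ⟨h1, h2⟩
      exact ⟨hOO z ((hn z).1 h1) h2, h2⟩
  have hconst := const_on_level (oo_open h)
    ((h.smooth.of_le (by norm_num)).mono fun z hz => (hn z).2 hz.1)
    (fun z hz _ => hz.2) (cen_c1 h)
    (fun z hz h0 w hw => cen_der h hT hz.1 h0 hw) (by rw [hset]; exact hcon)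
  set c₀ : E := pr j (cc j ρ lam (io z₀)) with hc₀
  have hcB := cc_B h (hOO z₀ hz₀n hz₀')
  have hcn : ‖c₀‖ < 1 := by
    have h1 := (pr_ball h.cj (X := cc j ρ lam (io z₀)) (by rw [hcB]; linarith)).2
    exact (hn _).1 h1
  have hc2 : 0 < 1 - ‖c₀‖ ^ 2 := by nlinarith [norm_nonneg c₀]
  refine ⟨c₀, hcn, ?_⟩
  set K : ℝ := lam ^ 2 / (lam ^ 2 - 1) * (1 - ‖c₀‖ ^ 2) with hK
  have hK0 : 0 ≤ K := by positivity
  obtain ⟨hq1, hq2⟩ := cq_convex h.cj c₀ hK0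
  have hq0 : cq j c₀ c₀ - K * (1 - ‖c₀‖ ^ 2) < 0 := by
    rw [F6_cq_self h.cj, hK]
    have h1 : 1 < lam ^ 2 / (lam ^ 2 - 1) := by
      rw [one_lt_div hlam]
      linarith
    have h2 : 0 < (1 - ‖c₀‖ ^ 2) ^ 2 := by positivity
    nlinarith
  have hlev : ∀ z ∈ Metric.ball (0 : E) 1, ρ z = 0 → cq j c₀ z - K * (1 - ‖z‖ ^ 2) = 0 := by
    intro z hz h0
    have hzO := hOO z ((hn z).1 hz) h0
    have h1 := hconst z hzO h0 z₀ (hOO z₀ hz₀n hz₀') hz₀'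
    have h2 := cq_level h hzO
    rw [h1, ← hc₀] at h2
    rw [hK, sub_eq_zero]
    field_simp
    linarith
  have hfin := set_eq hρc ⟨R, hR, hR2⟩ ⟨z₁, hz₁, hz₁'⟩ hq1 hq2 ((hn c₀).2 hcn) hq0 hlev
  intro z hz
  obtain ⟨h1, h2⟩ := hfin z hz
  exact ⟨h1.trans sub_neg, h2.trans sub_eq_zero⟩


end Pool.Agent.Helper65.HB
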