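import Pool.Agent.Helper65.HB.Def3

/-! # HB: algebra at a point for the second field -/

set_option autoImplicit false
set_option linter.unusedSectionVars false
set_option linter.unusedVariables false

namespace Pool.Agent.Helper77.JE

variable {L : Type*} [NormedAddCommGroup L] [NormedSpace ℝ L]
variable {B : L →L[ℝ] L →L[ℝ] ℝ} {J : L →L[ℝ] L} {X ν : L} {N : L →L[ℝ] L}
variable {κ : Type*} [Fintype κ] [DecidableEq κ] {e : Option κ → L}

theorem ph_add (a b : L) : phh B J ν (a + b) = phh B J ν a + phh B J ν b := by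
  simp only [phh, map_add, add_apply]
  module

theorem ph_smul (c : ℝ) (a : L) : phh B J ν (c • a) = c • phh B J ν a := by
  simp only [phh, map_smul, smul_apply, smul_eq_mul]
  module

theorem Pt.ph_hz (hH : Hf B J) (hP : Pt B J X ν N) {w : L} (hw : Hz B J X ν w) :
    Hz B J X ν (phh B J ν w) := by
  obtain ⟨h1, h2, h3⟩ := hw
  have e1 : B ν X = 0 := by rw [hH.symm]; exact hP.xn
  have e2 : B ν (J X) = 0 := by rw [hH.symm]; exact hP.jxn
  refine ⟨?_, ?_, ?_⟩
  · unfold phh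
    simp only [map_add, map_smul, add_apply, smul_apply,
      smul_eq_mul, e1]
    rw [hH.skew, h2]
    ring
  · unfold phh
    simp only [map_add, map_smul, add_apply, smul_apply,
      smul_eq_mul, e2]
    rw [hH.inv, h1]
    ring
  · unfold phh
    simp only [map_add, map_smul, add_apply, smul_apply,
      smul_eq_mul, hP.nn]
    rw [hH.skew]
    ring

/-- tested with a vector orthogonal to `ν`, `phh` is `J` -/
theorem ph_test {a b : L} (hb : B ν b = 0) : B (phh B J ν a) b = B (J a) b := by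
  unfold phh
  simp only [map_add, map_smul, add_apply, smul_apply,
    smul_eq_mul, hb]
  ring

theorem ph_skew (hH : Hf B J) {a b : L} (ha : B a ν = 0) (hb : B b ν = 0) :
    B (phh B J ν a) b = -B a (phh B J ν b) := by
  rw [ph_test (by rw [hH.symm]; exact hb), hH.symm a, ph_test (by rw [hH.symm]; exact ha),
    hH.skew, hH.symm a]

theorem ph_xi (hH : Hf B J) (hP : Pt B J X ν N) : phh B J ν (J ν) = 0 := by
  unfold phh
  rw [hH.jj, hH.inv, hP.nn]
  simp

theorem ph_ph (hH : Hf B J) {a : L} (ha : B a ν = 0) :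
    phh B J ν (phh B J ν a) = -a + B a (J ν) • J ν := by
  have e1 : B ν (J ν) = 0 := by rw [hH.symm]; exact hH.self0 ν
  unfold phh
  simp only [map_add, map_smul, add_apply, smul_apply,
    smul_eq_mul, hH.jj, e1]
  rw [hH.inv, ha]
  simp

theorem ph_inv (hH : Hf B J) {a b : L} (ha : B a ν = 0) (hb : B b ν = 0) (hpb : B (phh B J ν b) ν = 0) :
    B (phh B J ν a) (phh B J ν b) = B a b - B a (J ν) * B b (J ν) := by
  rw [ph_skew hH ha hpb, ph_ph hH hb]
  simp only [map_add, map_smul, map_neg, smul_eq_mul]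
  ring

theorem ph_none (hH : Hf B J) {a : L} (ha : B a ν = 0) : B (phh B J ν a) (J ν) = 0 := by
  have e1 : B ν (J ν) = 0 := by rw [hH.symm]; exact hH.self0 ν
  rw [ph_test e1, hH.inv, ha]

/-- `phh` is antisymmetric: it can be moved in a sum over the frame -/
theorem Fr.sum_ph (hH : Hf B J) (hP : Pt B J X ν N) (he : Fr B J X ν e) (f : L → L → ℝ)
    (a1 : ∀ a b c, f (a + b) c = f a c + f b c) (s1 : ∀ (r : ℝ) a c, f (r • a) c = r * f a c)
    (a2 : ∀ a b c, f c (a + b) = f c a + f c b) (s2 : ∀ (r : ℝ) a c, f c (r • a) = r * f c a) :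
    ∑ i, f (phh B J ν (e i)) (e i) = -∑ i, f (e i) (phh B J ν (e i)) := by
  have h1 : ∀ i, f (phh B J ν (e i)) (e i) = ∑ k, B (phh B J ν (e i)) (e k) * f (e k) (e i) :=
    fun i => (he.lin (hP.ph_hz hH (he.hz i)) (fun a => f a (e i)) (fun a b => a1 a b _)
      (fun c a => s1 c a _)).symm
  have h2 : ∀ i, f (e i) (phh B J ν (e i)) = ∑ k, B (phh B J ν (e i)) (e k) * f (e i) (e k) :=
    fun i => (he.lin (hP.ph_hz hH (he.hz i)) (fun a => f (e i) a) (fun a b => a2 a b _)
      (fun c a => s2 c a _)).symm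
  rw [Finset.sum_congr rfl fun i _ => h1 i, Finset.sum_congr rfl fun i _ => h2 i,
    Finset.sum_comm, ← Finset.sum_neg_distrib]
  refine Finset.sum_congr rfl fun i _ => ?_
  rw [← Finset.sum_neg_distrib]
  refine Finset.sum_congr rfl fun k _ => ?_
  rw [ph_skew hH (he.hz k).2.2 (he.hz i).2.2, hH.symm (e k)]
  ring

theorem Fr.sum_asym (hH : Hf B J) (hP : Pt B J X ν N) (he : Fr B J X ν e) (f : L → L → ℝ)
    (hs : ∀ a b, Hz B J X ν a → Hz B J X ν b → f a b = f b a)
    (a1 : ∀ a b c, f (a + b) c = f a c + f b c) (s1 : ∀ (r : ℝ) a c, f (r • a) c = r * f a c)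
    (a2 : ∀ a b c, f c (a + b) = f c a + f c b) (s2 : ∀ (r : ℝ) a c, f c (r • a) = r * f c a) :
    ∑ i, f (e i) (phh B J ν (e i)) = 0 := by
  have h := he.sum_ph hH hP f a1 s1 a2 s2
  have h2 : ∑ i, f (phh B J ν (e i)) (e i) = ∑ i, f (e i) (phh B J ν (e i)) :=
    Finset.sum_congr rfl fun i _ => hs _ _ (hP.ph_hz hH (he.hz i)) (he.hz i)
  rw [h2] at h
  linarith

/-- `∑ B (phh e_i) (T (phh e_i)) = - τ` -/
theorem sum_phT (hH : Hf B J) (hP : Pt B J X ν N) (hxx : B X X = -1) {lam m : ℝ} (hlam : lam ≠ 0)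
    {N2 : L →L[ℝ] L →L[ℝ] L} (he : Fr B J X ν e) (hJ : Jt B J lam m X ν N N2 e) :
    ∑ i, B (phh B J ν (e i)) (Tm B J lam X ν N (phh B J ν (e i))) =
      -B (Tm B J lam X ν N (J ν)) (J ν) := by
  have h := he.sum_ph hH hP (fun a b => B a (Tm B J lam X ν N (phh B J ν b)))
    (fun a b c => by simp only [map_add, add_apply])
    (fun r a c => by simp only [map_smul, smul_apply, smul_eq_mul])
    (fun a b c => by simp only [ph_add, map_add])
    (fun r a c => by simp only [ph_smul, map_smul, smul_eq_mul])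
  rw [h]
  have h1 : ∀ i, B (e i) (Tm B J lam X ν N (phh B J ν (phh B J ν (e i)))) =
      -B (Tm B J lam X ν N (e i)) (e i) +
        B (J ν) (e i) * B (e i) (Tm B J lam X ν N (J ν)) := by
    intro i
    rw [ph_ph hH (he.hz i).2.2]
    simp only [map_add, map_neg, map_smul, smul_eq_mul]
    rw [hH.symm (e i) (Tm B J lam X ν N (e i)), hH.symm (e i) (J ν)]
  rw [Finset.sum_congr rfl fun i _ => h1 i, Finset.sum_add_distrib, Finset.sum_neg_distrib,
    tr_T hH hP hlam he hJ]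
  have h2 : ∑ i, B (J ν) (e i) * B (e i) (Tm B J lam X ν N (J ν)) =
      B (J ν) (Tm B J lam X ν N (J ν)) :=
    he.lin (hP.hz_xi hH) (fun a => B a (Tm B J lam X ν N (J ν)))
      (fun a b => by simp only [map_add, add_apply])
      (fun c a => by simp only [map_smul, smul_apply, smul_eq_mul])
  rw [h2, hH.symm (J ν)]
  ring

/-- the `ν` component of the derivative of `T Q` -/
theorem dTQ_ν (hH : Hf B J) (hP : Pt B J X ν N) {lam : ℝ} (hlam : lam ≠ 0)
    {N2 : L →L[ℝ] L →L[ℝ] L} {u Q Q' : L} (hN2 : B (N2 u Q) ν = -B (N Q) (N u))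
    (h1 : B Q' ν = -B Q (N u)) :
    B (dTm B J lam X ν u (N u) (N2 u) Q + Tm B J lam X ν N Q') ν =
      -B (Tm B J lam X ν N Q) (N u) := by
  have e1 : B (J X) ν = 0 := hP.jxn
  have e2 : B (J u) ν = -B (J ν) u := by rw [hH.skew, hH.symm]
  have e3 : B (J ν) ν = 0 := hH.self0 ν
  have e4 : B (J (N u)) ν = -B (J ν) (N u) := by rw [hH.skew, hH.symm]
  have e5 : B (J X) (N u) = B (J ν) u := by
    rw [hH.symm, hP.NJX, hH.skew ν u]
  have h5 : dTm B J lam X ν u (N u) (N2 u) Q = N2 u Q + B (J (N u)) Q • J X +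
      B (J ν) Q • J u - lam⁻¹ • (B (J (N u)) Q • J ν + B (J ν) Q • J (N u)) := by
    simp [dTm]
  rw [h5, Tm_apply, Tm_apply]
  simp only [map_sub, map_add, map_smul, sub_apply,
    add_apply, smul_apply, smul_eq_mul, hN2, h1, e1, e2,
    e3, e4, e5, hP.Nn]
  ring

/-- the divergence of `phh (T Q)` -/
theorem div_phT (hH : Hf B J) (hP : Pt B J X ν N) (hxx : B X X = -1) {lam m : ℝ} (hlam : lam ≠ 0)
    {N2 : L →L[ℝ] L →L[ℝ] L} (he : Fr B J X ν e) (hJ : Jt B J lam m X ν N N2 e)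
    (hN2 : ∀ u v, B (N2 u v) ν = -B (N v) (N u)) {Q : L} (hQ : Hz B J X ν Q) (Q' : L → L)
    (h1 : ∀ i, B (Q' (e i)) ν = -B Q (N (e i))) (h2 : ∀ i, B (Q' (e i)) X = -B Q (e i))
    (h3 : ∀ i, B (Q' (e i)) (J X) = -B Q (J (e i))) :
    ∑ i, B (dph B J ν (Tm B J lam X ν N Q) (N (e i))
        (dTm B J lam X ν (e i) (N (e i)) (N2 (e i)) Q + Tm B J lam X ν N (Q' (e i)))) (e i) =
      -(lam⁻¹ * B (J ν) Q * B (Tm B J lam X ν N (J ν)) (J ν)) -
        ∑ i, B (Tm B J lam X ν N (phh B J ν (e i))) (Q' (e i)) -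
        B (Tm B J lam X ν N Q) (Tm B J lam X ν N (J ν)) +
        m * lam * B (Tm B J lam X ν N Q) (J ν) := by
  have hξ : Hz B J X ν (J ν) := hP.hz_xi hH
  have hTQ : Hz B J X ν (Tm B J lam X ν N Q) := T_hz hH hP hxx lam hQ
  have hph : ∀ i, Hz B J X ν (phh B J ν (e i)) := fun i => hP.ph_hz hH (he.hz i)
  have key : ∀ i, B (dph B J ν (Tm B J lam X ν N Q) (N (e i))
        (dTm B J lam X ν (e i) (N (e i)) (N2 (e i)) Q + Tm B J lam X ν N (Q' (e i)))) (e i) =
      -(B (N2 Q (e i)) (phh B J ν (e i)) - B (N Q) (e i) * B (N ν) (phh B J ν (e i))) +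
        lam⁻¹ * B (J ν) Q * (B (Tm B J lam X ν N (e i)) (e i) -
          B (J ν) (e i) * B (Tm B J lam X ν N (e i)) (J ν)) -
        B (Tm B J lam X ν N (phh B J ν (e i))) (Q' (e i)) -
        B (J ν) (e i) * B (Tm B J lam X ν N Q) (N (e i)) +
        B (Tm B J lam X ν N Q) (J ν) * B (N (e i)) (e i) := by
    intro i
    have hi := he.hz i
    have hTi : Hz B J X ν (Tm B J lam X ν N (e i)) := T_hz hH hP hxx lam hi
    have hν : B ν (e i) = 0 := by rw [hH.symm]; exact hi.2.2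
    have hd1 := dTQ hH hP hxx hlam N2 hi hQ (hph i) (h1 i) (h2 i) (h3 i)
    have hd2 := dTQ_ν hH hP hlam (hN2 (e i) Q) (h1 i)
    obtain ⟨D, hD⟩ : ∃ D, D = dTm B J lam X ν (e i) (N (e i)) (N2 (e i)) Q +
      Tm B J lam X ν N (Q' (e i)) := ⟨_, rfl⟩
    rw [← hD] at hd1 hd2 ⊢
    have e1 : B (dph B J ν (Tm B J lam X ν N Q) (N (e i)) D) (e i) =
        -B D (J (e i)) + B (Tm B J lam X ν N Q) (J ν) * B (N (e i)) (e i) := by
      unfold dph
      simp only [map_add, map_smul, add_apply, smul_apply,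
        smul_eq_mul]
      rw [hν, hH.skew D (e i)]
      ring
    have e2 : J (e i) = phh B J ν (e i) - B (e i) (J ν) • ν := by
      unfold phh
      abel
    have e3 : B D (J (e i)) = B D (phh B J ν (e i)) - B (e i) (J ν) * B D ν := by
      conv_lhs => rw [e2]
      simp only [map_sub, map_smul, smul_eq_mul]
    have e4 : B (J ν) (phh B J ν (e i)) = 0 := by rw [hH.symm]; exact ph_none hH hi.2.2
    have e5 : B (J (Tm B J lam X ν N (e i))) (phh B J ν (e i)) =
        B (Tm B J lam X ν N (e i)) (e i) -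
          B (J ν) (e i) * B (Tm B J lam X ν N (e i)) (J ν) := by
      rw [← ph_test (J := J) (ν := ν) (by rw [hH.symm]; exact (hph i).2.2),
        ph_inv hH hTi.2.2 hi.2.2 (hph i).2.2, hH.symm (e i) (J ν)]
      ring
    have e6 : B (N (e i)) Q = B (N Q) (e i) :=
      hP.sy _ _ hν (by rw [hH.symm]; exact hQ.2.2)
    rw [e1, e3, hd1, hd2, e4, e5, e6, hJ.s2 (e i) Q, hH.symm (e i) (J ν)]
    ring
  have s1 : ∑ i, (B (N2 Q (e i)) (phh B J ν (e i)) - B (N Q) (e i) * B (N ν) (phh B J ν (e i))) =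
      0 := by
    apply he.sum_asym hH hP (fun a b => B (N2 Q a) b - B (N Q) a * B (N ν) b)
    · intro a b ha hb
      exact hJ.cc Q a b hQ ha hb
    · intro a b c
      simp only [map_add, add_apply]
      ring
    · intro r a c
      simp only [map_smul, smul_apply, smul_eq_mul]
      ring
    · intro a b c
      simp only [map_add]
      ring
    · intro r a c
      simp only [map_smul, smul_eq_mul]
      ring
  have s2 : ∑ i, B (Tm B J lam X ν N (e i)) (e i) = 0 := tr_T hH hP hlam he hJ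
  have s3 : ∑ i, B (J ν) (e i) * B (Tm B J lam X ν N (e i)) (J ν) =
      B (Tm B J lam X ν N (J ν)) (J ν) :=
    he.lin hξ (fun a => B (Tm B J lam X ν N a) (J ν))
      (fun a b => by simp only [map_add, add_apply])
      (fun c a => by simp only [map_smul, smul_apply, smul_eq_mul])
  have s4 : ∑ i, B (J ν) (e i) * B (Tm B J lam X ν N Q) (N (e i)) =
      B (Tm B J lam X ν N Q) (N (J ν)) :=
    he.lin hξ (fun a => B (Tm B J lam X ν N Q) (N a))
      (fun a b => by simp only [map_add]) (fun c a => by simp only [map_smul, smul_eq_mul])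
  have s5 : B (Tm B J lam X ν N Q) (N (J ν)) = B (Tm B J lam X ν N Q) (Tm B J lam X ν N (J ν)) +
      (lam + lam⁻¹) * B (Tm B J lam X ν N Q) (J ν) := by
    rw [N_eq (B := B) (J := J) (X := X) (ν := ν) (N := N) lam (J ν)]
    simp only [map_sub, map_add, map_smul, smul_eq_mul]
    rw [hTQ.2.1, hH.inv, hP.nn]
    ring
  rw [Finset.sum_congr rfl fun i _ => key i]
  simp only [Finset.sum_add_distrib, Finset.sum_sub_distrib, Finset.sum_neg_distrib,
    ← Finset.mul_sum]
  simp only [Finset.sum_sub_distrib] at s1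
  rw [s1, s2, s3, s4, s5, hJ.tr1]
  ring

/-- `tr (φ T φ T)`, up to the sign -/
noncomputable def TDs (B : L →L[ℝ] L →L[ℝ] ℝ) (J : L →L[ℝ] L) (ν : L) (T : L →L[ℝ] L)
    (e : Option κ → L) : ℝ :=
  ∑ i, B (phh B J ν (T (e i))) (T (phh B J ν (e i)))

/-- the divergence of `phh (T ξ)` -/
theorem div3 (hH : Hf B J) (hP : Pt B J X ν N) (hxx : B X X = -1) {lam m : ℝ} (hlam : lam ≠ 0)
    {N2 : L →L[ℝ] L →L[ℝ] L} (he : Fr B J X ν e) (hJ : Jt B J lam m X ν N N2 e)
    (hN2 : ∀ u v, B (N2 u v) ν = -B (N v) (N u)) :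
    ∑ i, B (dph B J ν (Tm B J lam X ν N (J ν)) (N (e i))
        (dTm B J lam X ν (e i) (N (e i)) (N2 (e i)) (J ν) + Tm B J lam X ν N (J (N (e i)))))
        (e i) =
      -(lam⁻¹ * B (Tm B J lam X ν N (J ν)) (J ν)) - TDs B J ν (Tm B J lam X ν N) e +
        (m + 1) * lam * B (Tm B J lam X ν N (J ν)) (J ν) -
        B (Tm B J lam X ν N (J ν)) (Tm B J lam X ν N (J ν)) := by
  have hξ : Hz B J X ν (J ν) := hP.hz_xi hH
  have hph : ∀ i, Hz B J X ν (phh B J ν (e i)) := fun i => hP.ph_hz hH (he.hz i)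
  rw [div_phT hH hP hxx hlam he hJ hN2 hξ (fun u => J (N u)) (fun i => (dxi_con hH hP (he.hz i)).1)
    (fun i => (dxi_con hH hP (he.hz i)).2.1) (fun i => (dxi_con hH hP (he.hz i)).2.2)]
  have e0 : B (J ν) (J ν) = 1 := by rw [hH.inv, hP.nn]
  have key : ∀ i, B (Tm B J lam X ν N (phh B J ν (e i))) (J (N (e i))) =
      B (phh B J ν (Tm B J lam X ν N (e i))) (Tm B J lam X ν N (phh B J ν (e i))) +
        lam * B (phh B J ν (e i)) (Tm B J lam X ν N (phh B J ν (e i))) := by
    intro i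
    have h1 : Hz B J X ν (Tm B J lam X ν N (phh B J ν (e i))) := T_hz hH hP hxx lam (hph i)
    have h2 : B ν (Tm B J lam X ν N (phh B J ν (e i))) = 0 := by rw [hH.symm]; exact h1.2.2
    rw [hH.symm, dxi_test hH hP hlam h1, ph_test h2, ph_test h2]
  rw [Finset.sum_congr rfl fun i _ => key i, Finset.sum_add_distrib, ← Finset.mul_sum,
    sum_phT hH hP hxx hlam he hJ, e0]
  unfold TDs
  ring

/-- the constraints for the derivative of `phh W` -/
theorem dph_con (hH : Hf B J) (hP : Pt B J X ν N) {u W W' : L} (hu : Hz B J X ν u)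
    (h1 : B W' ν = -B W (N u)) (h2 : B W' X = -B W u) (h3 : B W' (J X) = -B W (J u)) :
    B (dph B J ν W (N u) W') ν = -B (phh B J ν W) (N u) ∧
    B (dph B J ν W (N u) W') X = -B (phh B J ν W) u ∧
    B (dph B J ν W (N u) W') (J X) = -B (phh B J ν W) (J u) := by
  have c1 : B ν u = 0 := by rw [hH.symm]; exact hu.2.2
  have c2 : B ν X = 0 := by rw [hH.symm]; exact hP.xn
  have c3 : B ν (J X) = 0 := by rw [hH.symm]; exact hP.jxn
  have c4 : B ν (N u) = 0 := by rw [hH.symm]; exact hP.Nn u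
  have d1 : B (N u) X = 0 := by rw [hP.NX, c1, neg_zero]
  have d2 : B (N u) (J X) = -B ν (J u) := hP.NJX u
  refine ⟨?_, ?_, ?_⟩
  · unfold dph phh
    simp only [map_add, map_smul, add_apply, smul_apply, smul_eq_mul]
    rw [hP.nn, hP.Nn, c4, hH.skew W' ν, hH.skew W (N u)]
    ring
  · unfold dph phh
    simp only [map_add, map_smul, add_apply, smul_apply, smul_eq_mul]
    rw [c2, d1, hH.skew W' X, h3, hH.skew W u, c1]
    ring
  · unfold dph phh
    simp only [map_add, map_smul, add_apply, smul_apply, smul_eq_mul]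
    rw [c3, d2, hH.inv, h2, hH.inv]
    ring

/-- the divergence of `phh (T (phh W))` -/
theorem div4 (hH : Hf B J) (hP : Pt B J X ν N) (hxx : B X X = -1) {lam m : ℝ} (hlam : lam ≠ 0)
    {N2 : L →L[ℝ] L →L[ℝ] L} (he : Fr B J X ν e) (hJ : Jt B J lam m X ν N N2 e)
    (hN2 : ∀ u v, B (N2 u v) ν = -B (N v) (N u)) (p : L) :
    ∑ i, B (dph B J ν (Tm B J lam X ν N (phh B J ν (Wd B J lam p X ν))) (N (e i))
        (dTm B J lam X ν (e i) (N (e i)) (N2 (e i)) (phh B J ν (Wd B J lam p X ν)) +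
          Tm B J lam X ν N (dph B J ν (Wd B J lam p X ν) (N (e i))
            (dWd B J lam p X ν (e i) (N (e i)))))) (e i) =
      ∑ i, (B p (Tm B J lam X ν N (e i)) *
          B p (phh B J ν (Tm B J lam X ν N (phh B J ν (e i)))) +
        B (J p) (Tm B J lam X ν N (e i)) *
          B (J p) (phh B J ν (Tm B J lam X ν N (phh B J ν (e i))))) +
      (n1 B lam p X ν * B p X + n2 B J lam p X ν * B (J p) X + Aa B J lam p X ν * lam) *
        B (Tm B J lam X ν N (J ν)) (J ν) -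
      Aa B J lam p X ν * TDs B J ν (Tm B J lam X ν N) e -
      B (phh B J ν (Tm B J lam X ν N (J ν))) (Tm B J lam X ν N (Wd B J lam p X ν)) -
      B (Tm B J lam X ν N (phh B J ν (Wd B J lam p X ν))) (Tm B J lam X ν N (J ν)) +
      (m + 1) * lam * B (Tm B J lam X ν N (J ν)) (phh B J ν (Wd B J lam p X ν)) := by
  have hξ : Hz B J X ν (J ν) := hP.hz_xi hH
  have hW : Hz B J X ν (Wd B J lam p X ν) := W_hz hH hP hxx lam p
  have hpW : Hz B J X ν (phh B J ν (Wd B J lam p X ν)) := hP.ph_hz hH hW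
  have hTξ : Hz B J X ν (Tm B J lam X ν N (J ν)) := T_hz hH hP hxx lam hξ
  have hph : ∀ i, Hz B J X ν (phh B J ν (e i)) := fun i => hP.ph_hz hH (he.hz i)
  have hcon := fun i => dph_con hH hP (he.hz i) (dW_con hH hP hxx lam p (he.hz i)).1
    (dW_con hH hP hxx lam p (he.hz i)).2.1 (dW_con hH hP hxx lam p (he.hz i)).2.2
  rw [div_phT hH hP hxx hlam he hJ hN2 hpW
    (fun u => dph B J ν (Wd B J lam p X ν) (N u) (dWd B J lam p X ν u (N u)))
    (fun i => (hcon i).1) (fun i => (hcon i).2.1) (fun i => (hcon i).2.2)]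
  have e0 : B (J ν) (phh B J ν (Wd B J lam p X ν)) = 0 := by
    rw [hH.symm]
    exact ph_none hH hW.2.2
  have e1 : B (Tm B J lam X ν N (phh B J ν (Wd B J lam p X ν))) (J ν) =
      B (Tm B J lam X ν N (J ν)) (phh B J ν (Wd B J lam p X ν)) := T_symm hH hP lam hpW hξ
  -- the term at one frame vector
  have key : ∀ i, B (Tm B J lam X ν N (phh B J ν (e i)))
        (dph B J ν (Wd B J lam p X ν) (N (e i)) (dWd B J lam p X ν (e i) (N (e i)))) =
      -((B p (Tm B J lam X ν N (e i)) *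
          B p (phh B J ν (Tm B J lam X ν N (phh B J ν (e i)))) +
        B (J p) (Tm B J lam X ν N (e i)) *
          B (J p) (phh B J ν (Tm B J lam X ν N (phh B J ν (e i)))))) +
      lam⁻¹ * n2 B J lam p X ν *
        (B (J ν) (e i) * B p (phh B J ν (Tm B J lam X ν N (phh B J ν (e i))))) -
      lam⁻¹ * n1 B lam p X ν *
        (B (J ν) (e i) * B (J p) (phh B J ν (Tm B J lam X ν N (phh B J ν (e i))))) +
      (n1 B lam p X ν * B p X + n2 B J lam p X ν * B (J p) X + Aa B J lam p X ν * lam) *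
        B (phh B J ν (e i)) (Tm B J lam X ν N (phh B J ν (e i))) -
      (n2 B J lam p X ν * B p X - n1 B lam p X ν * B (J p) X) *
        (B (e i) (Tm B J lam X ν N (phh B J ν (e i))) -
          B (J ν) (e i) * B (J ν) (Tm B J lam X ν N (phh B J ν (e i)))) +
      Aa B J lam p X ν * B (phh B J ν (Tm B J lam X ν N (e i)))
        (Tm B J lam X ν N (phh B J ν (e i))) -
      B (phh B J ν (Tm B J lam X ν N (J ν))) (e i) * B (Wd B J lam p X ν) (N (e i)) * (-1) +
      B (Wd B J lam p X ν) (J ν) *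
        (B (Tm B J lam X ν N (phh B J ν (e i))) (Tm B J lam X ν N (e i)) +
          lam * B (e i) (Tm B J lam X ν N (phh B J ν (e i))) +
          lam⁻¹ * (B (J ν) (e i) * B (J ν) (Tm B J lam X ν N (phh B J ν (e i))))) := by
    intro i
    have hi := he.hz i
    obtain ⟨v, hv⟩ : ∃ v, v = Tm B J lam X ν N (phh B J ν (e i)) := ⟨_, rfl⟩
    have hvz : Hz B J X ν v := by rw [hv]; exact T_hz hH hP hxx lam (hph i)
    have hTi : Hz B J X ν (Tm B J lam X ν N (e i)) := T_hz hH hP hxx lam hi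
    have hvi : Hz B J X ν (phh B J ν v) := hP.ph_hz hH hvz
    have h1 := dW_test hH hP hlam p hi hvi
    have h2 := (dW_con hH hP hxx lam p hi).1
    have h3 : B (J ν) (phh B J ν v) = 0 := by rw [hH.symm]; exact ph_none hH hvz.2.2
    have h4 : B (e i) (phh B J ν v) = -B (phh B J ν (e i)) v := by
      rw [ph_skew hH hi.2.2 hvz.2.2]
      ring
    have h5 : B (J (e i)) (phh B J ν v) = B (e i) v - B (J ν) (e i) * B (J ν) v := by
      rw [← ph_test (J := J) (ν := ν) (by rw [hH.symm]; exact hvi.2.2),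
        ph_inv hH hi.2.2 hvz.2.2 hvi.2.2, hH.symm (e i) (J ν), hH.symm v (J ν)]
    have h6 : B (Tm B J lam X ν N (e i)) (phh B J ν v) = -B (phh B J ν (Tm B J lam X ν N (e i))) v := by
      rw [ph_skew hH hTi.2.2 hvz.2.2]
      ring
    have h7 : B v (J ν) = -B (phh B J ν (Tm B J lam X ν N (J ν))) (e i) := by
      rw [hv, T_symm hH hP lam (hph i) hξ, ph_skew hH hTξ.2.2 hi.2.2]
      ring
    have h8 : B v (N (e i)) = B v (Tm B J lam X ν N (e i)) + lam * B (e i) v +
        lam⁻¹ * (B (J ν) (e i) * B (J ν) v) := by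
      have h9 := congrArg (fun w => B v w) (N_eq (B := B) (J := J) (X := X) (ν := ν) (N := N) lam (e i))
      simp only [map_sub, map_add, map_smul, smul_eq_mul] at h9
      rw [h9, hvz.2.1, hH.symm v (e i), hH.symm v (J ν)]
      ring
    have h10 : J v = phh B J ν v - B v (J ν) • ν := by
      unfold phh
      abel
    obtain ⟨D, hD⟩ : ∃ D, D = dWd B J lam p X ν (e i) (N (e i)) := ⟨_, rfl⟩
    rw [← hv]
    rw [← hD] at h1 h2 ⊢
    have h11 : B v (J D) = -B D (phh B J ν v) - B v (J ν) * B (Wd B J lam p X ν) (N (e i)) := by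
      have h12 : B v (J D) = -B (J v) D := by rw [hH.skew]; ring
      rw [h12, h10]
      simp only [map_sub, map_smul, sub_apply, smul_apply, smul_eq_mul]
      rw [hH.symm (phh B J ν v) D, hH.symm ν D, h2]
      ring
    unfold dph
    simp only [map_add, map_smul, smul_eq_mul]
    rw [h11, hvz.2.2, h8, h1, h3, h4, h5, h6]
    rw [h7]
    ring
  have s1 : ∑ i, B (J ν) (e i) * B p (phh B J ν (Tm B J lam X ν N (phh B J ν (e i)))) = 0 := by
    rw [he.lin hξ (fun a => B p (phh B J ν (Tm B J lam X ν N (phh B J ν a))))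
      (fun a b => by simp only [ph_add, map_add])
      (fun c a => by simp only [ph_smul, map_smul, smul_eq_mul]), ph_xi hH hP]
    simp [phh]
  have s2 : ∑ i, B (J ν) (e i) * B (J p) (phh B J ν (Tm B J lam X ν N (phh B J ν (e i)))) = 0 := by
    rw [he.lin hξ (fun a => B (J p) (phh B J ν (Tm B J lam X ν N (phh B J ν a))))
      (fun a b => by simp only [ph_add, map_add])
      (fun c a => by simp only [ph_smul, map_smul, smul_eq_mul]), ph_xi hH hP]
    simp [phh]
  have s3 : ∑ i, B (J ν) (e i) * B (J ν) (Tm B J lam X ν N (phh B J ν (e i))) = 0 := by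
    rw [he.lin hξ (fun a => B (J ν) (Tm B J lam X ν N (phh B J ν a)))
      (fun a b => by simp only [ph_add, map_add])
      (fun c a => by simp only [ph_smul, map_smul, smul_eq_mul]), ph_xi hH hP]
    simp
  have s4 : ∑ i, B (e i) (Tm B J lam X ν N (phh B J ν (e i))) = 0 := by
    apply he.sum_asym hH hP (fun a b => B a (Tm B J lam X ν N b))
    · intro a b ha hb
      rw [hH.symm, T_symm hH hP lam hb ha, hH.symm]
    · intro a b c
      simp only [map_add, add_apply]
    · intro r a c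
      simp only [map_smul, smul_apply, smul_eq_mul]
    · intro a b c
      simp only [map_add]
    · intro r a c
      simp only [map_smul, smul_eq_mul]
  have s5 : ∑ i, B (Tm B J lam X ν N (phh B J ν (e i))) (Tm B J lam X ν N (e i)) = 0 := by
    apply he.sum_asym hH hP (fun a b => B (Tm B J lam X ν N b) (Tm B J lam X ν N a))
    · intro a b ha hb
      exact hH.symm _ _
    · intro a b c
      simp only [map_add]
    · intro r a c
      simp only [map_smul, smul_eq_mul]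
    · intro a b c
      simp only [map_add, add_apply]
    · intro r a c
      simp only [map_smul, smul_apply, smul_eq_mul]
  have s6 : ∑ i, B (phh B J ν (Tm B J lam X ν N (J ν))) (e i) * B (Wd B J lam p X ν) (N (e i)) =
      B (phh B J ν (Tm B J lam X ν N (J ν))) (Tm B J lam X ν N (Wd B J lam p X ν)) -
        lam * B (Tm B J lam X ν N (J ν)) (phh B J ν (Wd B J lam p X ν)) := by
    have hpT : Hz B J X ν (phh B J ν (Tm B J lam X ν N (J ν))) := hP.ph_hz hH hTξ
    rw [he.lin hpT (fun a => B (Wd B J lam p X ν) (N a)) (fun a b => by simp only [map_add])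
      (fun c a => by simp only [map_smul, smul_eq_mul])]
    have h9 := congrArg (fun w => B (Wd B J lam p X ν) w) (N_eq (B := B) (J := J) (X := X) (ν := ν)
      (N := N) lam (phh B J ν (Tm B J lam X ν N (J ν))))
    simp only [map_sub, map_add, map_smul, smul_eq_mul] at h9
    have h10 : B (J ν) (phh B J ν (Tm B J lam X ν N (J ν))) = 0 := by
      rw [hH.symm]
      exact ph_none hH hTξ.2.2
    rw [h9, h10, hH.symm (Wd B J lam p X ν) (Tm B J lam X ν N _), T_symm hH hP lam hpT hW,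
      hH.symm (Tm B J lam X ν N (Wd B J lam p X ν)), hH.symm (Wd B J lam p X ν),
      ph_skew hH hTξ.2.2 hW.2.2]
    ring
  have s7 := sum_phT hH hP hxx hlam he hJ
  rw [Finset.sum_congr rfl fun i _ => key i]
  simp only [Finset.sum_add_distrib, Finset.sum_sub_distrib, Finset.sum_neg_distrib,
    ← Finset.mul_sum, ← Finset.sum_mul]
  rw [s1, s2, s3, s4, s5, s6, s7, e0, e1]
  unfold TDs
  ring

/-- the gradient of `rho`, tested -/
theorem drh_test (hH : Hf B J) (hP : Pt B J X ν N) (hxx : B X X = -1) {lam : ℝ} (hlam : lam ≠ 0)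
    (p : L) {u : L} (hu : Hz B J X ν u) :
    drh B J lam p X ν u (N u) = 2 * B (Wd B J lam p X ν) (Tm B J lam X ν N u) := by
  unfold drh
  rw [dn1 hH hP hlam p u, dn2 hH hP hlam p u, W_test hH lam p (T_hz hH hP hxx lam hu)]
  ring

theorem dbt_test (hH : Hf B J) (hP : Pt B J X ν N) (hxx : B X X = -1) {lam : ℝ} (hlam : lam ≠ 0)
    (p : L) {u : L} (hu : Hz B J X ν u) :
    dbt B J lam p X ν u (N u) = B (Wd B J lam p X ν) (Tm B J lam X ν N u) := by
  unfold dbt
  rw [drh_test hH hP hxx hlam p hu]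
  ring

/-- the gradient of `𝒜`, tested with a vector orthogonal to `ξ` -/
theorem dAa_test (hH : Hf B J) (hP : Pt B J X ν N) (hxx : B X X = -1) {lam : ℝ} (hlam : lam ≠ 0)
    (p : L) {u : L} (hu : Hz B J X ν u) (hξ : B (J ν) u = 0) :
    dAa B J lam p X ν u (N u) =
      -(B p ν * B p (Tm B J lam X ν N u) + B (J p) ν * B (J p) (Tm B J lam X ν N u) +
        B (Wd B J lam p X ν) (Tm B J lam X ν N u) + lam * B (Wd B J lam p X ν) u) := by
  have h1 : N u = Tm B J lam X ν N u + lam • u := by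
    have h := N_eq (B := B) (J := J) (X := X) (ν := ν) (N := N) lam u
    rw [hξ] at h
    rw [h]
    simp
  unfold dAa
  rw [W_test hH lam p (T_hz hH hP hxx lam hu), W_test hH lam p hu]
  obtain ⟨T, hT⟩ : ∃ T, T = Tm B J lam X ν N u := ⟨_, rfl⟩
  rw [← hT] at h1 ⊢
  rw [h1]
  simp only [map_add, map_smul, smul_eq_mul]
  unfold n1 n2
  ring

private theorem s7_dTm (lam : ℝ) (x dx dν : L) (dS : L →L[ℝ] L) (Q : L) :
    dTm B J lam x ν dx dν dS Q = dS Q + B (J dν) Q • J x + B (J ν) Q • J dx -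
      lam⁻¹ • (B (J dν) Q • J ν + B (J ν) Q • J dν) := by
  simp [dTm]

private theorem s7_dTm_add (lam : ℝ) (x : L) (N2 : L →L[ℝ] L →L[ℝ] L) (a b Q : L) :
    dTm B J lam x ν (a + b) (N (a + b)) (N2 (a + b)) Q =
      dTm B J lam x ν a (N a) (N2 a) Q + dTm B J lam x ν b (N b) (N2 b) Q := by
  rw [s7_dTm, s7_dTm, s7_dTm]
  simp only [map_add, add_apply]
  module

private theorem s7_dTm_smul (lam : ℝ) (x : L) (N2 : L →L[ℝ] L →L[ℝ] L) (c : ℝ) (a Q : L) :
    dTm B J lam x ν (c • a) (N (c • a)) (N2 (c • a)) Q =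
      c • dTm B J lam x ν a (N a) (N2 a) Q := by
  rw [s7_dTm, s7_dTm]
  simp only [map_smul, smul_apply, smul_eq_mul]
  module

private theorem s7_dWd_add (lam : ℝ) (p a b : L) :
    dWd B J lam p X ν (a + b) (N (a + b)) =
      dWd B J lam p X ν a (N a) + dWd B J lam p X ν b (N b) := by
  simp only [dWd, n1, n2, dAa, map_add]
  module

private theorem s7_dWd_smul (lam : ℝ) (p : L) (c : ℝ) (a : L) :
    dWd B J lam p X ν (c • a) (N (c • a)) = c • dWd B J lam p X ν a (N a) := by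
  simp only [dWd, n1, n2, dAa, map_smul, smul_eq_mul]
  module

private theorem s7_dkp_add (p a b : L) :
    dkp B J p X ν (a + b) (N (a + b)) =
      dkp B J p X ν a (N a) + dkp B J p X ν b (N b) := by
  simp only [dkp, map_add]
  ring

private theorem s7_dkp_smul (p : L) (c : ℝ) (a : L) :
    dkp B J p X ν (c • a) (N (c • a)) = c * dkp B J p X ν a (N a) := by
  simp only [dkp, map_smul, smul_eq_mul]
  ring

private theorem s7_drh_add (lam : ℝ) (p a b : L) :
    drh B J lam p X ν (a + b) (N (a + b)) =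
      drh B J lam p X ν a (N a) + drh B J lam p X ν b (N b) := by
  simp only [drh, n1, n2, map_add]
  ring

private theorem s7_drh_smul (lam : ℝ) (p : L) (c : ℝ) (a : L) :
    drh B J lam p X ν (c • a) (N (c • a)) = c * drh B J lam p X ν a (N a) := by
  simp only [drh, n1, n2, map_smul, smul_eq_mul]
  ring

private theorem s7_dbt_add (lam : ℝ) (p a b : L) :
    dbt B J lam p X ν (a + b) (N (a + b)) =
      dbt B J lam p X ν a (N a) + dbt B J lam p X ν b (N b) := by
  unfold dbt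
  rw [s7_drh_add]
  ring

private theorem s7_dbt_smul (lam : ℝ) (p : L) (c : ℝ) (a : L) :
    dbt B J lam p X ν (c • a) (N (c • a)) = c * dbt B J lam p X ν a (N a) := by
  unfold dbt
  rw [s7_drh_smul]
  ring

private theorem s7_dlc_add (lam : ℝ) (p a b : L) :
    dlc B J lam p X ν (a + b) (N (a + b)) =
      dlc B J lam p X ν a (N a) + dlc B J lam p X ν b (N b) := by
  unfold dlc
  rw [s7_dbt_add, s7_drh_add]
  simp only [dAa, map_add]
  ring

private theorem s7_dlc_smul (lam : ℝ) (p : L) (c : ℝ) (a : L) :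
    dlc B J lam p X ν (c • a) (N (c • a)) = c * dlc B J lam p X ν a (N a) := by
  unfold dlc
  rw [s7_dbt_smul, s7_drh_smul]
  simp only [dAa, map_smul, smul_eq_mul]
  ring

/-- the trace of `dV3` in terms of the sums above -/
theorem sum_dV3 (hH : Hf B J) (hP : Pt B J X ν N) (hxx : B X X = -1) {lam m : ℝ} (hlam : lam ≠ 0)
    {N2 : L →L[ℝ] L →L[ℝ] L} (he : Fr B J X ν e) (hJ : Jt B J lam m X ν N N2 e) (p : L) :
    ∑ i, B (dV3 B J lam m p X ν N (e i) (N (e i)) (N2 (e i))) (e i) =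
      (m / 2 + 1) * lam ^ 2 * (lam ^ 2 - 1) *
        dbt B J lam p X ν (Tm B J lam X ν N (Wd B J lam p X ν))
          (N (Tm B J lam X ν N (Wd B J lam p X ν))) +
      (m / 2 + 1) * lam ^ 2 * Pc B J lam p X ν *
        ∑ i, B (dTm B J lam X ν (e i) (N (e i)) (N2 (e i)) (Wd B J lam p X ν) +
          Tm B J lam X ν N (dWd B J lam p X ν (e i) (N (e i)))) (e i) +
      lam ^ 2 * lam * dkp B J p X ν (Tm B J lam X ν N (J ν)) (N (Tm B J lam X ν N (J ν))) +
      lam ^ 2 * (lam * kp B J p X ν) *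
        ∑ i, B (dTm B J lam X ν (e i) (N (e i)) (N2 (e i)) (J ν) +
          Tm B J lam X ν N (J (N (e i)))) (e i) +
      dlc B J lam p X ν (phh B J ν (Tm B J lam X ν N (J ν)))
        (N (phh B J ν (Tm B J lam X ν N (J ν)))) +
      lc B J lam p X ν *
        ∑ i, B (dph B J ν (Tm B J lam X ν N (J ν)) (N (e i))
          (dTm B J lam X ν (e i) (N (e i)) (N2 (e i)) (J ν) +
            Tm B J lam X ν N (J (N (e i))))) (e i) -
      (lam ^ 2 - 1) * dbt B J lam p X ν
        (phh B J ν (Tm B J lam X ν N (phh B J ν (Wd B J lam p X ν))))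
        (N (phh B J ν (Tm B J lam X ν N (phh B J ν (Wd B J lam p X ν))))) -
      Pc B J lam p X ν *
        ∑ i, B (dph B J ν (Tm B J lam X ν N (phh B J ν (Wd B J lam p X ν))) (N (e i))
          (dTm B J lam X ν (e i) (N (e i)) (N2 (e i)) (phh B J ν (Wd B J lam p X ν)) +
            Tm B J lam X ν N (dph B J ν (Wd B J lam p X ν) (N (e i))
              (dWd B J lam p X ν (e i) (N (e i)))))) (e i) +
      lam ^ 2 * (B (Tm B J lam X ν N (J ν)) (Wd B J lam p X ν) *
          dbt B J lam p X ν (J ν) (N (J ν)) -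
        B (Tm B J lam X ν N (J ν)) (J ν) *
          dbt B J lam p X ν (Wd B J lam p X ν) (N (Wd B J lam p X ν))) +
      lam ^ 2 * bt B J lam p X ν *
        ((B (dTm B J lam X ν (J ν) (N (J ν)) (N2 (J ν)) (J ν) + Tm B J lam X ν N (J (N (J ν))))
            (Wd B J lam p X ν) +
          B (Tm B J lam X ν N (J ν)) (dWd B J lam p X ν (J ν) (N (J ν)))) +
        B (Tm B J lam X ν N (J ν)) (Wd B J lam p X ν) * ∑ i, B (J (N (e i))) (e i) -
        (B (dTm B J lam X ν (Wd B J lam p X ν) (N (Wd B J lam p X ν)) (N2 (Wd B J lam p X ν))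
              (J ν) + Tm B J lam X ν N (J (N (Wd B J lam p X ν)))) (J ν) +
          B (Tm B J lam X ν N (J ν)) (J (N (Wd B J lam p X ν)))) -
        B (Tm B J lam X ν N (J ν)) (J ν) *
          ∑ i, B (dWd B J lam p X ν (e i) (N (e i))) (e i)) := by
  have hξ : Hz B J X ν (J ν) := hP.hz_xi hH
  have hT : Hz B J X ν (Tm B J lam X ν N (J ν)) := T_hz hH hP hxx lam hξ
  have hW : Hz B J X ν (Wd B J lam p X ν) := W_hz hH hP hxx lam p
  have hTW : Hz B J X ν (Tm B J lam X ν N (Wd B J lam p X ν)) := T_hz hH hP hxx lam hW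
  have hpT : Hz B J X ν (phh B J ν (Tm B J lam X ν N (J ν))) := hP.ph_hz hH hT
  have hpp : Hz B J X ν (phh B J ν (Tm B J lam X ν N (phh B J ν (Wd B J lam p X ν)))) :=
    hP.ph_hz hH (T_hz hH hP hxx lam (hP.ph_hz hH hW))
  have f1 := he.lin hξ (fun u => B (dTm B J lam X ν u (N u) (N2 u) (J ν) +
      Tm B J lam X ν N (J (N u))) (Wd B J lam p X ν) +
      B (Tm B J lam X ν N (J ν)) (dWd B J lam p X ν u (N u)))
    (by
      intro a b
      simp only [s7_dTm_add, s7_dWd_add]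
      simp only [map_add, add_apply]
      ring)
    (by
      intro c a
      simp only [s7_dTm_smul, s7_dWd_smul]
      simp only [map_add, map_smul, add_apply, smul_apply, smul_eq_mul]
      ring)
  have f2 := he.lin hW (fun u => B (dTm B J lam X ν u (N u) (N2 u) (J ν) +
      Tm B J lam X ν N (J (N u))) (J ν) +
      B (Tm B J lam X ν N (J ν)) (J (N u)))
    (by
      intro a b
      simp only [s7_dTm_add]
      simp only [map_add, add_apply]
      ring)
    (by
      intro c a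
      simp only [s7_dTm_smul]
      simp only [map_add, map_smul, add_apply, smul_apply, smul_eq_mul]
      ring)
  have f3 := he.lin hT (fun u => dkp B J p X ν u (N u))
    (fun a b => s7_dkp_add p a b) (fun c a => s7_dkp_smul p c a)
  have f4 := he.lin hTW (fun u => dbt B J lam p X ν u (N u))
    (fun a b => s7_dbt_add lam p a b) (fun c a => s7_dbt_smul lam p c a)
  have f5 := he.lin hpp (fun u => dbt B J lam p X ν u (N u))
    (fun a b => s7_dbt_add lam p a b) (fun c a => s7_dbt_smul lam p c a)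
  have f6 := he.lin hξ (fun u => dbt B J lam p X ν u (N u))
    (fun a b => s7_dbt_add lam p a b) (fun c a => s7_dbt_smul lam p c a)
  have f7 := he.lin hW (fun u => dbt B J lam p X ν u (N u))
    (fun a b => s7_dbt_add lam p a b) (fun c a => s7_dbt_smul lam p c a)
  have f8 := he.lin hpT (fun u => dlc B J lam p X ν u (N u))
    (fun a b => s7_dlc_add lam p a b) (fun c a => s7_dlc_smul lam p c a)
  rw [← f1, ← f2, ← f3, ← f4, ← f5, ← f6, ← f7, ← f8]
  simp only [Finset.mul_sum, ← Finset.sum_add_distrib, ← Finset.sum_sub_distrib]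
  refine Finset.sum_congr rfl fun i _ => ?_
  simp only [dV3, map_add, map_sub, map_smul, add_apply, sub_apply, smul_apply, smul_eq_mul]
  ring

/-- the part linear in `T` vanishes -/
private theorem alg3 {lam mu m z1 z2 s1 s2 a1 a2 t S1 S2 S3 S4 TD WW XX WpX pT JpT pWX WppW JXW XW
    WT pTT JpTT x1 x2 A ρ β P lc JW : ℝ} (hl : lam * mu = 1) (hlam : lam ≠ 0)
    (hx1 : x1 = s1 - lam * z1) (hx2 : x2 = s2 - lam * z2)
    (hA : A = lam * (z1 * s1 + z2 * s2) - (s1 ^ 2 + s2 ^ 2)) (hρ : ρ = x1 ^ 2 + x2 ^ 2)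
    (hβ : β = (ρ - lam ^ 2) / 2) (hP : P = lam ^ 2 + β * (lam ^ 2 - 1))
    (hlc : lc = β * ((lam ^ 2 - 1) * A - ρ)) (hJW : JW = -(x1 * a2) + x2 * a1 - A * t) :
    (m / 2 + 1) * lam ^ 2 * (lam ^ 2 - 1) * WW +
      (m / 2 + 1) * lam ^ 2 * P * (S1 + A * S2 - 2 * mu * JW) +
      lam ^ 2 * lam * ((a1 * s2 - a2 * s1) + (z1 * JpTT - z2 * pTT) + lam * (z1 * a2 - z2 * a1) +
        t * (mu * (z1 * s1 + z2 * s2) - (z1 ^ 2 + z2 ^ 2))) +
      (WpX * ((lam ^ 2 - 1) * A - ρ) + β * ((lam ^ 2 - 1) *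
        (-(s1 * pT + s2 * JpT + WpX + lam * JW)) - 2 * WpX)) +
      lc * (-(mu * t) - TD + (m + 1) * lam * t - XX) - (lam ^ 2 - 1) * WppW -
      P * (S3 + (x1 * z1 + x2 * z2 + A * lam) * t - A * TD - WpX - pWX + (m + 1) * lam * (-JW)) +
      lam ^ 2 * (XW * XW - t * WT) +
      lam ^ 2 * β * ((-mu * JW + 3 * JXW + 2 * lam * JW) + ((a1 ^ 2 + a2 ^ 2) +
        mu * (x1 * a2 - x2 * a1) + (x1 * z1 + x2 * z2) * t + A * (XX + (lam + mu) * t)) -
        t * (S4 + mu * (x1 * s1 - x2 * (-s2)) + (m + 1) * (x1 * z1 + x2 * z2) +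
          A * ((m + 1) * lam + mu))) =
    (m / 2 + 1) * lam ^ 2 * P * (S1 + A * S2) + (m / 2 + 1) * lam ^ 2 * (lam ^ 2 - 1) * WW +
      lam ^ 2 * lam * (z1 * JpTT - z2 * pTT) - lc * (TD + XX) + WpX * ((lam ^ 2 - 1) * A - ρ) -
      β * (lam ^ 2 - 1) * (s1 * pT + s2 * JpT + WpX) - 2 * β * WpX -
      P * (S3 - A * TD - WpX - pWX) - (lam ^ 2 - 1) * WppW +
      lam ^ 2 * β * (3 * JXW + (a1 ^ 2 + a2 ^ 2) + A * XX - t * S4) +
      lam ^ 2 * (XW ^ 2 - t * WT) := by
  apply mul_left_cancel₀ hlam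
  subst hJW hlc hP hβ hρ hA hx1 hx2
  linear_combination (-2 * (m / 2 + 1) * lam ^ 2 * (lam ^ 2 +
      ((s1 - lam * z1) ^ 2 + (s2 - lam * z2) ^ 2 - lam ^ 2) / 2 * (lam ^ 2 - 1)) *
      (-((s1 - lam * z1) * a2) + (s2 - lam * z2) * a1 -
        (lam * (z1 * s1 + z2 * s2) - (s1 ^ 2 + s2 ^ 2)) * t) +
      lam ^ 2 * lam * t * (z1 * s1 + z2 * s2) -
      ((s1 - lam * z1) ^ 2 + (s2 - lam * z2) ^ 2 - lam ^ 2) / 2 *
        ((lam ^ 2 - 1) * (lam * (z1 * s1 + z2 * s2) - (s1 ^ 2 + s2 ^ 2)) -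
          ((s1 - lam * z1) ^ 2 + (s2 - lam * z2) ^ 2)) * t -
      2 * lam ^ 2 * (((s1 - lam * z1) ^ 2 + (s2 - lam * z2) ^ 2 - lam ^ 2) / 2) *
        (-((s1 - lam * z1) * a2) + (s2 - lam * z2) * a1 -
          (lam * (z1 * s1 + z2 * s2) - (s1 ^ 2 + s2 ^ 2)) * t)) * hl

/-- the pointwise identity for the second field -/
theorem point_id3 (hH : Hf B J) (hP : Pt B J X ν N) (hxx : B X X = -1) {lam m : ℝ}
    (hlam : lam ≠ 0) {N2 : L →L[ℝ] L →L[ℝ] L} (he : Fr B J X ν e) (hJ : Jt B J lam m X ν N N2 e)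
    (hN2 : ∀ u v, B (N2 u v) ν = -B (N v) (N u)) (p : L) :
    ∑ i, B (dV3 B J lam m p X ν N (e i) (N (e i)) (N2 (e i))) (e i) =
      (m / 2 + 1) * lam ^ 2 * Pc B J lam p X ν *
        (∑ i, (B p (Tm B J lam X ν N (e i)) ^ 2 + B (J p) (Tm B J lam X ν N (e i)) ^ 2) +
        Aa B J lam p X ν * ∑ i, B (Tm B J lam X ν N (e i)) (Tm B J lam X ν N (e i))) +
      (m / 2 + 1) * lam ^ 2 * (lam ^ 2 - 1) *
        B (Tm B J lam X ν N (Wd B J lam p X ν)) (Tm B J lam X ν N (Wd B J lam p X ν)) +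
      lam ^ 2 * lam * (B p X * B (J p) (Tm B J lam X ν N (Tm B J lam X ν N (J ν))) -
        B (J p) X * B p (Tm B J lam X ν N (Tm B J lam X ν N (J ν)))) -
      lc B J lam p X ν * (TDs B J ν (Tm B J lam X ν N) e +
        B (Tm B J lam X ν N (J ν)) (Tm B J lam X ν N (J ν))) +
      B (Tm B J lam X ν N (Wd B J lam p X ν)) (phh B J ν (Tm B J lam X ν N (J ν))) *
        ((lam ^ 2 - 1) * Aa B J lam p X ν - rh B J lam p X ν) -
      bt B J lam p X ν * (lam ^ 2 - 1) *
        (B p ν * B p (Tm B J lam X ν N (phh B J ν (Tm B J lam X ν N (J ν)))) +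
        B (J p) ν * B (J p) (Tm B J lam X ν N (phh B J ν (Tm B J lam X ν N (J ν)))) +
        B (Tm B J lam X ν N (Wd B J lam p X ν)) (phh B J ν (Tm B J lam X ν N (J ν)))) -
      2 * bt B J lam p X ν *
        B (Tm B J lam X ν N (Wd B J lam p X ν)) (phh B J ν (Tm B J lam X ν N (J ν))) -
      Pc B J lam p X ν *
        (∑ i, (B p (Tm B J lam X ν N (e i)) *
            B p (phh B J ν (Tm B J lam X ν N (phh B J ν (e i)))) +
          B (J p) (Tm B J lam X ν N (e i)) *
            B (J p) (phh B J ν (Tm B J lam X ν N (phh B J ν (e i))))) -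
        Aa B J lam p X ν * TDs B J ν (Tm B J lam X ν N) e -
        B (Tm B J lam X ν N (Wd B J lam p X ν)) (phh B J ν (Tm B J lam X ν N (J ν))) -
        B (Tm B J lam X ν N (phh B J ν (Wd B J lam p X ν))) (Tm B J lam X ν N (J ν))) -
      (lam ^ 2 - 1) * B (Tm B J lam X ν N (Wd B J lam p X ν))
        (phh B J ν (Tm B J lam X ν N (phh B J ν (Wd B J lam p X ν)))) +
      lam ^ 2 * bt B J lam p X ν *
        (3 * B (J (Tm B J lam X ν N (J ν))) (Tm B J lam X ν N (Wd B J lam p X ν)) +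
        (B p (Tm B J lam X ν N (J ν)) ^ 2 + B (J p) (Tm B J lam X ν N (J ν)) ^ 2) +
        Aa B J lam p X ν * B (Tm B J lam X ν N (J ν)) (Tm B J lam X ν N (J ν)) -
        B (Tm B J lam X ν N (J ν)) (J ν) *
          ∑ i, (B p (Tm B J lam X ν N (e i)) * B p (e i) +
            B (J p) (Tm B J lam X ν N (e i)) * B (J p) (e i))) +
      lam ^ 2 * (B (Tm B J lam X ν N (J ν)) (Wd B J lam p X ν) ^ 2 -
        B (Tm B J lam X ν N (J ν)) (J ν) *
          B (Tm B J lam X ν N (Wd B J lam p X ν)) (Wd B J lam p X ν)) := by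
  have hξ : Hz B J X ν (J ν) := hP.hz_xi hH
  have hT : Hz B J X ν (Tm B J lam X ν N (J ν)) := T_hz hH hP hxx lam hξ
  have hW : Hz B J X ν (Wd B J lam p X ν) := W_hz hH hP hxx lam p
  have hTW : Hz B J X ν (Tm B J lam X ν N (Wd B J lam p X ν)) := T_hz hH hP hxx lam hW
  have hpT : Hz B J X ν (phh B J ν (Tm B J lam X ν N (J ν))) := hP.ph_hz hH hT
  have hpp : Hz B J X ν (phh B J ν (Tm B J lam X ν N (phh B J ν (Wd B J lam p X ν)))) :=
    hP.ph_hz hH (T_hz hH hP hxx lam (hP.ph_hz hH hW))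
  have g1 := gamma1 hH hP hxx hlam he hJ hW
  have r0 : B (J (Tm B J lam X ν N (J ν))) (Wd B J lam p X ν) =
      -(n1 B lam p X ν * B (J p) (Tm B J lam X ν N (J ν))) +
        n2 B J lam p X ν * B p (Tm B J lam X ν N (J ν)) -
        Aa B J lam p X ν * B (Tm B J lam X ν N (J ν)) (J ν) := by
    have e1 : B (J (Tm B J lam X ν N (J ν))) p = -B (J p) (Tm B J lam X ν N (J ν)) := by
      rw [hH.skew, hH.symm (J p)]
    have e2 : B (J (Tm B J lam X ν N (J ν))) (J p) = B p (Tm B J lam X ν N (J ν)) := by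
      rw [hH.inv, hH.symm]
    have e3 : B (J (Tm B J lam X ν N (J ν))) X = 0 := by
      rw [hH.skew, hT.2.1, neg_zero]
    have e4 : B (J (Tm B J lam X ν N (J ν))) (J X) = 0 := by
      rw [hH.inv, hT.1]
    have e5 : B (J (Tm B J lam X ν N (J ν))) ν = -B (Tm B J lam X ν N (J ν)) (J ν) :=
      hH.skew _ _
    simp only [Wd, map_add, map_smul, smul_eq_mul]
    rw [e1, e2, e3, e4, e5]
    ring
  have hWν : B ν (Wd B J lam p X ν) = 0 := by rw [hH.symm]; exact hW.2.2
  have r1 : B (Wd B J lam p X ν) (phh B J ν (Tm B J lam X ν N (J ν))) =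
      B (J (Tm B J lam X ν N (J ν))) (Wd B J lam p X ν) := by
    rw [hH.symm, ph_test hWν]
  have r2 : B (Tm B J lam X ν N (J ν)) (phh B J ν (Wd B J lam p X ν)) =
      -B (J (Tm B J lam X ν N (J ν))) (Wd B J lam p X ν) := by
    rw [← ph_test hWν, ph_skew hH hT.2.2 hW.2.2]
    ring
  have r3 : ∀ u, Hz B J X ν u → B (Wd B J lam p X ν) (Tm B J lam X ν N u) =
      B (Tm B J lam X ν N (Wd B J lam p X ν)) u := by
    intro u hu
    rw [hH.symm, T_symm hH hP lam hu hW]
  have r7 : B (phh B J ν (Tm B J lam X ν N (J ν))) (Tm B J lam X ν N (Wd B J lam p X ν)) =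
      B (Tm B J lam X ν N (Wd B J lam p X ν)) (phh B J ν (Tm B J lam X ν N (J ν))) :=
    hH.symm _ _
  have r8 : B (Tm B J lam X ν N (Wd B J lam p X ν)) (J ν) =
      B (Tm B J lam X ν N (J ν)) (Wd B J lam p X ν) := T_symm hH hP lam hW hξ
  have hpξ : B (J ν) (phh B J ν (Tm B J lam X ν N (J ν))) = 0 := by
    rw [hH.symm]
    exact ph_none hH hT.2.2
  have e6 : B (J p) (J ν) = B p ν := hH.inv p ν
  have e7 : B p (J ν) = -B (J p) ν := by
    have := hH.skew p ν
    linarith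
  have hl : lam * lam⁻¹ = 1 := mul_inv_cancel₀ hlam
  rw [sum_dV3 hH hP hxx hlam he hJ p, sum_alpha hH hP hxx hlam he hJ p,
    sum_beta hH hP hxx hlam he hJ, sum_eps hH hP hxx hlam he, gamma3 hH hP hxx hlam he hJ p,
    delta1 hH hP hxx hlam p, gamma2 hH hP hxx hlam p, div3 hH hP hxx hlam he hJ hN2,
    div4 hH hP hxx hlam he hJ hN2 p, dbt_test hH hP hxx hlam p hTW, dbt_test hH hP hxx hlam p hpp,
    dbt_test hH hP hxx hlam p hξ, dbt_test hH hP hxx hlam p hW]
  unfold dlc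
  rw [dbt_test hH hP hxx hlam p hpT, drh_test hH hP hxx hlam p hpT,
    dAa_test hH hP hxx hlam p hpT hpξ, r3 _ hTW, r3 _ hpp, r3 _ hξ, r3 _ hW, r3 _ hpT, r7, r8, r1,
    r2, e6, e7]
  have key := alg3 (lam := lam) (mu := lam⁻¹) (m := m) (z1 := B p X) (z2 := B (J p) X)
    (s1 := B p ν) (s2 := B (J p) ν) (a1 := B p (Tm B J lam X ν N (J ν)))
    (a2 := B (J p) (Tm B J lam X ν N (J ν))) (t := B (Tm B J lam X ν N (J ν)) (J ν))
    (S1 := ∑ i, (B p (Tm B J lam X ν N (e i)) ^ 2 + B (J p) (Tm B J lam X ν N (e i)) ^ 2))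
    (S2 := ∑ i, B (Tm B J lam X ν N (e i)) (Tm B J lam X ν N (e i)))
    (S3 := ∑ i, (B p (Tm B J lam X ν N (e i)) *
            B p (phh B J ν (Tm B J lam X ν N (phh B J ν (e i)))) +
          B (J p) (Tm B J lam X ν N (e i)) *
            B (J p) (phh B J ν (Tm B J lam X ν N (phh B J ν (e i))))))
    (S4 := ∑ i, (B p (Tm B J lam X ν N (e i)) * B p (e i) +
            B (J p) (Tm B J lam X ν N (e i)) * B (J p) (e i)))
    (TD := TDs B J ν (Tm B J lam X ν N) e)
    (WW := B (Tm B J lam X ν N (Wd B J lam p X ν)) (Tm B J lam X ν N (Wd B J lam p X ν)))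
    (XX := B (Tm B J lam X ν N (J ν)) (Tm B J lam X ν N (J ν)))
    (WpX := B (Tm B J lam X ν N (Wd B J lam p X ν)) (phh B J ν (Tm B J lam X ν N (J ν))))
    (pT := B p (Tm B J lam X ν N (phh B J ν (Tm B J lam X ν N (J ν)))))
    (JpT := B (J p) (Tm B J lam X ν N (phh B J ν (Tm B J lam X ν N (J ν)))))
    (pWX := B (Tm B J lam X ν N (phh B J ν (Wd B J lam p X ν))) (Tm B J lam X ν N (J ν)))
    (WppW := B (Tm B J lam X ν N (Wd B J lam p X ν))
        (phh B J ν (Tm B J lam X ν N (phh B J ν (Wd B J lam p X ν)))))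
    (JXW := B (J (Tm B J lam X ν N (J ν))) (Tm B J lam X ν N (Wd B J lam p X ν)))
    (XW := B (Tm B J lam X ν N (J ν)) (Wd B J lam p X ν))
    (WT := B (Tm B J lam X ν N (Wd B J lam p X ν)) (Wd B J lam p X ν))
    (pTT := B p (Tm B J lam X ν N (Tm B J lam X ν N (J ν))))
    (JpTT := B (J p) (Tm B J lam X ν N (Tm B J lam X ν N (J ν))))
    (x1 := n1 B lam p X ν) (x2 := n2 B J lam p X ν) (A := Aa B J lam p X ν)
    (ρ := rh B J lam p X ν) (β := bt B J lam p X ν) (P := Pc B J lam p X ν)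
    (lc := lc B J lam p X ν) hl hlam rfl rfl rfl rfl rfl rfl rfl r0
  linear_combination key + lam ^ 2 * bt B J lam p X ν * g1

end Pool.Agent.Helper77.JE
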