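import Mathlib

/-! # HB: the scalar inequalities -/

set_option autoImplicit false
set_option linter.unusedSectionVars false
set_option linter.unusedVariables false

namespace Pool.Agent.Helper77.JE

section poly

variable {L y P m w k : ℝ}

private theorem hb_m {L y P m : ℝ} (hL : 0 < L) (hy : 0 ≤ y)
    (hP : P = (1 + L) ^ 2 * (1 + L * (L + 2) * (y + y ^ 2 / 2)))
    (hm : m = 4 * P * (1 + L) * (1 + y) - 2 * (1 + L) * (1 + y) -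
      (1 + L) * L * (y + 2) * (1 + y) ^ 2 - 4 / 3) : 0 < m := by
  subst hm hP
  have e : ∀ a b : ℝ, a = b → 0 < b → 0 < a := fun a b h1 h2 => h1 ▸ h2
  refine e _ (2 / 3 + 2 * y + 8 * L + 13 * L * y + 8 * L * y ^ 2 + 3 * L * y ^ 3 + 10 * L ^ 2+ 
        35 * L ^ 2 * y + 38 * L ^ 2 * y ^ 2 + 13 * L ^ 2 * y ^ 3 + 4 * L ^ 3 + 40 * L ^ 3 * y+ 
        54 * L ^ 3 * y ^ 2 + 18 * L ^ 3 * y ^ 3 + 20 * L ^ 4 * y + 30 * L ^ 4 * y ^ 2+ 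
        10 * L ^ 4 * y ^ 3 + 4 * L ^ 5 * y + 6 * L ^ 5 * y ^ 2 + 2 * L ^ 5 * y ^ 3) (by ring) (by positivity)

private theorem hb_D1 (hL : 0 < L) (hy : 0 ≤ y)
    (hP : P = (1 + L) ^ 2 * (1 + L * (L + 2) * (y + y ^ 2 / 2)))
    (hm : m = 4 * P * (1 + L) * (1 + y) - 2 * (1 + L) * (1 + y) -
      (1 + L) * L * (y + 2) * (1 + y) ^ 2 - 4 / 3)
    (hw : w = 2 * P + (y + y ^ 2 / 2))
    (hk : k = 2 * L * (1 + y) * (2 * P + 1) + L * (1 + y) * (y ^ 2 + 2 * y) + (1 + P) * y) :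
    2 * L * y * (y + 2) ^ 2 * (1 + y) * (4 * (1 + L) ^ 2 - 5) ^ 2 ≤ m * w := by
  subst hk hw hm hP
  rw [← sub_nonneg]
  have e : ∀ a b : ℝ, a = b → 0 ≤ b → 0 ≤ a := fun a b h1 h2 => h1 ▸ h2
  refine e _ (y * L ^ 2 * (40 * (L - 1) ^ 2) +
        y * L ^ 2 * (108 * (L ^ 2 - 1 / 2) ^ 2) +
        y ^ 2 * L ^ 2 * (170 / 3 * (L - 344 / 170) ^ 2) +
        y ^ 3 * L ^ 2 * (17 / 2 * (L - 1) ^ 2) +
        4 / 3 + 14 / 3 * y + 7 / 3 * y ^ 2 + 1 * y ^ 3 + 56 / 3 * L + 110 / 3 * L * y+ 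
        79 / 3 * L * y ^ 2 + 29 / 2 * L * y ^ 3 + 5 * L * y ^ 4 + 3 / 2 * L * y ^ 5+ 
        160 / 3 * L ^ 2 + 707 / 3 * L ^ 2 * y + 67142 / 255 * L ^ 2 * y ^ 2+ 
        313 * L ^ 2 * y ^ 3 + 92 * L ^ 2 * y ^ 4 + 25 / 2 * L ^ 2 * y ^ 5 + 64 * L ^ 3+ 
        22 / 3 * L ^ 3 * y + 131 * L ^ 3 * y ^ 4 + 50 * L ^ 3 * y ^ 5 + 36 * L ^ 4+ 
        22 / 3 * L ^ 4 * y + 957 / 2 * L ^ 4 * y ^ 3 + 453 * L ^ 4 * y ^ 4+ 
        118 * L ^ 4 * y ^ 5 + 8 * L ^ 5 + 176 * L ^ 5 * y + 842 * L ^ 5 * y ^ 2+ 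
        1301 * L ^ 5 * y ^ 3 + 793 * L ^ 5 * y ^ 4 + 166 * L ^ 5 * y ^ 5 + 716 * L ^ 6 * y ^ 2+ 
        1163 * L ^ 6 * y ^ 3 + 694 * L ^ 6 * y ^ 4 + 139 * L ^ 6 * y ^ 5 + 16 * L ^ 7 * y+ 
        296 * L ^ 7 * y ^ 2 + 552 * L ^ 7 * y ^ 3 + 340 * L ^ 7 * y ^ 4 + 68 * L ^ 7 * y ^ 5+ 
        72 * L ^ 8 * y ^ 2 + 144 * L ^ 8 * y ^ 3 + 90 * L ^ 8 * y ^ 4 + 18 * L ^ 8 * y ^ 5+ 
        8 * L ^ 9 * y ^ 2 + 16 * L ^ 9 * y ^ 3 + 10 * L ^ 9 * y ^ 4 + 2 * L ^ 9 * y ^ 5) (by ring) (by positivity)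

private theorem hb_D2 (hL : 0 < L) (hy : 0 ≤ y)
    (hP : P = (1 + L) ^ 2 * (1 + L * (L + 2) * (y + y ^ 2 / 2)))
    (hm : m = 4 * P * (1 + L) * (1 + y) - 2 * (1 + L) * (1 + y) -
      (1 + L) * L * (y + 2) * (1 + y) ^ 2 - 4 / 3)
    (hw : w = 2 * P + (y + y ^ 2 / 2))
    (hk : k = 2 * L * (1 + y) * (2 * P + 1) + L * (1 + y) * (y ^ 2 + 2 * y) + (1 + P) * y) :
    5 * L * y * (y + 2) ^ 2 * (2 * (1 + L) ^ 2 - 3) ^ 2 ≤ (1 + L) * (2 * P + 1) * w := by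
  subst hk hw hm hP
  rw [← sub_nonneg]
  have e : ∀ a b : ℝ, a = b → 0 ≤ b → 0 ≤ a := fun a b h1 h2 => h1 ▸ h2
  refine e _ (y * L ^ 2 * (56 * (L ^ 2 - 1) ^ 2) +
        y * L ^ 2 * (10 * (L - 1) ^ 2) +
        y ^ 2 * (2 * (L - 5 / 8) ^ 2) +
        y ^ 2 * L ^ 2 * (8 * (L - 1) ^ 2) +
        y ^ 2 * (1 / 2 * (L * y - 1) ^ 2) +
        6 + 3 * y + 7 / 32 * y ^ 2 + 26 * L + 7 * L * y + 1 * L * y ^ 4 + 46 * L ^ 2+ 
        202 * L ^ 2 * y + 234 * L ^ 2 * y ^ 2 + 70 * L ^ 2 * y ^ 3 + 7 * L ^ 2 * y ^ 4+ 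
        42 * L ^ 3 + 54 * L ^ 3 * y ^ 3 + 57 / 2 * L ^ 3 * y ^ 4 + 20 * L ^ 4 + 32 * L ^ 4 * y+ 
        51 * L ^ 4 * y ^ 2 + 174 * L ^ 4 * y ^ 3 + 127 / 2 * L ^ 4 * y ^ 4 + 4 * L ^ 5+ 
        82 * L ^ 5 * y + 343 * L ^ 5 * y ^ 2 + 322 * L ^ 5 * y ^ 3 + 171 / 2 * L ^ 5 * y ^ 4+ 
        308 * L ^ 6 * y ^ 2 + 280 * L ^ 6 * y ^ 3 + 70 * L ^ 6 * y ^ 4 + 8 * L ^ 7 * y+ 
        140 * L ^ 7 * y ^ 2 + 136 * L ^ 7 * y ^ 3 + 34 * L ^ 7 * y ^ 4 + 36 * L ^ 8 * y ^ 2+ 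
        36 * L ^ 8 * y ^ 3 + 9 * L ^ 8 * y ^ 4 + 4 * L ^ 9 * y ^ 2 + 4 * L ^ 9 * y ^ 3+ 
        1 * L ^ 9 * y ^ 4) (by ring) (by positivity)

private theorem hb_D3 (hL : 0 < L) (hy : 0 ≤ y)
    (hP : P = (1 + L) ^ 2 * (1 + L * (L + 2) * (y + y ^ 2 / 2)))
    (hm : m = 4 * P * (1 + L) * (1 + y) - 2 * (1 + L) * (1 + y) -
      (1 + L) * L * (y + 2) * (1 + y) ^ 2 - 4 / 3)
    (hw : w = 2 * P + (y + y ^ 2 / 2))
    (hk : k = 2 * L * (1 + y) * (2 * P + 1) + L * (1 + y) * (y ^ 2 + 2 * y) + (1 + P) * y) :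
    4 * L * (1 + L) ^ 2 * (2 * (1 + y) ^ 2 - 1) ^ 2 ≤ (1 + y) * (2 * P + 1) * k := by
  subst hk hw hm hP
  rw [← sub_nonneg]
  have e : ∀ a b : ℝ, a = b → 0 ≤ b → 0 ≤ a := fun a b h1 h2 => h1 ▸ h2
  refine e _ ((3 / 2 * y - 2 * L * y ^ 3) ^ 2 +
        15 * (y / 2 - 2 * L * y ^ 2) ^ 2 +
        y * (1 / 2 - L * y ^ 2) ^ 2 +
        5 * y * (1 - 19 / 10 * L * y) ^ 2 +
        3 / 4 * y + 14 * L + 24 * L * y + 40 * L ^ 2 + 103 * L ^ 2 * y + 102 * L ^ 2 * y ^ 2+ 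
        1489 / 20 * L ^ 2 * y ^ 3 + 7 / 2 * L ^ 2 * y ^ 4 + 21 * L ^ 2 * y ^ 5 + 52 * L ^ 3+ 
        276 * L ^ 3 * y + 582 * L ^ 3 * y ^ 2 + 622 * L ^ 3 * y ^ 3 + 365 * L ^ 3 * y ^ 4+ 
        128 * L ^ 3 * y ^ 5 + 23 * L ^ 3 * y ^ 6 + 32 * L ^ 4 + 354 * L ^ 4 * y+ 
        989 * L ^ 4 * y ^ 2 + 2549 / 2 * L ^ 4 * y ^ 3 + 1819 / 2 * L ^ 4 * y ^ 4+ 
        733 / 2 * L ^ 4 * y ^ 5 + 129 / 2 * L ^ 4 * y ^ 6 + 8 * L ^ 5 + 248 * L ^ 5 * y+ 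
        944 * L ^ 5 * y ^ 2 + 1584 * L ^ 5 * y ^ 3 + 1383 * L ^ 5 * y ^ 4+ 
        608 * L ^ 5 * y ^ 5 + 105 * L ^ 5 * y ^ 6 + 96 * L ^ 6 * y + 596 * L ^ 6 * y ^ 2+ 
        1306 * L ^ 6 * y ^ 3 + 1298 * L ^ 6 * y ^ 4 + 593 * L ^ 6 * y ^ 5+ 
        101 * L ^ 6 * y ^ 6 + 16 * L ^ 7 * y + 248 * L ^ 7 * y ^ 2 + 672 * L ^ 7 * y ^ 3+ 
        716 * L ^ 7 * y ^ 4 + 332 * L ^ 7 * y ^ 5 + 56 * L ^ 7 * y ^ 6 + 64 * L ^ 8 * y ^ 2+ 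
        194 * L ^ 8 * y ^ 3 + 212 * L ^ 8 * y ^ 4 + 197 / 2 * L ^ 8 * y ^ 5+ 
        33 / 2 * L ^ 8 * y ^ 6 + 8 * L ^ 9 * y ^ 2 + 24 * L ^ 9 * y ^ 3 + 26 * L ^ 9 * y ^ 4+ 
        12 * L ^ 9 * y ^ 5 + 2 * L ^ 9 * y ^ 6) (by ring) (by positivity)

private theorem hb_D4 (hL : 0 < L) (hy : 0 ≤ y)
    (hP : P = (1 + L) ^ 2 * (1 + L * (L + 2) * (y + y ^ 2 / 2)))
    (hm : m = 4 * P * (1 + L) * (1 + y) - 2 * (1 + L) * (1 + y) -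
      (1 + L) * L * (y + 2) * (1 + y) ^ 2 - 4 / 3)
    (hw : w = 2 * P + (y + y ^ 2 / 2))
    (hk : k = 2 * L * (1 + y) * (2 * P + 1) + L * (1 + y) * (y ^ 2 + 2 * y) + (1 + P) * y) :
    8 * L * (1 + L) ^ 3 * (1 + y) ^ 4 ≤ 23 / 10 * (m * k) := by
  subst hk hw hm hP
  rw [← sub_nonneg]
  have e : ∀ a b : ℝ, a = b → 0 ≤ b → 0 ≤ a := fun a b h1 h2 => h1 ▸ h2
  refine e _ (46 / 15 * y + 46 / 5 * y ^ 2 + 6 / 5 * L + 716 / 15 * L * y + 982 / 15 * L * y ^ 2+ 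
        463 / 15 * L * y ^ 3 + 15 * L * y ^ 4 + 296 / 3 * L ^ 2 + 5644 / 15 * L ^ 2 * y+ 
        1868 / 3 * L ^ 2 * y ^ 2 + 1736 / 3 * L ^ 2 * y ^ 3 + 573 / 2 * L ^ 2 * y ^ 4+ 
        713 / 10 * L ^ 2 * y ^ 5 + 69 / 5 * L ^ 2 * y ^ 6 + 802 / 3 * L ^ 3+ 
        6213 / 5 * L ^ 3 * y + 78457 / 30 * L ^ 3 * y ^ 2 + 2825 * L ^ 3 * y ^ 3+ 
        32709 / 20 * L ^ 3 * y ^ 4 + 2806 / 5 * L ^ 3 * y ^ 5 + 2093 / 20 * L ^ 3 * y ^ 6+ 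
        1524 / 5 * L ^ 4 + 33491 / 15 * L ^ 4 * y + 172279 / 30 * L ^ 4 * y ^ 2+ 
        214573 / 30 * L ^ 4 * y ^ 3 + 99269 / 20 * L ^ 4 * y ^ 4 + 9936 / 5 * L ^ 4 * y ^ 5+ 
        7199 / 20 * L ^ 4 * y ^ 6 + 828 / 5 * L ^ 5 + 35144 / 15 * L ^ 5 * y+ 
        7636 * L ^ 5 * y ^ 2 + 69667 / 6 * L ^ 5 * y ^ 3 + 191567 / 20 * L ^ 5 * y ^ 4+ 
        20792 / 5 * L ^ 5 * y ^ 5 + 14651 / 20 * L ^ 5 * y ^ 6 + 184 / 5 * L ^ 6+ 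
        7268 / 5 * L ^ 6 * y + 33097 / 5 * L ^ 6 * y ^ 2 + 63158 / 5 * L ^ 6 * y ^ 3+ 
        47449 / 4 * L ^ 6 * y ^ 4 + 53567 / 10 * L ^ 6 * y ^ 5 + 18469 / 20 * L ^ 6 * y ^ 6+ 
        2484 / 5 * L ^ 7 * y + 19044 / 5 * L ^ 7 * y ^ 2 + 44919 / 5 * L ^ 7 * y ^ 3+ 
        9177 * L ^ 7 * y ^ 4 + 21114 / 5 * L ^ 7 * y ^ 5 + 3588 / 5 * L ^ 7 * y ^ 6+ 
        368 / 5 * L ^ 8 * y + 7176 / 5 * L ^ 8 * y ^ 2 + 19918 / 5 * L ^ 8 * y ^ 3+ 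
        21344 / 5 * L ^ 8 * y ^ 4 + 19803 / 10 * L ^ 8 * y ^ 5 + 667 / 2 * L ^ 8 * y ^ 6+ 
        1656 / 5 * L ^ 9 * y ^ 2 + 5014 / 5 * L ^ 9 * y ^ 3 + 5474 / 5 * L ^ 9 * y ^ 4+ 
        5083 / 10 * L ^ 9 * y ^ 5 + 851 / 10 * L ^ 9 * y ^ 6 + 184 / 5 * L ^ 10 * y ^ 2+ 
        552 / 5 * L ^ 10 * y ^ 3 + 598 / 5 * L ^ 10 * y ^ 4 + 276 / 5 * L ^ 10 * y ^ 5+ 
        46 / 5 * L ^ 10 * y ^ 6) (by ring) (by positivity)

private theorem hb_D5 (hL : 0 < L) (hy : 0 ≤ y)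
    (hP : P = (1 + L) ^ 2 * (1 + L * (L + 2) * (y + y ^ 2 / 2)))
    (hm : m = 4 * P * (1 + L) * (1 + y) - 2 * (1 + L) * (1 + y) -
      (1 + L) * L * (y + 2) * (1 + y) ^ 2 - 4 / 3)
    (hw : w = 2 * P + (y + y ^ 2 / 2))
    (hk : k = 2 * L * (1 + y) * (2 * P + 1) + L * (1 + y) * (y ^ 2 + 2 * y) + (1 + P) * y) :
    10 * L ^ 3 * (L + 2) ^ 2 * y * (y + 2) ^ 2 ≤ (1 + L) * (2 * P + 1) * w := by
  subst hk hw hm hP
  rw [← sub_nonneg]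
  have e : ∀ a b : ℝ, a = b → 0 ≤ b → 0 ≤ a := fun a b h1 h2 => h1 ▸ h2
  refine e _ (6 + 3 * y + 3 / 2 * y ^ 2 + 26 * L + 27 * L * y + 35 / 2 * L * y ^ 2 + 4 * L * y ^ 3+ 
        1 * L * y ^ 4 + 46 * L ^ 2 + 108 * L ^ 2 * y + 84 * L ^ 2 * y ^ 2 + 30 * L ^ 2 * y ^ 3+ 
        15 / 2 * L ^ 2 * y ^ 4 + 42 * L ^ 3 + 60 * L ^ 3 * y + 64 * L ^ 3 * y ^ 2+ 
        74 * L ^ 3 * y ^ 3 + 57 / 2 * L ^ 3 * y ^ 4 + 20 * L ^ 4 + 90 * L ^ 4 * y+ 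
        219 * L ^ 4 * y ^ 2 + 214 * L ^ 4 * y ^ 3 + 127 / 2 * L ^ 4 * y ^ 4 + 4 * L ^ 5+ 
        122 * L ^ 5 * y + 383 * L ^ 5 * y ^ 2 + 332 * L ^ 5 * y ^ 3 + 171 / 2 * L ^ 5 * y ^ 4+ 
        56 * L ^ 6 * y + 308 * L ^ 6 * y ^ 2 + 280 * L ^ 6 * y ^ 3 + 70 * L ^ 6 * y ^ 4+ 
        8 * L ^ 7 * y + 140 * L ^ 7 * y ^ 2 + 136 * L ^ 7 * y ^ 3 + 34 * L ^ 7 * y ^ 4+ 
        36 * L ^ 8 * y ^ 2 + 36 * L ^ 8 * y ^ 3 + 9 * L ^ 8 * y ^ 4 + 4 * L ^ 9 * y ^ 2+ 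
        4 * L ^ 9 * y ^ 3 + 1 * L ^ 9 * y ^ 4) (by ring) (by positivity)
end poly

/-- the scalar inequalities, case `β ≥ 0`; `s = |n̂|`, `g = 𝒜 / s` -/
theorem sc_case1 {lam s g q Θ β P F M W K Ep : ℝ} (hlam : 1 < lam) (hs : lam ≤ s) (hg : 0 < g)
    (h1 : s - lam ≤ (lam - 1) * g) (h2 : g ^ 2 ≤ q) (h0 : 0 ≤ Θ) (h3 : Θ ≤ 2 * g)
    (hβ : β = (s ^ 2 - lam ^ 2) / 2) (hP : P = lam ^ 2 + β * (lam ^ 2 - 1))
    (hF : F = s * g + β * s ^ 2 / lam ^ 2) (hM : M = 2 * (2 * P * (s * g) - F) - 2 / 3 * Θ)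
    (hW : W = s * g * (2 * P + β / lam ^ 2)) (hE : Ep = 2 * P * (s * g) + F)
    (hK : K = Ep + β * (s * g) / lam ^ 2 + 1 / 2 * q * (1 + P)) :
    0 < M ∧ 0 < W ∧ 0 < K ∧ 0 < Ep ∧ (β * (4 - 5 / lam ^ 2)) ^ 2 * s ^ 2 * Θ ≤ 1 / 4 * (M * W) ∧
      (β * (2 - 3 / lam ^ 2)) ^ 2 * s ^ 2 * Θ ≤ 1 / 10 * (Ep * W) ∧
      (2 * β + s ^ 2) ^ 2 * Θ ^ 2 ≤ 2 * (Ep * K) ∧ (s ^ 2) ^ 2 * Θ ^ 2 ≤ 23 / 10 * (M * K) ∧
      (β * ((lam ^ 2 - 1) / lam ^ 2)) ^ 2 * s ^ 2 * Θ ≤ 1 / 20 * (W * K) := by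
  obtain ⟨L, rfl⟩ : ∃ L, lam = 1 + L := ⟨lam - 1, by ring⟩
  have hL : 0 < L := by linarith
  have hl : 0 < 1 + L := by linarith
  obtain ⟨y, rfl⟩ : ∃ y, s = (1 + L) * (1 + y) := ⟨s / (1 + L) - 1, by field_simp; ring⟩
  have hy : 0 ≤ y := by
    by_contra h
    have : (1 + L) * (1 + y) < (1 + L) * 1 := mul_lt_mul_of_pos_left (by linarith) hl
    linarith
  have hy1 : 0 < 1 + y := by linarith
  have hgy : (1 + L) * y ≤ L * g := by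
    have : (1 + L) * (1 + y) - (1 + L) = (1 + L) * y := by ring
    have e2 : (1 + L - 1) * g = L * g := by ring
    linarith
  have hβ' : β = (1 + L) ^ 2 * (y + y ^ 2 / 2) := by rw [hβ]; ring
  have hP' : P = (1 + L) ^ 2 * (1 + L * (L + 2) * (y + y ^ 2 / 2)) := by rw [hP, hβ']; ring
  have hP0 : 0 < P := by rw [hP']; positivity
  obtain ⟨m, hm⟩ : ∃ m, m = 4 * P * (1 + L) * (1 + y) - 2 * (1 + L) * (1 + y) -
      (1 + L) * L * (y + 2) * (1 + y) ^ 2 - 4 / 3 := ⟨_, rfl⟩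
  obtain ⟨w, hw⟩ : ∃ w, w = 2 * P + (y + y ^ 2 / 2) := ⟨_, rfl⟩
  obtain ⟨k, hk⟩ : ∃ k, k = 2 * L * (1 + y) * (2 * P + 1) + L * (1 + y) * (y ^ 2 + 2 * y) +
    (1 + P) * y := ⟨_, rfl⟩
  have D1 := hb_D1 hL hy hP' hm hw hk
  have D2 := hb_D2 hL hy hP' hm hw hk
  have D3 := hb_D3 hL hy hP' hm hw hk
  have D4 := hb_D4 hL hy hP' hm hw hk
  have D5 := hb_D5 hL hy hP' hm hw hk
  have hm0 := hb_m hL hy hP' hm
  have hw0 : 0 < w := by rw [hw]; positivity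
  have hk0 : 0 < k := by rw [hk]; positivity
  have hF' : F = (1 + L) * (1 + y) * g + (1 + L) ^ 2 * (y + y ^ 2 / 2) * (1 + y) ^ 2 := by
    rw [hF, hβ']
    field_simp
  have hW' : W = (1 + L) * (1 + y) * g * w := by
    rw [hW, hβ', hw]
    field_simp
  have hM' : g * m ≤ M := by
    have e : M - g * m = (1 + L) * (y + 2) * (1 + y) ^ 2 * (L * g - (1 + L) * y) +
        2 / 3 * (2 * g - Θ) := by
      rw [hM, hF', hm]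
      ring
    have e1 : 0 ≤ (1 + L) * (y + 2) * (1 + y) ^ 2 * (L * g - (1 + L) * y) :=
      mul_nonneg (by positivity) (by linarith)
    linarith
  have hE' : (1 + L) * (1 + y) * g * (2 * P + 1) ≤ Ep := by
    have e : Ep - (1 + L) * (1 + y) * g * (2 * P + 1) =
        (1 + L) ^ 2 * (y + y ^ 2 / 2) * (1 + y) ^ 2 := by
      rw [hE, hF']
      ring
    have e1 : 0 ≤ (1 + L) ^ 2 * (y + y ^ 2 / 2) * (1 + y) ^ 2 := by positivity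
    linarith
  have hK' : (1 + L) * g * k ≤ 2 * L * K := by
    have e : 2 * L * K - (1 + L) * g * k = 2 * L * (Ep - (1 + L) * (1 + y) * g * (2 * P + 1)) +
        L * (1 + P) * (q - g ^ 2) + (1 + P) * g * (L * g - (1 + L) * y) := by
      rw [hK, hβ', hk]
      field_simp
      ring
    have e1 : 0 ≤ 2 * L * (Ep - (1 + L) * (1 + y) * g * (2 * P + 1)) :=
      mul_nonneg (by positivity) (by linarith)
    have e2 : 0 ≤ L * (1 + P) * (q - g ^ 2) := mul_nonneg (by positivity) (by linarith)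
    have e3 : 0 ≤ (1 + P) * g * (L * g - (1 + L) * y) := mul_nonneg (by positivity) (by linarith)
    linarith
  have hM0 : 0 < M := lt_of_lt_of_le (by positivity) hM'
  have hW0 : 0 < W := by rw [hW']; positivity
  have hK0 : 0 < K := by
    have : 0 < 2 * L * K := lt_of_lt_of_le (by positivity) hK'
    exact pos_of_mul_pos_right this (by positivity)
  have hE0 : 0 < Ep := lt_of_lt_of_le (by positivity) hE'
  have hgL : 0 ≤ L * g - (1 + L) * y := by linarith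
  have hΘ : 0 ≤ 2 * g - Θ := by linarith
  refine ⟨hM0, hW0, hK0, hE0, ?_, ?_, ?_, ?_, ?_⟩
  · -- (I)
    have a1 : (β * (4 - 5 / (1 + L) ^ 2)) ^ 2 * ((1 + L) * (1 + y)) ^ 2 * Θ =
        (y + y ^ 2 / 2) ^ 2 * (4 * (1 + L) ^ 2 - 5) ^ 2 * ((1 + L) * (1 + y)) ^ 2 * Θ := by
      rw [hβ']
      field_simp
    have a2 : (y + y ^ 2 / 2) ^ 2 * (4 * (1 + L) ^ 2 - 5) ^ 2 * ((1 + L) * (1 + y)) ^ 2 * Θ ≤
        (y + y ^ 2 / 2) ^ 2 * (4 * (1 + L) ^ 2 - 5) ^ 2 * ((1 + L) * (1 + y)) ^ 2 * (2 * g) :=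
      mul_le_mul_of_nonneg_left h3 (by positivity)
    have a3 : (y + y ^ 2 / 2) ^ 2 * (4 * (1 + L) ^ 2 - 5) ^ 2 * ((1 + L) * (1 + y)) ^ 2 * (2 * g) =
        1 / 2 * y * (y + 2) ^ 2 * (1 + L) * (1 + y) ^ 2 * g * (4 * (1 + L) ^ 2 - 5) ^ 2 *
          ((1 + L) * y) := by ring
    have a4 : 1 / 2 * y * (y + 2) ^ 2 * (1 + L) * (1 + y) ^ 2 * g * (4 * (1 + L) ^ 2 - 5) ^ 2 *
          ((1 + L) * y) ≤
        1 / 2 * y * (y + 2) ^ 2 * (1 + L) * (1 + y) ^ 2 * g * (4 * (1 + L) ^ 2 - 5) ^ 2 *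
          (L * g) := mul_le_mul_of_nonneg_left hgy (by positivity)
    have a5 : 1 / 2 * y * (y + 2) ^ 2 * (1 + L) * (1 + y) ^ 2 * g * (4 * (1 + L) ^ 2 - 5) ^ 2 *
          (L * g) = 1 / 4 * ((1 + L) * (1 + y) * g ^ 2 *
            (2 * L * y * (y + 2) ^ 2 * (1 + y) * (4 * (1 + L) ^ 2 - 5) ^ 2)) := by ring
    have a6 : (1 + L) * (1 + y) * g ^ 2 *
            (2 * L * y * (y + 2) ^ 2 * (1 + y) * (4 * (1 + L) ^ 2 - 5) ^ 2) ≤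
        (1 + L) * (1 + y) * g ^ 2 * (m * w) := mul_le_mul_of_nonneg_left D1 (by positivity)
    have a7 : (1 + L) * (1 + y) * g ^ 2 * (m * w) = (g * m) * W := by rw [hW']; ring
    have a8 : (g * m) * W ≤ M * W := mul_le_mul_of_nonneg_right hM' hW0.le
    rw [a1]
    linarith
  · -- (II)
    have a1 : (β * (2 - 3 / (1 + L) ^ 2)) ^ 2 * ((1 + L) * (1 + y)) ^ 2 * Θ =
        (y + y ^ 2 / 2) ^ 2 * (2 * (1 + L) ^ 2 - 3) ^ 2 * ((1 + L) * (1 + y)) ^ 2 * Θ := by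
      rw [hβ']
      field_simp
    have a2 : (y + y ^ 2 / 2) ^ 2 * (2 * (1 + L) ^ 2 - 3) ^ 2 * ((1 + L) * (1 + y)) ^ 2 * Θ ≤
        (y + y ^ 2 / 2) ^ 2 * (2 * (1 + L) ^ 2 - 3) ^ 2 * ((1 + L) * (1 + y)) ^ 2 * (2 * g) :=
      mul_le_mul_of_nonneg_left h3 (by positivity)
    have a3 : (y + y ^ 2 / 2) ^ 2 * (2 * (1 + L) ^ 2 - 3) ^ 2 * ((1 + L) * (1 + y)) ^ 2 * (2 * g) =
        1 / 2 * y * (y + 2) ^ 2 * (1 + L) * (1 + y) ^ 2 * g * (2 * (1 + L) ^ 2 - 3) ^ 2 *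
          ((1 + L) * y) := by ring
    have a4 : 1 / 2 * y * (y + 2) ^ 2 * (1 + L) * (1 + y) ^ 2 * g * (2 * (1 + L) ^ 2 - 3) ^ 2 *
          ((1 + L) * y) ≤
        1 / 2 * y * (y + 2) ^ 2 * (1 + L) * (1 + y) ^ 2 * g * (2 * (1 + L) ^ 2 - 3) ^ 2 *
          (L * g) := mul_le_mul_of_nonneg_left hgy (by positivity)
    have a5 : 1 / 2 * y * (y + 2) ^ 2 * (1 + L) * (1 + y) ^ 2 * g * (2 * (1 + L) ^ 2 - 3) ^ 2 *
          (L * g) = 1 / 10 * ((1 + L) * (1 + y) ^ 2 * g ^ 2 *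
            (5 * L * y * (y + 2) ^ 2 * (2 * (1 + L) ^ 2 - 3) ^ 2)) := by ring
    have a6 : (1 + L) * (1 + y) ^ 2 * g ^ 2 *
            (5 * L * y * (y + 2) ^ 2 * (2 * (1 + L) ^ 2 - 3) ^ 2) ≤
        (1 + L) * (1 + y) ^ 2 * g ^ 2 * ((1 + L) * (2 * P + 1) * w) :=
      mul_le_mul_of_nonneg_left D2 (by positivity)
    have a7 : (1 + L) * (1 + y) ^ 2 * g ^ 2 * ((1 + L) * (2 * P + 1) * w) =
        ((1 + L) * (1 + y) * g * (2 * P + 1)) * W := by rw [hW']; ring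
    have a8 : ((1 + L) * (1 + y) * g * (2 * P + 1)) * W ≤ Ep * W :=
      mul_le_mul_of_nonneg_right hE' hW0.le
    rw [a1]
    linarith
  · -- (III)
    have a1 : (2 * β + ((1 + L) * (1 + y)) ^ 2) ^ 2 * Θ ^ 2 =
        (1 + L) ^ 4 * (2 * (1 + y) ^ 2 - 1) ^ 2 * Θ ^ 2 := by
      rw [hβ']
      ring
    have a2 : (1 + L) ^ 4 * (2 * (1 + y) ^ 2 - 1) ^ 2 * Θ ^ 2 ≤
        (1 + L) ^ 4 * (2 * (1 + y) ^ 2 - 1) ^ 2 * (2 * g) ^ 2 :=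
      mul_le_mul_of_nonneg_left (pow_le_pow_left₀ h0 h3 2) (by positivity)
    have a3 : L * ((1 + L) ^ 4 * (2 * (1 + y) ^ 2 - 1) ^ 2 * (2 * g) ^ 2) =
        (1 + L) ^ 2 * g ^ 2 * (4 * L * (1 + L) ^ 2 * (2 * (1 + y) ^ 2 - 1) ^ 2) := by ring
    have a4 : (1 + L) ^ 2 * g ^ 2 * (4 * L * (1 + L) ^ 2 * (2 * (1 + y) ^ 2 - 1) ^ 2) ≤
        (1 + L) ^ 2 * g ^ 2 * ((1 + y) * (2 * P + 1) * k) :=
      mul_le_mul_of_nonneg_left D3 (by positivity)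
    have a5 : (1 + L) ^ 2 * g ^ 2 * ((1 + y) * (2 * P + 1) * k) =
        ((1 + L) * (1 + y) * g * (2 * P + 1)) * ((1 + L) * g * k) := by ring
    have a6 : ((1 + L) * (1 + y) * g * (2 * P + 1)) * ((1 + L) * g * k) ≤ Ep * (2 * L * K) :=
      mul_le_mul hE' hK' (by positivity) hE0.le
    have a7 : L * ((1 + L) ^ 4 * (2 * (1 + y) ^ 2 - 1) ^ 2 * (2 * g) ^ 2) ≤ L * (2 * (Ep * K)) := by
      have : Ep * (2 * L * K) = L * (2 * (Ep * K)) := by ring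
      linarith
    have a8 := le_of_mul_le_mul_left a7 hL
    rw [a1]
    linarith
  · -- (IV)
    have a2 : (((1 + L) * (1 + y)) ^ 2) ^ 2 * Θ ^ 2 ≤
        (((1 + L) * (1 + y)) ^ 2) ^ 2 * (2 * g) ^ 2 :=
      mul_le_mul_of_nonneg_left (pow_le_pow_left₀ h0 h3 2) (by positivity)
    have a3 : 2 * L * ((((1 + L) * (1 + y)) ^ 2) ^ 2 * (2 * g) ^ 2) =
        (1 + L) * g ^ 2 * (8 * L * (1 + L) ^ 3 * (1 + y) ^ 4) := by ring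
    have a4 : (1 + L) * g ^ 2 * (8 * L * (1 + L) ^ 3 * (1 + y) ^ 4) ≤
        (1 + L) * g ^ 2 * (23 / 10 * (m * k)) :=
      mul_le_mul_of_nonneg_left D4 (by positivity)
    have a5 : (1 + L) * g ^ 2 * (23 / 10 * (m * k)) =
        23 / 10 * ((g * m) * ((1 + L) * g * k)) := by ring
    have a6 : (g * m) * ((1 + L) * g * k) ≤ M * (2 * L * K) :=
      mul_le_mul hM' hK' (by positivity) hM0.le
    have a7 : 2 * L * ((((1 + L) * (1 + y)) ^ 2) ^ 2 * (2 * g) ^ 2) ≤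
        2 * L * (23 / 10 * (M * K)) := by
      have : 23 / 10 * (M * (2 * L * K)) = 2 * L * (23 / 10 * (M * K)) := by ring
      linarith
    have a8 := le_of_mul_le_mul_left a7 (by positivity)
    linarith
  · -- (V)
    have a1 : (β * (((1 + L) ^ 2 - 1) / (1 + L) ^ 2)) ^ 2 * ((1 + L) * (1 + y)) ^ 2 * Θ =
        (y + y ^ 2 / 2) ^ 2 * (L * (L + 2)) ^ 2 * ((1 + L) * (1 + y)) ^ 2 * Θ := by
      rw [hβ']
      field_simp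
      ring
    have a2 : (y + y ^ 2 / 2) ^ 2 * (L * (L + 2)) ^ 2 * ((1 + L) * (1 + y)) ^ 2 * Θ ≤
        (y + y ^ 2 / 2) ^ 2 * (L * (L + 2)) ^ 2 * ((1 + L) * (1 + y)) ^ 2 * (2 * g) :=
      mul_le_mul_of_nonneg_left h3 (by positivity)
    have a3 : (y + y ^ 2 / 2) ^ 2 * (L * (L + 2)) ^ 2 * ((1 + L) * (1 + y)) ^ 2 * (2 * g) =
        1 / 2 * y * (y + 2) ^ 2 * (1 + L) * (1 + y) ^ 2 * g * (L * (L + 2)) ^ 2 *
          ((1 + L) * y) := by ring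
    have a4 : 1 / 2 * y * (y + 2) ^ 2 * (1 + L) * (1 + y) ^ 2 * g * (L * (L + 2)) ^ 2 *
          ((1 + L) * y) ≤
        1 / 2 * y * (y + 2) ^ 2 * (1 + L) * (1 + y) ^ 2 * g * (L * (L + 2)) ^ 2 *
          (L * g) := mul_le_mul_of_nonneg_left hgy (by positivity)
    have a5 : 1 / 2 * y * (y + 2) ^ 2 * (1 + L) * (1 + y) ^ 2 * g * (L * (L + 2)) ^ 2 *
          (L * g) = 1 / 20 * ((1 + L) * (1 + y) ^ 2 * g ^ 2 *
            (10 * L ^ 3 * (L + 2) ^ 2 * y * (y + 2) ^ 2)) := by ring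
    have a6 : (1 + L) * (1 + y) ^ 2 * g ^ 2 *
            (10 * L ^ 3 * (L + 2) ^ 2 * y * (y + 2) ^ 2) ≤
        (1 + L) * (1 + y) ^ 2 * g ^ 2 * ((1 + L) * (2 * P + 1) * w) :=
      mul_le_mul_of_nonneg_left D5 (by positivity)
    have a7 : (1 + L) * (1 + y) ^ 2 * g ^ 2 * ((1 + L) * (2 * P + 1) * w) =
        W * ((1 + L) * (1 + y) * g * (2 * P + 1)) := by rw [hW']; ring
    have a9 : Ep ≤ K := by
      rw [hK, hβ']
      have e1 : 0 ≤ (1 + L) ^ 2 * (y + y ^ 2 / 2) * ((1 + L) * (1 + y) * g) / (1 + L) ^ 2 := by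
        positivity
      have e2 : 0 ≤ q := (sq_nonneg g).trans h2
      have e3 : 0 ≤ 1 / 2 * q * (1 + P) := by positivity
      linarith
    have a8 : W * ((1 + L) * (1 + y) * g * (2 * P + 1)) ≤ W * K :=
      mul_le_mul_of_nonneg_left (hE'.trans a9) hW0.le
    rw [a1]
    linarith

/-- the scalar inequalities, case `β ≤ 0`; `b = - β` -/
theorem sc_case2 {l b A q Θ β ρ P F M W K Ep : ℝ} (hl1 : 1 < l) (hb0 : 0 ≤ b) (hb : b ≤ 1 / 2)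
    (hA : 0 < A) (h0 : 0 ≤ Θ) (hq : 0 ≤ q) (h1 : l * Θ / 2 + b ≤ A)
    (hβ : β = -b) (hρ : ρ = l - 2 * b) (hP : P = l + β * (l - 1))
    (hF : F = A + β * ρ / l) (hM : M = 2 * (2 * P * A - F) - 2 / 3 * Θ)
    (hW : W = A * (2 * l + 2 - 7 / 2 / l)) (hE : Ep = 2 * P * A + F)
    (hK : K = Ep + β * A / l + 1 / 2 * q * (1 + P)) :
    0 < M ∧ 0 < W ∧ 0 < K ∧ 0 < Ep ∧ (β * (4 - 5 / l)) ^ 2 * ρ * Θ ≤ 1 / 4 * (M * W) ∧
      (β * (2 - 3 / l)) ^ 2 * ρ * Θ ≤ 1 / 10 * (Ep * W) ∧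
      (2 * β + ρ) ^ 2 * Θ ^ 2 ≤ 2 * (Ep * K) ∧ ρ ^ 2 * Θ ^ 2 ≤ 23 / 10 * (M * K) ∧
      (β * ((l - 1) / l)) ^ 2 * ρ * Θ ≤ 1 / 20 * (W * K) ∧
      W ≤ 4 * P * A + F + β * A / l - P * Θ - (1 / 2 + b) * Θ := by
  obtain ⟨k, rfl⟩ : ∃ k, l = 1 + k := ⟨l - 1, by ring⟩
  have hk0 : 0 < k := by linarith
  subst hβ
  have hl : 0 < 1 + k := by linarith
  have hP' : P = 1 + k - b * k := by rw [hP]; ring
  have hP1 : (1 + k + 1) / 2 ≤ P := by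
    have := mul_le_mul_of_nonneg_right hb hk0.le
    rw [hP']
    linarith
  have hP0 : 0 < P := by linarith
  have hρ0 : 0 < ρ := by rw [hρ]; linarith
  have hρ1 : ρ ≤ 1 + k := by rw [hρ]; linarith
  have hbA : b ≤ A := by
    have : 0 ≤ (1 + k) * Θ / 2 := by positivity
    linarith
  have hbρ : b * ρ ≤ 1 / 8 + k / 2 := by
    have e1 := mul_le_mul_of_nonneg_right hb hk0.le
    have e2 := sq_nonneg (b - 1 / 4)
    have e3 : b * (1 + k - 2 * b) = 1 / 8 + b * k - 2 * (b - 1 / 4) ^ 2 := by ring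
    rw [hρ, e3]
    linarith
  have hbρ0 : 0 ≤ b * ρ := by positivity
  -- the basic product
  have hbΘ : 2 * (1 + k) * (b * Θ) ≤ A ^ 2 := by
    have e1 : 0 ≤ (1 + k) * Θ / 2 + b := by positivity
    have e2 := pow_le_pow_left₀ e1 h1 2
    have e3 := sq_nonneg ((1 + k) * Θ / 2 - b)
    have e4 : ((1 + k) * Θ / 2 + b) ^ 2 = ((1 + k) * Θ / 2 - b) ^ 2 + 2 * (1 + k) * (b * Θ) := by
      ring
    linarith
  have hbb : 2 * (1 + k) * (b ^ 2 * ρ * Θ) ≤ (1 / 8 + k / 2) * A ^ 2 := by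
    have e1 : 2 * (1 + k) * (b ^ 2 * ρ * Θ) = (b * ρ) * (2 * (1 + k) * (b * Θ)) := by ring
    rw [e1]
    exact mul_le_mul hbρ hbΘ (by positivity) (by positivity)
  -- multiplied by `l`
  have hFl : (1 + k) * F = (1 + k) * A - b * ρ := by
    rw [hF]
    field_simp
    ring
  have hMl : (1 + k) * M = (1 + k) * (4 * P * A - 2 * A - 2 / 3 * Θ) + 2 * (b * ρ) := by
    rw [hM]
    linear_combination (-2) * hFl
  have hWl : (1 + k) * W = A * (2 * (1 + k) ^ 2 + 2 * (1 + k) - 7 / 2) := by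
    rw [hW]
    field_simp
  have hEl : (1 + k) * Ep = (1 + k) * (2 * P * A + A) - b * ρ := by
    rw [hE]
    linear_combination hFl
  have hKl : (1 + k) * K = (1 + k) * (2 * P * A + A) - b * ρ - b * A + (1 + k) * (1 / 2 * q * (1 + P)) := by
    rw [hK]
    have : (1 + k) * (Ep + -b * A / (1 + k) + 1 / 2 * q * (1 + P)) = (1 + k) * Ep - b * A +
        (1 + k) * (1 / 2 * q * (1 + P)) := by
      field_simp
      try ring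
    rw [this, hEl]
  have hΘA : (1 + k) * Θ ≤ 2 * (A - b) := by linarith
  have hPA : (1 + k + 1) / 2 * A ≤ P * A := mul_le_mul_of_nonneg_right hP1 hA.le
  have hqP : 0 ≤ (1 + k) * (1 / 2 * q * (1 + P)) := by positivity
  -- lower bounds
  have hM1 : A * (2 * (1 + k) ^ 2 - 4 / 3) ≤ (1 + k) * M := by
    rw [hMl]
    have e1 : (1 + k) * ((1 + k + 1) / 2 * A) ≤ (1 + k) * (P * A) :=
      mul_le_mul_of_nonneg_left hPA hl.le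
    linarith
  have hE1 : (2 + k) * A ≤ Ep := by
    have e1 : (1 + k) * ((2 + k) * A) ≤ (1 + k) * Ep := by
      rw [hEl]
      have e2 : (1 + k) * ((1 + k + 1) / 2 * A) ≤ (1 + k) * (P * A) :=
        mul_le_mul_of_nonneg_left hPA hl.le
      have e3 : b * ρ ≤ A * (1 + k) := mul_le_mul hbA hρ1 hρ0.le hA.le
      linarith
    exact le_of_mul_le_mul_left e1 hl
  have hK1 : (1 + k + 1 / 2) * A ≤ K := by
    have e1 : (1 + k) * ((1 + k + 1 / 2) * A) ≤ (1 + k) * K := by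
      rw [hKl]
      have e2 : (1 + k) * ((1 + k + 1) / 2 * A) ≤ (1 + k) * (P * A) :=
        mul_le_mul_of_nonneg_left hPA hl.le
      have e3 : b * ρ ≤ A * (1 + k) := mul_le_mul hbA hρ1 hρ0.le hA.le
      have e4 : b * A ≤ 1 / 2 * A := mul_le_mul_of_nonneg_right hb hA.le
      have e5 : 0 ≤ k * A := by positivity
      linarith
    exact le_of_mul_le_mul_left e1 hl
  have hM0 : 0 < M := by
    have : 0 < (1 + k) * M := by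
      refine lt_of_lt_of_le ?_ hM1
      have e1 : 2 * (1 + k) ^ 2 - 4 / 3 = 2 / 3 + 4 * k + 2 * k ^ 2 := by ring
      rw [e1]
      positivity
    exact pos_of_mul_pos_right this hl.le
  have hW1 : 0 < 2 * (1 + k) ^ 2 + 2 * (1 + k) - 7 / 2 := by
    have e1 : 2 * (1 + k) ^ 2 + 2 * (1 + k) - 7 / 2 = 1 / 2 + 6 * k + 2 * k ^ 2 := by ring
    rw [e1]
    positivity
  have hW0 : 0 < W := by
    have : 0 < (1 + k) * W := by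
      rw [hWl]
      positivity
    exact pos_of_mul_pos_right this hl.le
  have hE0 : 0 < Ep := lt_of_lt_of_le (by positivity) hE1
  have hK0 : 0 < K := lt_of_lt_of_le (by positivity) hK1
  refine ⟨hM0, hW0, hK0, hE0, ?_, ?_, ?_, ?_, ?_, ?_⟩
  · -- (I)
    have a1 : (1 + k) ^ 2 * ((-b * (4 - 5 / (1 + k))) ^ 2 * ρ * Θ) =
        (4 * (1 + k) - 5) ^ 2 * (b ^ 2 * ρ * Θ) := by
      field_simp
    have a2 : 2 * (1 + k) * ((4 * (1 + k) - 5) ^ 2 * (b ^ 2 * ρ * Θ)) ≤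
        (4 * (1 + k) - 5) ^ 2 * ((1 / 8 + k / 2) * A ^ 2) := by
      have : 2 * (1 + k) * ((4 * (1 + k) - 5) ^ 2 * (b ^ 2 * ρ * Θ)) =
          (4 * (1 + k) - 5) ^ 2 * (2 * (1 + k) * (b ^ 2 * ρ * Θ)) := by ring
      rw [this]
      exact mul_le_mul_of_nonneg_left hbb (sq_nonneg _)
    have a3 : 2 * (4 * (1 + k) - 5) ^ 2 * (1 / 8 + k / 2) ≤
        (1 + k) * ((2 * (1 + k) ^ 2 - 4 / 3) * (2 * (1 + k) ^ 2 + 2 * (1 + k) - 7 / 2)) := by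
      have e : ∀ x y : ℝ, y - x = 1 / 12 + 22 / 3 * k + 109 / 3 * k ^ 2 + 91 / 3 * k ^ 3 +
          24 * k ^ 4 + 4 * k ^ 5 → x ≤ y := by
        intro x y h
        have : 0 ≤ 1 / 12 + 22 / 3 * k + 109 / 3 * k ^ 2 + 91 / 3 * k ^ 3 +
          24 * k ^ 4 + 4 * k ^ 5 := by positivity
        linarith
      exact e _ _ (by ring)
    have a4 : A * (2 * (1 + k) ^ 2 - 4 / 3) * (A * (2 * (1 + k) ^ 2 + 2 * (1 + k) - 7 / 2)) ≤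
        (1 + k) * M * ((1 + k) * W) := by
      rw [hWl]
      exact mul_le_mul_of_nonneg_right hM1 (by positivity)
    have a5 := mul_le_mul_of_nonneg_right a3 (sq_nonneg A)
    have a6 : 4 * (1 + k) ^ 3 * ((-b * (4 - 5 / (1 + k))) ^ 2 * ρ * Θ) ≤
        4 * (1 + k) ^ 3 * (1 / 4 * (M * W)) := by
      have e1 : 4 * (1 + k) ^ 3 * ((-b * (4 - 5 / (1 + k))) ^ 2 * ρ * Θ) =
          2 * (2 * (1 + k) * ((1 + k) ^ 2 * ((-b * (4 - 5 / (1 + k))) ^ 2 * ρ * Θ))) := by ring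
      rw [e1, a1]
      have e2 := mul_le_mul_of_nonneg_left a4 hl.le
      linarith
    exact le_of_mul_le_mul_left a6 (by positivity)
  · -- (II)
    have a1 : (1 + k) ^ 2 * ((-b * (2 - 3 / (1 + k))) ^ 2 * ρ * Θ) =
        (2 * (1 + k) - 3) ^ 2 * (b ^ 2 * ρ * Θ) := by
      field_simp
    have a2 : 2 * (1 + k) * ((2 * (1 + k) - 3) ^ 2 * (b ^ 2 * ρ * Θ)) ≤
        (2 * (1 + k) - 3) ^ 2 * ((1 / 8 + k / 2) * A ^ 2) := by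
      have : 2 * (1 + k) * ((2 * (1 + k) - 3) ^ 2 * (b ^ 2 * ρ * Θ)) =
          (2 * (1 + k) - 3) ^ 2 * (2 * (1 + k) * (b ^ 2 * ρ * Θ)) := by ring
      rw [this]
      exact mul_le_mul_of_nonneg_left hbb (sq_nonneg _)
    have a3 : 5 * (1 / 8 + k / 2) * (2 * (1 + k) - 3) ^ 2 ≤
        (1 + k) ^ 2 * ((2 + k) * (2 * (1 + k) ^ 2 + 2 * (1 + k) - 7 / 2)) := by
      have e : ∀ x y : ℝ, y - x = 3 / 8 + 29 / 2 * k + 87 / 2 * k ^ 2 + 49 / 2 * k ^ 3 +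
          14 * k ^ 4 + 2 * k ^ 5 → x ≤ y := by
        intro x y h
        have : 0 ≤ 3 / 8 + 29 / 2 * k + 87 / 2 * k ^ 2 + 49 / 2 * k ^ 3 +
          14 * k ^ 4 + 2 * k ^ 5 := by positivity
        linarith
      exact e _ _ (by ring)
    have a4 : (2 + k) * A * (A * (2 * (1 + k) ^ 2 + 2 * (1 + k) - 7 / 2)) ≤
        Ep * ((1 + k) * W) := by
      rw [hWl]
      exact mul_le_mul_of_nonneg_right hE1 (by positivity)
    have a5 := mul_le_mul_of_nonneg_right a3 (sq_nonneg A)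
    have a6 : 10 * (1 + k) ^ 3 * ((-b * (2 - 3 / (1 + k))) ^ 2 * ρ * Θ) ≤
        10 * (1 + k) ^ 3 * (1 / 10 * (Ep * W)) := by
      have e1 : 10 * (1 + k) ^ 3 * ((-b * (2 - 3 / (1 + k))) ^ 2 * ρ * Θ) =
          5 * (2 * (1 + k) * ((1 + k) ^ 2 * ((-b * (2 - 3 / (1 + k))) ^ 2 * ρ * Θ))) := by ring
      rw [e1, a1]
      have e2 := mul_le_mul_of_nonneg_left a4 (sq_nonneg (1 + k))
      linarith
    exact le_of_mul_le_mul_left a6 (by positivity)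
  · -- (III)
    have a1 : (2 * -b + ρ) ^ 2 ≤ (1 + k) ^ 2 := by
      have e1 : (1 + k) ^ 2 - (2 * -b + ρ) ^ 2 = 8 * b * ((1 + k) - 2 * b) := by rw [hρ]; ring
      have e2 : 0 ≤ 8 * b * ((1 + k) - 2 * b) := mul_nonneg (by positivity) (by linarith)
      linarith
    have a2 : ((1 + k) * Θ) ^ 2 ≤ (2 * A) ^ 2 :=
      pow_le_pow_left₀ (by positivity) (by linarith) 2
    have a3 : ((2 + k) * A) * ((1 + k + 1 / 2) * A) ≤ Ep * K :=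
      mul_le_mul hE1 hK1 (by positivity) hE0.le
    have a4 := mul_le_mul_of_nonneg_right a1 (sq_nonneg Θ)
    have a5 : 0 ≤ k * A ^ 2 := by positivity
    have a6 : 0 ≤ k ^ 2 * A ^ 2 := by positivity
    have a7 : ((2 + k) * A) * ((1 + k + 1 / 2) * A) = 3 * A ^ 2 + 7 / 2 * (k * A ^ 2) +
      k ^ 2 * A ^ 2 := by ring
    have a8 : (1 + k) ^ 2 * Θ ^ 2 = ((1 + k) * Θ) ^ 2 := by ring
    have a9 : (2 * A) ^ 2 = 4 * A ^ 2 := by ring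
    have a10 : 0 ≤ A ^ 2 := sq_nonneg A
    linarith
  · -- (IV)
    obtain ⟨T, rfl⟩ : ∃ T, Θ = 2 * T := ⟨Θ / 2, by ring⟩
    have hT : 0 ≤ T := by linarith
    have hA1 : (1 + k) * T + b ≤ A := by linarith
    have b1 : (2 * (2 * P - 1) * (1 + k) - 4 / 3) * T ≤ M := by
      have e1 : (1 + k) * ((2 * (2 * P - 1) * (1 + k) - 4 / 3) * T) ≤ (1 + k) * M := by
        rw [hMl]
        have e2 : 0 ≤ 2 * (2 * P - 1) := by linarith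
        have e3 := mul_le_mul_of_nonneg_left hA1 (mul_nonneg hl.le e2)
        have e4 : 0 ≤ (1 + k) * (2 * (2 * P - 1)) * b := by positivity
        linarith
      exact le_of_mul_le_mul_left e1 hl
    have b2 : ((1 + k) * (2 * P + 1) - b) * T ≤ K := by
      have e1 : (1 + k) * (((1 + k) * (2 * P + 1) - b) * T) ≤ (1 + k) * K := by
        rw [hKl]
        have e2 : 0 ≤ (1 + k) * (2 * P + 1) - b := by
          have : 0 ≤ (1 + k) * (2 * P) := by positivity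
          linarith
        have e3 := mul_le_mul_of_nonneg_left hA1 e2
        have e4 : 0 ≤ ((1 + k) * (2 * P + 1) - b - ρ) * b := by
          refine mul_nonneg ?_ hb0
          rw [hρ]
          have : 0 ≤ (1 + k) * (2 * P) := by positivity
          linarith
        linarith
      exact le_of_mul_le_mul_left e1 hl
    have b3 : 0 ≤ 2 * (2 * P - 1) * (1 + k) - 4 / 3 := by
      have e1 := mul_le_mul_of_nonneg_right hP1 hl.le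
      have e2 : 0 ≤ k * (1 + k) := by positivity
      linarith
    have b4 : 0 ≤ (1 + k) * (2 * P + 1) - b := by
      have : 0 ≤ (1 + k) * (2 * P) := by positivity
      linarith
    have b5 : ((2 * (2 * P - 1) * (1 + k) - 4 / 3) * T) * (((1 + k) * (2 * P + 1) - b) * T) ≤
        M * K := mul_le_mul b1 b2 (by positivity) hM0.le
    have b6 : 4 * ρ ^ 2 ≤ 23 / 10 * ((2 * (2 * P - 1) * (1 + k) - 4 / 3) *
        ((1 + k) * (2 * P + 1) - b)) := by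
      obtain ⟨c, rfl⟩ : ∃ c, b = (1 - c) / 2 := ⟨1 - 2 * b, by ring⟩
      have hc0 : 0 ≤ c := by linarith
      have hc1 : c ≤ 1 := by linarith
      have e : ∀ x y : ℝ, y - x = (23 / 6 * (1 - c ^ 2) + 23 / 30 * (c - c ^ 2) + 3 / 5 * c ^ 2) +
          437 / 15 * k + 289 / 30 * k * c + 23 / 10 * k * c ^ 2 + 275 / 6 * k ^ 2 +
          644 / 15 * k ^ 2 * c + 69 / 10 * k ^ 2 * c ^ 2 + 138 / 5 * k ^ 3 + 184 / 5 * k ^ 3 * c +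
          46 / 5 * k ^ 3 * c ^ 2 + 23 / 5 * k ^ 4 + 46 / 5 * k ^ 4 * c + 23 / 5 * k ^ 4 * c ^ 2 →
          x ≤ y := by
        intro x y h
        have h2 : 0 ≤ c - c ^ 2 := by
          have : 0 ≤ c * (1 - c) := mul_nonneg hc0 (by linarith)
          linarith
        have h1 : 0 ≤ 1 - c ^ 2 := by linarith
        have : 0 ≤ (23 / 6 * (1 - c ^ 2) + 23 / 30 * (c - c ^ 2) + 3 / 5 * c ^ 2) +
          437 / 15 * k + 289 / 30 * k * c + 23 / 10 * k * c ^ 2 + 275 / 6 * k ^ 2 +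
          644 / 15 * k ^ 2 * c + 69 / 10 * k ^ 2 * c ^ 2 + 138 / 5 * k ^ 3 + 184 / 5 * k ^ 3 * c +
          46 / 5 * k ^ 3 * c ^ 2 + 23 / 5 * k ^ 4 + 46 / 5 * k ^ 4 * c + 23 / 5 * k ^ 4 * c ^ 2 := by
          positivity
        linarith
      exact e _ _ (by rw [hρ, hP']; ring)
    have b7 := mul_le_mul_of_nonneg_right b6 (sq_nonneg T)
    linarith
  · -- (V)
    have a1 : (1 + k) ^ 2 * ((-b * ((1 + k - 1) / (1 + k))) ^ 2 * ρ * Θ) =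
        k ^ 2 * (b ^ 2 * ρ * Θ) := by
      field_simp
      ring
    have a2 : 2 * (1 + k) * (k ^ 2 * (b ^ 2 * ρ * Θ)) ≤
        k ^ 2 * ((1 / 8 + k / 2) * A ^ 2) := by
      have : 2 * (1 + k) * (k ^ 2 * (b ^ 2 * ρ * Θ)) =
          k ^ 2 * (2 * (1 + k) * (b ^ 2 * ρ * Θ)) := by ring
      rw [this]
      exact mul_le_mul_of_nonneg_left hbb (sq_nonneg _)
    have a3 : 10 * (1 / 8 + k / 2) * k ^ 2 ≤
        (1 + k) ^ 2 * ((2 * (1 + k) ^ 2 + 2 * (1 + k) - 7 / 2) * (1 + k + 1 / 2)) := by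
      have e : ∀ x y : ℝ, y - x = 3 / 4 + 11 * k + 55 / 2 * k ^ 2 + 49 / 2 * k ^ 3 + 13 * k ^ 4 +
          2 * k ^ 5 → x ≤ y := by
        intro x y h
        have : 0 ≤ 3 / 4 + 11 * k + 55 / 2 * k ^ 2 + 49 / 2 * k ^ 3 + 13 * k ^ 4 + 2 * k ^ 5 := by
          positivity
        linarith
      exact e _ _ (by ring)
    have a4 : (A * (2 * (1 + k) ^ 2 + 2 * (1 + k) - 7 / 2)) * ((1 + k + 1 / 2) * A) ≤
        ((1 + k) * W) * K := by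
      rw [hWl]
      exact mul_le_mul_of_nonneg_left hK1 (by positivity)
    have a5 := mul_le_mul_of_nonneg_right a3 (sq_nonneg A)
    have a6 : 20 * (1 + k) ^ 3 * ((-b * ((1 + k - 1) / (1 + k))) ^ 2 * ρ * Θ) ≤
        20 * (1 + k) ^ 3 * (1 / 20 * (W * K)) := by
      have e1 : 20 * (1 + k) ^ 3 * ((-b * ((1 + k - 1) / (1 + k))) ^ 2 * ρ * Θ) =
          10 * (2 * (1 + k) * ((1 + k) ^ 2 * ((-b * ((1 + k - 1) / (1 + k))) ^ 2 * ρ * Θ))) := by ring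
      rw [e1, a1]
      have e2 := mul_le_mul_of_nonneg_left a4 (sq_nonneg (1 + k))
      linarith
    exact le_of_mul_le_mul_left a6 (by positivity)
  · -- the bound for `W`
    have c1 : (1 + k) * W ≤ (1 + k) * (4 * P * A + F + -b * A / (1 + k) - P * Θ - (1 / 2 + b) * Θ) := by
      have e1 : (1 + k) * (4 * P * A + F + -b * A / (1 + k) - P * Θ - (1 / 2 + b) * Θ) =
          (1 + k) * (4 * P * A) + (1 + k) * F - b * A - (P + 1 / 2 + b) * ((1 + k) * Θ) := by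
        field_simp
        ring
      rw [e1, hFl, hWl]
      have e2 : (P + 1 / 2 + b) * ((1 + k) * Θ) ≤ (P + 1 / 2 + b) * (2 * (A - b)) :=
        mul_le_mul_of_nonneg_left hΘA (by positivity)
      have e3 : 0 ≤ (2 * P + 1 + 2 * b - ρ) * b := by
        refine mul_nonneg ?_ hb0
        rw [hρ]
        linarith
      have e4 : 0 ≤ ((4 * (1 + k) - 2) * (P - (1 + k + 1) / 2) + 3 * (1 / 2 - b)) * A := by
        refine mul_nonneg (add_nonneg (mul_nonneg (by linarith) (by linarith)) (by linarith)) hA.le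
      linarith
    exact le_of_mul_le_mul_left c1 hl

end Pool.Agent.Helper77.JE
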