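import Pool.Agent.Helper65.HB.Fin3
import Pool.Agent.Helper77.JH.K1

/-! # HB: the tensor vanishes on the hypersurface off the point `p` -/

set_option autoImplicit false
set_option linter.unusedSectionVars false
set_option linter.unusedVariables false

open Filter Topology Set
open scoped ContDiff

namespace Pool.Agent.Helper77.JH.CH

open Pool.Agent.Helper77.JE
open Pool.Agent.Helper77.JH (HzQ TT VQ GpO JU Rq hz_unit tt_unit)
open Pool.Agent.Helper65.HB (Hy3)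

variable {E : Type*} [NormedAddCommGroup E] [InnerProductSpace ℝ E] [FiniteDimensional ℝ E]
variable {j : E →L[ℝ] E} {ρ : E → ℝ} {n : ℕ} {lam : ℝ} {p : ℝ × ℝ × E}

/-- piece `JH-K3` (c) -/
theorem T_zero0 (h : Hy j ρ n lam p)
    (hbd : ∃ r : ℝ, r < 1 ∧ ∀ z ∈ Metric.ball (0 : E) 1, ρ z ≤ 0 → ‖z‖ ≤ r) {z : E}
    (hz : ‖z‖ < 1) (h0 : ρ z = 0) (hzp : pr j p ≠ z) {w : ℝ × ℝ × E}
    (hw : HzQ (BL E) (JU (JL j)) (io z) (nu (BL E) (GG j ρ) (io z)) w) :
    TT (BL E) (JU (JL j)) lam (GG j ρ) (io z) w = 0 := by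
  have h3 : Hy3 j ρ n lam p :=
    ⟨h.cj, h.dim, h.two, h.one, h.smooth, h.reg, h.curv, h.pp, h.cen⟩
  have hw1 := hz_unit.1 hw
  have hw2 : Hz (BL E) (JL j) (xs (BL E) (io z)) (nu (BL E) (GG j ρ) (io z)) w := by
    unfold xs
    refine ⟨?_, ?_, hw1.2.2⟩
    · rw [map_smul, hw1.1, smul_zero]
    · rw [map_smul, map_smul, hw1.2.1, smul_zero]
  rw [tt_unit]
  exact Pool.Agent.Helper65.HB.T_zero0 h3 hbd hz h0 hzp hw2

end Pool.Agent.Helper77.JH.CH
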